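import Pool.Agent.H483.FE.Theta

set_option autoImplicit false

/-!
# Infinite-dimensional spaces of entire functions, and division by polynomials
-/

namespace Pool.Agent.H483.FE

open Set Filter Topology Complex Polynomial
open scoped ComplexConjugate

lemma inf_dim (V : ℕ → Submodule ℝ (ℂ → ℂ)) (hV : Antitone V) (hne : ∀ n, V n ≠ ⊥)
    (hinf : ∀ x, (∀ n, x ∈ V n) → x = 0) : ¬ FiniteDimensional ℝ (V 0) := by
  intro hfin
  have hart : IsArtinian ℝ (V 0) := inferInstance
  let f : ℕ →o (Submodule ℝ (V 0))ᵒᵈ :=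
    ⟨fun n => OrderDual.toDual ((V n).comap (V 0).subtype), fun m n h => by
      show (V n).comap (V 0).subtype ≤ (V m).comap (V 0).subtype
      exact Submodule.comap_mono (hV h)⟩
  obtain ⟨n, hn⟩ := IsArtinian.monotone_stabilizes f
  obtain ⟨x, hx, hx0⟩ := (Submodule.ne_bot_iff _).1 (hne n)
  apply hx0
  apply hinf
  intro m
  rcases le_total n m with h | h
  · have h1 := hn m h
    have h2 : (V n).comap (V 0).subtype = (V m).comap (V 0).subtype := h1
    have h3 : (⟨x, hV (Nat.zero_le n) hx⟩ : V 0) ∈ (V n).comap (V 0).subtype := hx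
    rw [h2] at h3
    exact h3
  · exact hV h hx

/-- the quotient by a polynomial -/
def Quo (V : Submodule ℝ (ℂ → ℂ)) (D : ℂ[X]) : Submodule ℝ (ℂ → ℂ) where
  carrier := {f | Differentiable ℂ f ∧ (fun s => D.eval s * f s) ∈ V}
  zero_mem' := ⟨differentiable_const _, by
    have : (fun s => D.eval s * (0 : ℂ → ℂ) s) = 0 := by funext s; simp
    rw [this]; exact V.zero_mem⟩
  add_mem' := by
    rintro f g ⟨hf, hf'⟩ ⟨hg, hg'⟩
    refine ⟨hf.add hg, ?_⟩
    have := V.add_mem hf' hg'
    convert this using 1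
    funext s
    simp [mul_add]
  smul_mem' := by
    rintro c f ⟨hf, hf'⟩
    refine ⟨hf.const_smul c, ?_⟩
    have := V.smul_mem c hf'
    convert this using 1
    funext s
    simp
    ring

lemma quo_linear {V : Submodule ℝ (ℂ → ℂ)} (hV : ∀ f ∈ V, Differentiable ℂ f)
    (hdim : ¬ FiniteDimensional ℝ V) (z : ℂ) : ¬ FiniteDimensional ℝ (Quo V (X - C z)) := by
  intro hfin
  apply hdim
  -- evaluation at z
  let ev : V →ₗ[ℝ] ℂ :=
    { toFun := fun f => (f : ℂ → ℂ) z
      map_add' := fun f g => by simp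
      map_smul' := fun c f => by simp }
  -- the map from the quotient to the kernel
  let φ : Quo V (X - C z) →ₗ[ℝ] V :=
    { toFun := fun f => ⟨fun s => (X - C z).eval s * (f : ℂ → ℂ) s, f.2.2⟩
      map_add' := fun f g => by
        ext s; simp [mul_add]
      map_smul' := fun c f => by
        ext s; simp; ring }
  have hker : LinearMap.ker ev ≤ LinearMap.range φ := by
    intro f hf
    rw [LinearMap.mem_ker] at hf
    have hf' : (f : ℂ → ℂ) z = 0 := hf
    have hfd := hV f f.2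
    have hd : Differentiable ℂ (dslope (f : ℂ → ℂ) z) := by
      have : DifferentiableOn ℂ (dslope (f : ℂ → ℂ) z) univ :=
        (differentiableOn_dslope (univ_mem)).2 hfd.differentiableOn
      exact differentiableOn_univ.1 this
    have he : (fun s => (X - C z).eval s * dslope (f : ℂ → ℂ) z s) = (f : ℂ → ℂ) := by
      funext s
      have := sub_smul_dslope (f : ℂ → ℂ) z s
      rw [hf', sub_zero] at this
      simpa using this
    refine ⟨⟨dslope (f : ℂ → ℂ) z, hd, by rw [he]; exact f.2⟩, ?_⟩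
    ext s
    exact congrFun he s
  have h1 : FiniteDimensional ℝ (LinearMap.range φ) := inferInstance
  have h2 : FiniteDimensional ℝ (LinearMap.ker ev) := Submodule.finiteDimensional_of_le hker
  have h3 : FiniteDimensional ℝ (LinearMap.range ev) := inferInstance
  have h4 : (LinearMap.ker ev).FG := (Submodule.fg_iff_finiteDimensional _).2 h2
  have h5 : (LinearMap.range ev).FG := (Submodule.fg_iff_finiteDimensional _).2 h3
  have h6 : (⊤ : Submodule ℝ V).FG := by
    apply Submodule.fg_of_fg_map_of_fg_inf_ker ev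
    · rw [← LinearMap.range_eq_map]; exact h5
    · rw [top_inf_eq]; exact h4
  exact Module.finite_def.2 h6

lemma quo_mul (V : Submodule ℝ (ℂ → ℂ)) (D E : ℂ[X]) : Quo (Quo V D) E ≤ Quo V (D * E) := by
  rintro f ⟨hf, hf1, hf2⟩
  refine ⟨hf, ?_⟩
  convert hf2 using 1
  funext s
  simp [mul_assoc]

/-- Division by a polynomial keeps the infinite dimension. -/
theorem quo_inf {V : Submodule ℝ (ℂ → ℂ)} (hV : ∀ f ∈ V, Differentiable ℂ f)
    (hdim : ¬ FiniteDimensional ℝ V) (D : ℂ[X]) (hD : D ≠ 0) : ¬ FiniteDimensional ℝ (Quo V D) := by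
  induction hn : D.natDegree generalizing D V with
  | zero =>
    intro hfin
    apply hdim
    rw [natDegree_eq_zero] at hn
    obtain ⟨c, rfl⟩ := hn
    have hc : c ≠ 0 := by rintro rfl; simp at hD
    let φ : Quo V (C c) →ₗ[ℝ] V :=
      { toFun := fun f => ⟨fun s => (C c).eval s * (f : ℂ → ℂ) s, f.2.2⟩
        map_add' := fun f g => by
          ext s; simp [mul_add]
        map_smul' := fun d f => by
          ext s; simp; ring }
    refine Module.Finite.of_surjective φ fun f => ?_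
    refine ⟨⟨fun s => c⁻¹ * (f : ℂ → ℂ) s, (hV f f.2).const_mul _, ?_⟩, ?_⟩
    · have : (fun s => (C c).eval s * (c⁻¹ * (f : ℂ → ℂ) s)) = (f : ℂ → ℂ) := by
        funext s; rw [eval_C, ← mul_assoc, mul_inv_cancel₀ hc, one_mul]
      rw [this]; exact f.2
    · ext s
      show (C c).eval s * (c⁻¹ * (f : ℂ → ℂ) s) = _
      rw [eval_C, ← mul_assoc, mul_inv_cancel₀ hc, one_mul]
  | succ n ih =>
    obtain ⟨z, hz⟩ := IsAlgClosed.exists_root D (by
      intro h
      rw [degree_eq_natDegree hD, hn] at h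
      exact_mod_cast absurd h (by norm_cast))
    obtain ⟨E, rfl⟩ := dvd_iff_isRoot.2 hz
    have hE : E ≠ 0 := right_ne_zero_of_mul hD
    have hn' : E.natDegree = n := by
      rw [natDegree_mul (X_sub_C_ne_zero z) hE, natDegree_X_sub_C] at hn
      omega
    have h1 := ih (V := Quo V (X - C z)) (fun f hf => hf.1) (quo_linear hV hdim z) E hE hn'
    intro hfin
    exact h1 (Submodule.finiteDimensional_of_le (quo_mul V _ _))

/-- the space of completed functions with `a n = 0` for `n ≤ N` -/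
def VV (γ : ℂ → ℂ) (α : ℝ) (N : ℕ) : Submodule ℝ (ℂ → ℂ) where
  carrier := {Λ | Differentiable ℂ Λ ∧ (∀ s, Λ s = conj (Λ (1 - conj s))) ∧
    (∀ σ₁ σ₂ : ℝ, ∃ C : ℝ, ∀ s : ℂ, σ₁ ≤ s.re → s.re ≤ σ₂ → ‖Λ s‖ ≤ C) ∧
    ∃ a : ℕ → ℂ, (∀ n, n ≤ N → a n = 0) ∧
      ∀ s : ℂ, 1 / 2 + α < s.re → LSeriesSummable a s ∧ Λ s = γ s * LSeries a s}
  zero_mem' := by
    refine ⟨differentiable_const _, fun s => by simp, fun a b => ⟨0, fun s _ _ => by simp⟩, 0, fun n _ => rfl,
      fun s _ => ⟨LSeriesSummable_zero, by rw [LSeries_zero]; simp⟩⟩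
  add_mem' := by
    rintro Λ1 Λ2 ⟨d1, f1, b1, a1, n1, e1⟩ ⟨d2, f2, b2, a2, n2, e2⟩
    refine ⟨d1.add d2, fun s => ?_, fun x y => ?_, a1 + a2, fun n hn => by simp [n1 n hn, n2 n hn], fun s hs => ?_⟩
    · simp only [Pi.add_apply, map_add]
      rw [← f1, ← f2]
    · obtain ⟨C1, h1⟩ := b1 x y
      obtain ⟨C2, h2⟩ := b2 x y
      exact ⟨C1 + C2, fun s hx hy => (norm_add_le _ _).trans (add_le_add (h1 s hx hy) (h2 s hx hy))⟩
    · obtain ⟨s1, e1⟩ := e1 s hs
      obtain ⟨s2, e2⟩ := e2 s hs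
      refine ⟨s1.add s2, ?_⟩
      rw [LSeries_add s1 s2, Pi.add_apply, e1, e2]
      ring
  smul_mem' := by
    rintro c Λ ⟨d, f, b, a, n1, e⟩
    refine ⟨d.const_smul c, fun s => ?_, fun x y => ?_, (c : ℂ) • a, fun n hn => by simp [n1 n hn], fun s hs => ?_⟩
    · simp only [Pi.smul_apply, Complex.real_smul, map_mul, Complex.conj_ofReal]
      rw [← f]
    · obtain ⟨C, h⟩ := b x y
      refine ⟨|c| * C, fun s hx hy => ?_⟩
      rw [Pi.smul_apply, norm_smul, Real.norm_eq_abs]
      exact mul_le_mul_of_nonneg_left (h s hx hy) (abs_nonneg _)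
    · obtain ⟨s1, e1⟩ := e s hs
      refine ⟨s1.smul _, ?_⟩
      rw [LSeries_smul, Pi.smul_apply, e1, Complex.real_smul]
      ring

lemma VV_anti (γ : ℂ → ℂ) (α : ℝ) : Antitone (VV γ α) := by
  rintro M N h Λ ⟨d, f, b, a, n1, e⟩
  exact ⟨d, f, b, a, fun n hn => n1 n (hn.trans h), e⟩

/-- The spaces `VV` are infinite-dimensional. -/
theorem VV_inf {γ : ℂ → ℂ} {α : ℝ} (A : Adm γ α) {R : ℝ} (hR : ∀ s : ℂ, R < s.re → γ s ≠ 0) (N : ℕ) :
    ¬ FiniteDimensional ℝ (VV γ α N) := by
  have huniq : ∀ a : ℕ → ℂ, (∀ s : ℂ, 1 / 2 + α < s.re → LSeriesSummable a s) →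
      LSeries.abscissaOfAbsConv a < ⊤ := by
    intro a h
    have h1 := (h ((1 / 2 + α + 1 : ℝ) : ℂ) (by simp)).abscissaOfAbsConv_le
    exact lt_of_le_of_lt h1 (EReal.coe_lt_top _)
  have hzero : ∀ (x : ℂ → ℂ) (a : ℕ → ℂ), Differentiable ℂ x → (∀ n, n ≠ 0 → a n = 0) →
      (∀ s : ℂ, 1 / 2 + α < s.re → x s = γ s * LSeries a s) → x = 0 := by
    intro x a hx ha h
    have hL : ∀ s, LSeries a s = 0 := by
      intro s
      have : LSeries a s = LSeries 0 s := LSeries_congr (fun {n} hn => by simp [ha n hn]) s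
      rw [this, LSeries_zero]; rfl
    have h1 : ∀ s : ℂ, 1 / 2 + α < s.re → x s = 0 := fun s hs => by rw [h s hs, hL, mul_zero]
    have h2 : AnalyticOnNhd ℂ x univ := fun s _ => hx.analyticAt s
    have h3 : AnalyticOnNhd ℂ (0 : ℂ → ℂ) univ := fun s _ => analyticAt_const
    have h4 : x =ᶠ[𝓝 ((1 / 2 + α + 1 : ℝ) : ℂ)] 0 := by
      have : {s : ℂ | 1 / 2 + α < s.re} ∈ 𝓝 ((1 / 2 + α + 1 : ℝ) : ℂ) := by
        apply (isOpen_lt continuous_const Complex.continuous_re).mem_nhds
        simp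
      filter_upwards [this] with s hs
      exact h1 s hs
    exact h2.eq_of_eventuallyEq h3 h4
  have h := inf_dim (fun n => VV γ α (N + n)) (fun m n h => VV_anti γ α (by omega)) (fun n => by
    obtain ⟨a, Λ, h1, ⟨m, hm⟩, h3, h4, h5, h6⟩ := core A (N + n)
    rw [Submodule.ne_bot_iff]
    refine ⟨Λ, ⟨h3, h4, h5, a, h1, h6⟩, ?_⟩
    rintro rfl
    apply hm
    have hm0 : m ≠ 0 := by rintro rfl; exact hm (h1 0 (Nat.zero_le _))
    have ha := huniq a (fun s hs => (h6 s hs).1)
    have hb : LSeries.abscissaOfAbsConv (0 : ℕ → ℂ) < ⊤ := by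
      apply huniq; intro s _; exact LSeriesSummable_zero
    have := LSeries.eq_of_LSeries_eventually_eq ha hb (by
      filter_upwards [eventually_gt_atTop (1 / 2 + α), eventually_gt_atTop R] with x hx1 hx2
      have e := (h6 x (by simpa using hx1)).2
      have hne := hR x (by simpa using hx2)
      rw [LSeries_zero]
      simp only [Pi.zero_apply] at e ⊢
      rcases mul_eq_zero.1 e.symm with h | h
      · exact absurd h hne
      · exact h) hm0
    simpa using this) (fun x hx => by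
    obtain ⟨hd, -, -, a, -, e⟩ := hx 0
    apply hzero x a hd _ (fun s hs => (e s hs).2)
    intro n hn
    obtain ⟨-, -, -, b, hb, e'⟩ := hx n
    have := LSeries.eq_of_LSeries_eventually_eq (huniq a (fun s hs => (e s hs).1)) (huniq b (fun s hs => (e' s hs).1)) (by
      filter_upwards [eventually_gt_atTop (1 / 2 + α), eventually_gt_atTop R] with y hy1 hy2
      have e1 := (e y (by simpa using hy1)).2
      have e2 := (e' y (by simpa using hy1)).2
      have hne := hR y (by simpa using hy2)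
      rw [e1] at e2
      exact mul_left_cancel₀ hne e2) hn
    rw [this]
    exact hb n (by omega))
  simpa using h

end Pool.Agent.H483.FE
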