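import Pool.Agent.H483.FE.Dim

set_option autoImplicit false

/-!
# Gamma factors on vertical lines and strips
-/

namespace Pool.Agent.H483.FE

open Set Filter Topology Complex
open Pool.Agent.H336R4.PF
open scoped ComplexConjugate

/-- standard main term -/
noncomputable def st (e κ t : ℝ) : ℝ := (1 + |t|) ^ e * Real.exp (-(Real.pi / 2 * κ) * |t|)

lemma st_pos (e κ t : ℝ) : 0 < st e κ t := by
  unfold st
  have := abs_nonneg t
  positivity

lemma st_mul (e κ e' κ' t : ℝ) : st e κ t * st e' κ' t = st (e + e') (κ + κ') t := by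
  unfold st
  have h : 0 < 1 + |t| := by have := abs_nonneg t; linarith
  rw [Real.rpow_add h]
  have : Real.exp (-(Real.pi / 2 * (κ + κ')) * |t|) = Real.exp (-(Real.pi / 2 * κ) * |t|) *
      Real.exp (-(Real.pi / 2 * κ') * |t|) := by
    rw [← Real.exp_add]; congr 1; ring
  rw [this]
  ring

lemma st_inv (e κ t : ℝ) : (st e κ t)⁻¹ = st (-e) (-κ) t := by
  have h := st_mul e κ (-e) (-κ) t
  have h1 : st (e + -e) (κ + -κ) t = 1 := by unfold st; simp
  rw [h1] at h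
  exact (eq_inv_of_mul_eq_one_right h).symm

lemma st_mono {e e' κ t : ℝ} (h : e ≤ e') : st e κ t ≤ st e' κ t := by
  unfold st
  have h1 : 1 ≤ 1 + |t| := by have := abs_nonneg t; linarith
  exact mul_le_mul_of_nonneg_right (Real.rpow_le_rpow_of_exponent_le h1 h) (Real.exp_pos _).le

/-- comparison of `|l t + ν|` with `1 + |t|` -/
lemma aff_compare {l : ℝ} (hl : 0 < l) (ν : ℝ) : ∃ T : ℝ, 0 ≤ T ∧ ∀ t : ℝ, T ≤ |t| →
    1 ≤ |l * t + ν| ∧ l / 4 * (1 + |t|) ≤ |l * t + ν| ∧ |l * t + ν| ≤ (l + |ν|) * (1 + |t|) ∧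
    l * |t| - |ν| ≤ |l * t + ν| ∧ |l * t + ν| ≤ l * |t| + |ν| := by
  refine ⟨(1 + |ν| + l) * 4 / l, by positivity, fun t ht => ?_⟩
  have h0 := abs_nonneg t
  have hν := abs_nonneg ν
  have h1 : (1 + |ν| + l) * 4 ≤ l * |t| := by
    rw [div_le_iff₀ hl] at ht; linarith
  have h2 : l * |t| - |ν| ≤ |l * t + ν| := by
    have := abs_sub_abs_le_abs_sub (l * t) (-ν)
    rw [abs_neg, sub_neg_eq_add, abs_mul, abs_of_pos hl] at this
    exact this
  have h3 : |l * t + ν| ≤ l * |t| + |ν| := by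
    have := abs_add_le (l * t) ν
    rw [abs_mul, abs_of_pos hl] at this
    exact this
  refine ⟨by nlinarith, by nlinarith, by nlinarith, h2, h3⟩

lemma mt_aff {l : ℝ} (hl : 0 < l) (ν e : ℝ) : ∃ c C T : ℝ, 0 < c ∧ 0 < C ∧ ∀ t : ℝ, T ≤ |t| →
    1 ≤ |l * t + ν| ∧ c * st e l t ≤ mt e (l * t + ν) ∧ mt e (l * t + ν) ≤ C * st e l t := by
  obtain ⟨T, hT0, hT⟩ := aff_compare hl ν
  -- powers
  have hpow : ∃ c C : ℝ, 0 < c ∧ 0 < C ∧ ∀ t : ℝ, T ≤ |t| → c * (1 + |t|) ^ e ≤ |l * t + ν| ^ e ∧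
      |l * t + ν| ^ e ≤ C * (1 + |t|) ^ e := by
    have hl4 : 0 < l / 4 := by positivity
    have hlν : 0 < l + |ν| := by positivity
    rcases le_total 0 e with he | he
    · refine ⟨(l / 4) ^ e, (l + |ν|) ^ e, by positivity, by positivity, fun t ht => ?_⟩
      obtain ⟨h1, h2, h3, -, -⟩ := hT t ht
      have h0 : 0 < 1 + |t| := by positivity
      rw [← Real.mul_rpow hl4.le h0.le, ← Real.mul_rpow hlν.le h0.le]
      exact ⟨Real.rpow_le_rpow (by positivity) h2 he, Real.rpow_le_rpow (by positivity) h3 he⟩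
    · refine ⟨(l + |ν|) ^ e, (l / 4) ^ e, by positivity, by positivity, fun t ht => ?_⟩
      obtain ⟨h1, h2, h3, -, -⟩ := hT t ht
      have h0 : 0 < 1 + |t| := by positivity
      rw [← Real.mul_rpow hl4.le h0.le, ← Real.mul_rpow hlν.le h0.le]
      exact ⟨Real.rpow_le_rpow_of_nonpos (by linarith) h3 he, Real.rpow_le_rpow_of_nonpos (by positivity) h2 he⟩
  obtain ⟨c, C, hc, hC, hcC⟩ := hpow
  refine ⟨c * Real.exp (-(Real.pi / 2 * |ν|)), C * Real.exp (Real.pi / 2 * |ν|), T, by positivity, by positivity,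
    fun t ht => ?_⟩
  obtain ⟨h1, h2, h3, h4, h5⟩ := hT t ht
  obtain ⟨h6, h7⟩ := hcC t ht
  refine ⟨h1, ?_, ?_⟩
  · unfold st mt
    have e1 : Real.exp (-(Real.pi / 2 * |ν|)) * Real.exp (-(Real.pi / 2 * l) * |t|) ≤
        Real.exp (-(Real.pi / 2) * |l * t + ν|) := by
      rw [← Real.exp_add]
      apply Real.exp_le_exp.2
      nlinarith [Real.pi_pos]
    calc _ = (c * (1 + |t|) ^ e) * (Real.exp (-(Real.pi / 2 * |ν|)) * Real.exp (-(Real.pi / 2 * l) * |t|)) := by ring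
      _ ≤ _ := by
        apply mul_le_mul h6 e1 (by positivity)
        exact Real.rpow_nonneg (abs_nonneg _) _
  · unfold st mt
    have e1 : Real.exp (-(Real.pi / 2) * |l * t + ν|) ≤
        Real.exp (Real.pi / 2 * |ν|) * Real.exp (-(Real.pi / 2 * l) * |t|) := by
      rw [← Real.exp_add]
      apply Real.exp_le_exp.2
      nlinarith [Real.pi_pos]
    have h0 : 0 ≤ 1 + |t| := by positivity
    calc _ ≤ (C * (1 + |t|) ^ e) * (Real.exp (Real.pi / 2 * |ν|) * Real.exp (-(Real.pi / 2 * l) * |t|)) := by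
          apply mul_le_mul h7 e1 (by positivity)
          have := Real.rpow_nonneg h0 e
          positivity
      _ = _ := by ring

/-- Two-sided asymptotic size on a line. -/
def Asy (f : ℝ → ℂ) (e κ : ℝ) : Prop := ∃ c C T : ℝ, 0 < c ∧ 0 < C ∧ ∀ t : ℝ, T ≤ |t| →
  c * st e κ t ≤ ‖f t‖ ∧ ‖f t‖ ≤ C * st e κ t

lemma Asy.mul {f g : ℝ → ℂ} {e κ e' κ' : ℝ} (hf : Asy f e κ) (hg : Asy g e' κ') :
    Asy (fun t => f t * g t) (e + e') (κ + κ') := by
  obtain ⟨c, C, T, hc, hC, h⟩ := hf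
  obtain ⟨c', C', T', hc', hC', h'⟩ := hg
  refine ⟨c * c', C * C', max T T', by positivity, by positivity, fun t ht => ?_⟩
  obtain ⟨h1, h2⟩ := h t ((le_max_left _ _).trans ht)
  obtain ⟨h3, h4⟩ := h' t ((le_max_right _ _).trans ht)
  have p1 := st_pos e κ t
  have p2 := st_pos e' κ' t
  rw [norm_mul, ← st_mul]
  constructor
  · calc _ = (c * st e κ t) * (c' * st e' κ' t) := by ring
      _ ≤ _ := mul_le_mul h1 h3 (by positivity) (norm_nonneg _)
  · calc _ ≤ (C * st e κ t) * (C' * st e' κ' t) := mul_le_mul h2 h4 (norm_nonneg _) (by positivity)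
      _ = _ := by ring

lemma Asy.inv {f : ℝ → ℂ} {e κ : ℝ} (hf : Asy f e κ) : Asy (fun t => (f t)⁻¹) (-e) (-κ) := by
  obtain ⟨c, C, T, hc, hC, h⟩ := hf
  refine ⟨C⁻¹, c⁻¹, T, by positivity, by positivity, fun t ht => ?_⟩
  obtain ⟨h1, h2⟩ := h t ht
  have p1 := st_pos e κ t
  rw [norm_inv, ← st_inv, ← mul_inv, ← mul_inv]
  have h0 : 0 < ‖f t‖ := lt_of_lt_of_le (by positivity) h1
  exact ⟨inv_anti₀ h0 h2, inv_anti₀ (by positivity) h1⟩

lemma Asy.prod {ι : Type*} (s : Finset ι) {f : ι → ℝ → ℂ} {e κ : ι → ℝ} (hf : ∀ i ∈ s, Asy (f i) (e i) (κ i)) :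
    Asy (fun t => ∏ i ∈ s, f i t) (∑ i ∈ s, e i) (∑ i ∈ s, κ i) := by
  classical
  induction s using Finset.induction_on with
  | empty => exact ⟨1, 1, 0, one_pos, one_pos, fun t _ => by simp [st]⟩
  | insert a s ha ih =>
    simp only [Finset.prod_insert ha, Finset.sum_insert ha]
    exact (hf a (Finset.mem_insert_self _ _)).mul (ih fun i hi => hf i (Finset.mem_insert_of_mem hi))

/-- Upper bounds in strips. -/
def UpB (f : ℂ → ℂ) (κ : ℝ) : Prop := ∀ a b : ℝ, a ≤ b → ∃ C M T : ℝ, 0 ≤ C ∧ 0 ≤ M ∧ ∀ s : ℂ, a ≤ s.re → s.re ≤ b →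
  T ≤ |s.im| → ‖f s‖ ≤ C * st M κ s.im

lemma UpB.mul {f g : ℂ → ℂ} {κ κ' : ℝ} (hf : UpB f κ) (hg : UpB g κ') : UpB (fun s => f s * g s) (κ + κ') := by
  intro a b hab
  obtain ⟨C, M, T, hC, hM, h⟩ := hf a b hab
  obtain ⟨C', M', T', hC', hM', h'⟩ := hg a b hab
  refine ⟨C * C', M + M', max T T', by positivity, by positivity, fun s h1 h2 h3 => ?_⟩
  have k1 := h s h1 h2 ((le_max_left _ _).trans h3)
  have k2 := h' s h1 h2 ((le_max_right _ _).trans h3)
  have p1 := st_pos M κ s.im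
  rw [norm_mul, ← st_mul]
  calc _ ≤ (C * st M κ s.im) * (C' * st M' κ' s.im) := mul_le_mul k1 k2 (norm_nonneg _) (by positivity)
    _ = _ := by ring

lemma UpB.prod {ι : Type*} (s : Finset ι) {f : ι → ℂ → ℂ} {κ : ι → ℝ} (hf : ∀ i ∈ s, UpB (f i) (κ i)) :
    UpB (fun z => ∏ i ∈ s, f i z) (∑ i ∈ s, κ i) := by
  classical
  induction s using Finset.induction_on with
  | empty =>
    intro a b _
    exact ⟨1, 0, 0, zero_le_one, le_rfl, fun z _ _ _ => by simp [st]⟩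
  | insert a s ha ih =>
    simp only [Finset.prod_insert ha, Finset.sum_insert ha]
    exact (hf a (Finset.mem_insert_self _ _)).mul (ih fun i hi => hf i (Finset.mem_insert_of_mem hi))

lemma aff_point (l : ℝ) (μ : ℂ) (σ t : ℝ) : (l : ℂ) * ((σ : ℂ) + t * I) + μ =
    ((l * σ + μ.re : ℝ) : ℂ) + ((l * t + μ.im : ℝ) : ℂ) * I := by
  conv_lhs => rw [← Complex.re_add_im μ]
  push_cast
  ring

lemma Gamma_Asy {l : ℝ} (hl : 0 < l) (μ : ℂ) (σ : ℝ) :
    Asy (fun t : ℝ => Complex.Gamma ((l : ℂ) * ((σ : ℂ) + t * I) + μ)) (l * σ + μ.re - 1 / 2) l := by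
  obtain ⟨c, C, hc, hC, h⟩ := LL_all (l * σ + μ.re)
  obtain ⟨c', C', T, hc', hC', h'⟩ := mt_aff hl μ.im (l * σ + μ.re - 1 / 2)
  refine ⟨c * c', C * C', T, by positivity, by positivity, fun t ht => ?_⟩
  obtain ⟨h1, h2, h3⟩ := h' t ht
  obtain ⟨h4, h5⟩ := h _ h1
  simp only [aff_point]
  constructor
  · calc _ = c * (c' * st (l * σ + μ.re - 1 / 2) l t) := by ring
      _ ≤ c * mt (l * σ + μ.re - 1 / 2) (l * t + μ.im) := by gcongr
      _ ≤ _ := h4
  · calc _ ≤ _ := h5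
      _ ≤ C * (C' * st (l * σ + μ.re - 1 / 2) l t) := by gcongr
      _ = _ := by ring

lemma lin_Asy {l : ℝ} (hl : l ≠ 0) (μ : ℂ) (σ : ℝ) :
    Asy (fun t : ℝ => (l : ℂ) * ((σ : ℂ) + t * I) + μ) 1 0 := by
  have hl' : 0 < |l| := abs_pos.2 hl
  obtain ⟨T, hT0, hT⟩ := aff_compare hl' (if 0 < l then μ.im else -μ.im)
  refine ⟨|l| / 4, |l * σ + μ.re| + (|l| + |μ.im|), T, by positivity, by positivity, fun t ht => ?_⟩
  have h0 := abs_nonneg t
  have e0 : st 1 0 t = 1 + |t| := by unfold st; simp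
  have h1 : |l| / 4 * (1 + |t|) ≤ |l * t + μ.im| := by
    have := (hT t ht).2.1
    rcases lt_or_ge 0 l with h | h
    · rw [if_pos h, abs_of_pos h] at this
      rw [abs_of_pos h]
      exact this
    · rw [if_neg (not_lt.2 h), abs_of_nonpos h] at this
      rw [abs_of_nonpos h]
      have e : -l * t + -μ.im = -(l * t + μ.im) := by ring
      rw [e, abs_neg] at this
      exact this
  have h2 : |l * t + μ.im| ≤ (|l| + |μ.im|) * (1 + |t|) := by
    refine (abs_add_le _ _).trans ?_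
    rw [abs_mul]
    nlinarith [abs_nonneg μ.im, hl']
  beta_reduce
  rw [aff_point, e0]
  constructor
  · exact h1.trans le_norm_xy
  · refine (norm_add_le _ _).trans ?_
    rw [norm_mul, Complex.norm_real, Complex.norm_real, Complex.norm_I, mul_one, Real.norm_eq_abs, Real.norm_eq_abs]
    nlinarith [abs_nonneg (l * σ + μ.re)]

lemma const_Asy {c : ℂ} (hc : c ≠ 0) : Asy (fun _ : ℝ => c) 0 0 :=
  ⟨‖c‖, ‖c‖, 0, norm_pos_iff.2 hc, norm_pos_iff.2 hc, fun t _ => by simp [st]⟩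

lemma point_strip (l : ℝ) (μ : ℂ) (s : ℂ) : (l : ℂ) * s + μ =
    ((l * s.re + μ.re : ℝ) : ℂ) + ((l * s.im + μ.im : ℝ) : ℂ) * I := by
  conv_lhs => rw [← Complex.re_add_im μ, ← Complex.re_add_im s]
  push_cast
  ring

lemma Gamma_UpB {l : ℝ} (hl : 0 < l) (μ : ℂ) : UpB (fun s => Complex.Gamma ((l : ℂ) * s + μ)) l := by
  intro a b hab
  obtain ⟨C, M, hC, hM, h⟩ := UU_all (a := l * a + μ.re) (b := l * b + μ.re) (by nlinarith)
  obtain ⟨c', C', T, hc', hC', h'⟩ := mt_aff hl μ.im M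
  refine ⟨C * C', M, T, by positivity, hM, fun s h1 h2 h3 => ?_⟩
  obtain ⟨k1, k2, k3⟩ := h' _ h3
  have k4 := (h (l * s.re + μ.re) (l * s.im + μ.im) (by nlinarith) (by nlinarith) k1).1
  simp only [point_strip l μ s]
  calc _ ≤ _ := k4
    _ ≤ C * (C' * st M l s.im) := by gcongr
    _ = _ := by ring

lemma invGamma_UpB {l : ℝ} (hl : 0 < l) (μ : ℂ) : UpB (fun s => (Complex.Gamma ((l : ℂ) * s + μ))⁻¹) (-l) := by
  intro a b hab
  obtain ⟨C, M, hC, hM, h⟩ := UU_all (a := l * a + μ.re) (b := l * b + μ.re) (by nlinarith)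
  obtain ⟨c', C', T, hc', hC', h'⟩ := mt_aff hl μ.im (-M)
  refine ⟨C * c'⁻¹, M, T, by positivity, hM, fun s h1 h2 h3 => ?_⟩
  obtain ⟨k1, k2, k3⟩ := h' _ h3
  have k4 := (h (l * s.re + μ.re) (l * s.im + μ.im) (by nlinarith) (by nlinarith) k1).2
  simp only [point_strip l μ s]
  have p1 := st_pos (-M) l s.im
  have k5 : c' * st (-M) l s.im ≤ C * ‖Complex.Gamma (((l * s.re + μ.re : ℝ) : ℂ) + ((l * s.im + μ.im : ℝ) : ℂ) * I)‖ :=
    k2.trans k4
  have k6 : 0 < ‖Complex.Gamma (((l * s.re + μ.re : ℝ) : ℂ) + ((l * s.im + μ.im : ℝ) : ℂ) * I)‖ := by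
    have : 0 < C * ‖Complex.Gamma (((l * s.re + μ.re : ℝ) : ℂ) + ((l * s.im + μ.im : ℝ) : ℂ) * I)‖ :=
      lt_of_lt_of_le (by positivity) k5
    exact pos_of_mul_pos_right this hC.le
  rw [norm_inv]
  have e : st M (-l) s.im = (st (-M) l s.im)⁻¹ := by rw [st_inv, neg_neg]
  rw [e, inv_le_iff_one_le_mul₀ k6]
  have : 1 = (c'⁻¹ * (st (-M) l s.im)⁻¹) * (c' * st (-M) l s.im) := by field_simp
  calc (1:ℝ) = (c'⁻¹ * (st (-M) l s.im)⁻¹) * (c' * st (-M) l s.im) := this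
    _ ≤ (c'⁻¹ * (st (-M) l s.im)⁻¹) * (C * ‖Complex.Gamma (((l * s.re + μ.re : ℝ) : ℂ) +
        ((l * s.im + μ.im : ℝ) : ℂ) * I)‖) := by gcongr
    _ = _ := by ring

lemma lin_UpB (l : ℝ) (μ : ℂ) : UpB (fun s => (l : ℂ) * s + μ) 0 := by
  intro a b hab
  refine ⟨|l| * (|a| + |b|) + |l| + ‖μ‖, 1, 0, by positivity, zero_le_one, fun s h1 h2 _ => ?_⟩
  have e0 : st 1 0 s.im = 1 + |s.im| := by unfold st; simp
  rw [e0]
  refine (norm_add_le _ _).trans ?_
  rw [norm_mul, Complex.norm_real, Real.norm_eq_abs]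
  have h3 : ‖s‖ ≤ (|a| + |b|) + |s.im| := by
    refine (Complex.norm_le_abs_re_add_abs_im s).trans ?_
    have : |s.re| ≤ |a| + |b| := by
      rw [abs_le]
      constructor
      · have := neg_abs_le a; have := abs_nonneg b; linarith
      · have := le_abs_self b; have := abs_nonneg a; linarith
    linarith
  have h4 := abs_nonneg s.im
  have h5 := mul_le_mul_of_nonneg_left h3 (abs_nonneg l)
  nlinarith [norm_nonneg μ, abs_nonneg l, abs_nonneg a, abs_nonneg b, mul_nonneg (abs_nonneg l) (abs_nonneg a),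
    mul_nonneg (abs_nonneg l) (abs_nonneg b), mul_nonneg (mul_nonneg (abs_nonneg l) (abs_nonneg a)) h4,
    mul_nonneg (mul_nonneg (abs_nonneg l) (abs_nonneg b)) h4, mul_nonneg (norm_nonneg μ) h4]

lemma Q_UpB {Q : ℝ} (hQ : 0 < Q) : UpB (fun s => (Q : ℂ) ^ s) 0 := by
  intro a b hab
  refine ⟨Real.exp (|Real.log Q| * (|a| + |b|)), 0, 0, by positivity, le_rfl, fun s h1 h2 _ => ?_⟩
  have e0 : st 0 0 s.im = 1 := by unfold st; simp
  rw [e0, mul_one, Complex.norm_cpow_eq_rpow_re_of_pos hQ, Real.rpow_def_of_pos hQ]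
  apply Real.exp_le_exp.2
  have : |s.re| ≤ |a| + |b| := by
    rw [abs_le]
    constructor
    · have := neg_abs_le a; have := abs_nonneg b; linarith
    · have := le_abs_self b; have := abs_nonneg a; linarith
  calc Real.log Q * s.re ≤ |Real.log Q * s.re| := le_abs_self _
    _ = |Real.log Q| * |s.re| := abs_mul _ _
    _ ≤ _ := by gcongr

lemma Q_Asy {Q : ℝ} (hQ : 0 < Q) (σ : ℝ) : Asy (fun t : ℝ => (Q : ℂ) ^ ((σ : ℂ) + t * I)) 0 0 := by
  refine ⟨Q ^ σ, Q ^ σ, 0, by positivity, by positivity, fun t _ => ?_⟩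
  rw [Complex.norm_cpow_eq_rpow_re_of_pos hQ]
  simp [st]

/-- exponential decay from a positive `κ` -/
lemma st_decay {M κ : ℝ} (hM : 0 ≤ M) (hκ : 0 < κ) : ∃ C δ : ℝ, 0 < δ ∧ 0 ≤ C ∧ ∀ t, st M κ t ≤ C * Real.exp (-δ * |t|) := by
  have hpi := Real.pi_pos
  obtain ⟨C, hC, h⟩ := polyexp (A := M) (δ := Real.pi / 2 * κ / 2) hM (by positivity)
  refine ⟨C, Real.pi / 2 * κ / 2, by positivity, hC, fun t => ?_⟩
  have := h t
  unfold st
  have e : -(2 * (Real.pi / 2 * κ / 2)) * |t| = -(Real.pi / 2 * κ) * |t| := by ring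
  rw [e] at this
  exact this

end Pool.Agent.H483.FE
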