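import Pool.Graph.R_seed8.H336R4.PF.R2
import Pool.Graph.R_seed8.H336R4.PF.TaskP

set_option autoImplicit false

/-!
# Bounds for the Gamma function
-/

namespace Pool.Agent.H483.FE

open Filter Topology Complex
open Pool.Agent.H336R4.PF

/-- the factor `v / |v + i y|` -/
noncomputable def rr (y v : ℝ) : ℝ := v / ‖(v : ℂ) + y * I‖

lemma rr_pos {y v : ℝ} (hv : 0 < v) : 0 < rr y v := by
  unfold rr
  apply div_pos hv
  rw [norm_pos_iff]
  intro h
  have := congrArg Complex.re h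
  simp at this
  linarith

lemma rr_eq {y v : ℝ} (hv : 0 < v) : rr y v = (1 + y ^ 2 / v ^ 2) ^ (-(1 / 2) : ℝ) := by
  unfold rr
  rw [norm_add_I, Real.sqrt_eq_rpow]
  have h1 : v ^ 2 + y ^ 2 = v ^ 2 * (1 + y ^ 2 / v ^ 2) := by field_simp
  have h2 : (0:ℝ) ≤ 1 + y ^ 2 / v ^ 2 := by positivity
  rw [h1, Real.mul_rpow (by positivity) h2, ← Real.sqrt_eq_rpow, Real.sqrt_sq hv.le, Real.rpow_neg h2]
  field_simp

lemma holder2 {A B b : ℝ} (hA : 0 ≤ A) (hB : 0 ≤ B) (hb0 : 0 ≤ b) (hb1 : b ≤ 1) :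
    1 + A ^ (1 - b) * B ^ b ≤ (1 + A) ^ (1 - b) * (1 + B) ^ b := by
  have h1A : 0 < 1 + A := by linarith
  have h1B : 0 < 1 + B := by linarith
  have e1 := Real.geom_mean_le_arith_mean2_weighted (w₁ := 1 - b) (w₂ := b) (p₁ := 1 / (1 + A)) (p₂ := 1 / (1 + B))
    (by linarith) hb0 (by positivity) (by positivity) (by ring)
  have e2 := Real.geom_mean_le_arith_mean2_weighted (w₁ := 1 - b) (w₂ := b) (p₁ := A / (1 + A)) (p₂ := B / (1 + B))
    (by linarith) hb0 (by positivity) (by positivity) (by ring)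
  rw [Real.div_rpow (by norm_num) h1A.le, Real.div_rpow (by norm_num) h1B.le, Real.one_rpow, Real.one_rpow] at e1
  rw [Real.div_rpow hA h1A.le, Real.div_rpow hB h1B.le] at e2
  have p1 : 0 < (1 + A) ^ (1 - b) := Real.rpow_pos_of_pos h1A _
  have p2 : 0 < (1 + B) ^ b := Real.rpow_pos_of_pos h1B _
  have e3 : (1 - b) * (1 / (1 + A)) + b * (1 / (1 + B)) + ((1 - b) * (A / (1 + A)) + b * (B / (1 + B))) = 1 := by
    field_simp
    ring
  have e4 : 1 / (1 + A) ^ (1 - b) * (1 / (1 + B) ^ b) + A ^ (1 - b) / (1 + A) ^ (1 - b) * (B ^ b / (1 + B) ^ b) ≤ 1 := by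
    linarith
  have e5 : 1 / (1 + A) ^ (1 - b) * (1 / (1 + B) ^ b) + A ^ (1 - b) / (1 + A) ^ (1 - b) * (B ^ b / (1 + B) ^ b) =
      (1 + A ^ (1 - b) * B ^ b) / ((1 + A) ^ (1 - b) * (1 + B) ^ b) := by
    field_simp
  rw [e5, div_le_one (by positivity)] at e4
  exact e4

lemma rr_concave {y u b : ℝ} (hu : 0 < u) (hb0 : 0 ≤ b) (hb1 : b ≤ 1) :
    rr y u ^ (1 - b) * rr y (u + 1) ^ b ≤ rr y (u + b) := by
  have hub : 0 < u + b := by linarith
  rw [rr_eq hu, rr_eq (by linarith : 0 < u + 1), rr_eq hub]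
  have hA : 0 ≤ y ^ 2 / u ^ 2 := by positivity
  have hB : 0 ≤ y ^ 2 / (u + 1) ^ 2 := by positivity
  rw [← Real.rpow_mul (by positivity), ← Real.rpow_mul (by positivity), mul_comm _ (1 - b), mul_comm _ b,
    Real.rpow_mul (by positivity), Real.rpow_mul (by positivity), ← Real.mul_rpow (by positivity) (by positivity)]
  apply Real.rpow_le_rpow_of_nonpos (by positivity) _ (by norm_num)
  refine le_trans ?_ (holder2 hA hB hb0 hb1)
  have h1 := Real.geom_mean_le_arith_mean2_weighted (w₁ := 1 - b) (w₂ := b) (p₁ := u) (p₂ := u + 1)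
    (by linarith) hb0 hu.le (by linarith) (by ring)
  have h2 : (1 - b) * u + b * (u + 1) = u + b := by ring
  rw [h2] at h1
  have h3 : (y ^ 2 / u ^ 2) ^ (1 - b) * (y ^ 2 / (u + 1) ^ 2) ^ b = y ^ 2 / (u ^ (1 - b) * (u + 1) ^ b) ^ 2 := by
    rw [Real.div_rpow (by positivity) (by positivity), Real.div_rpow (by positivity) (by positivity)]
    have hy : (y ^ 2) ^ (1 - b) * (y ^ 2) ^ b = y ^ 2 := by
      rcases eq_or_ne y 0 with rfl | hy
      · rcases eq_or_ne b 0 with rfl | hb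
        · simp
        · simp [Real.zero_rpow hb]
      · rw [← Real.rpow_add (by positivity)]
        simp
    have hu2 : (u ^ 2) ^ (1 - b) = (u ^ (1 - b)) ^ 2 := by
      rw [← Real.rpow_natCast, ← Real.rpow_natCast, ← Real.rpow_mul hu.le, ← Real.rpow_mul hu.le, mul_comm]
    have hu3 : ((u + 1) ^ 2) ^ b = ((u + 1) ^ b) ^ 2 := by
      rw [← Real.rpow_natCast, ← Real.rpow_natCast, ← Real.rpow_mul (by linarith), ← Real.rpow_mul (by linarith),
        mul_comm]
    rw [div_mul_div_comm, hy, hu2, hu3, mul_pow]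
  rw [h3]
  have p1 : 0 < u ^ (1 - b) * (u + 1) ^ b := by positivity
  have h4 : y ^ 2 / (u + b) ^ 2 ≤ y ^ 2 / (u ^ (1 - b) * (u + 1) ^ b) ^ 2 := by
    apply div_le_div_of_nonneg_left (by positivity) (by positivity)
    exact pow_le_pow_left₀ p1.le h1 2
  linarith

/-- the product -/
noncomputable def pp (y w : ℝ) (n : ℕ) : ℝ := ∏ j ∈ Finset.range (n + 1), rr y (w + j)

lemma pp_tendsto {w : ℝ} (hw : 0 < w) (y : ℝ) :
    Tendsto (pp y w) atTop (𝓝 (‖Complex.Gamma (w + y * I)‖ / Real.Gamma w)) := by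
  have t1 := (Complex.GammaSeq_tendsto_Gamma ((w : ℂ) + y * I)).norm
  have r1 := Real.GammaSeq_tendsto_Gamma w
  have h := t1.div r1 (Real.Gamma_pos_of_pos hw).ne'
  refine h.congr' ?_
  filter_upwards [eventually_ge_atTop 1] with n hn
  have hn0 : (0:ℝ) < n := by exact_mod_cast hn
  simp only [Pi.div_apply]
  unfold Complex.GammaSeq Real.GammaSeq pp rr
  rw [norm_div, norm_mul, norm_prod, Complex.norm_natCast]
  have e0 : ‖((n:ℕ) : ℂ) ^ ((w : ℂ) + y * I)‖ = (n:ℝ) ^ w := by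
    rw [← Complex.ofReal_natCast, Complex.norm_cpow_eq_rpow_re_of_pos hn0]
    simp
  rw [e0, Finset.prod_div_distrib]
  have hne1 : ∏ j ∈ Finset.range (n+1), (w + j) ≠ 0 := by
    apply Finset.prod_ne_zero_iff.2
    intro j _
    have hj : (0:ℝ) ≤ j := Nat.cast_nonneg j
    linarith
  have hprod : ∏ j ∈ Finset.range (n+1), ‖((w + j : ℝ) : ℂ) + y * I‖ =
      ∏ j ∈ Finset.range (n+1), ‖(w : ℂ) + y * I + j‖ := by
    refine Finset.prod_congr rfl fun j _ => ?_
    congr 1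
    push_cast
    ring
  have hne2 : ∏ j ∈ Finset.range (n+1), ‖(w : ℂ) + y * I + j‖ ≠ 0 := by
    apply Finset.prod_ne_zero_iff.2
    intro j _ h
    rw [norm_eq_zero] at h
    have := congrArg Complex.re h
    simp at this
    have hj : (0:ℝ) ≤ j := Nat.cast_nonneg j
    linarith
  rw [hprod]
  have hf : (n.factorial : ℝ) ≠ 0 := by exact_mod_cast n.factorial_ne_zero
  have hnw : (n:ℝ) ^ w ≠ 0 := (Real.rpow_pos_of_pos hn0 _).ne'
  field_simp

lemma pp_concave {y w b : ℝ} (hw : 0 < w) (hb0 : 0 ≤ b) (hb1 : b ≤ 1) (n : ℕ) :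
    pp y w n ^ (1 - b) * pp y (w + 1) n ^ b ≤ pp y (w + b) n := by
  unfold pp
  have hpos : ∀ j : ℕ, 0 < w + j := fun j => by
    have hj : (0:ℝ) ≤ j := Nat.cast_nonneg j
    linarith
  rw [← Real.finsetProd_rpow (Finset.range (n + 1)) (fun j : ℕ => rr y (w + j)) (fun j _ => (rr_pos (hpos j)).le),
    ← Real.finsetProd_rpow (Finset.range (n + 1)) (fun j : ℕ => rr y (w + 1 + j))
      (fun j _ => (rr_pos (by linarith [hpos j] : 0 < w + 1 + (j:ℝ))).le),
    ← Finset.prod_mul_distrib]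
  apply Finset.prod_le_prod
  · intro j _
    have h1 := rr_pos (y := y) (hpos j)
    have h2 := rr_pos (y := y) (by linarith [hpos j] : 0 < w + 1 + j)
    positivity
  · intro j _
    have := rr_concave (y := y) (hpos j) hb0 hb1
    rw [show w + 1 + (j:ℝ) = w + j + 1 by ring, show w + b + (j:ℝ) = w + j + b by ring]
    exact this

/-- lower bound for the growth of Gamma in horizontal direction -/
theorem gamma_lower {x b : ℝ} (hx : 0 < x) (hb0 : 0 ≤ b) (hb1 : b ≤ 1) :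
    ∃ c : ℝ, 0 < c ∧ ∀ y : ℝ, c * (‖(x : ℂ) + y * I‖ ^ b * ‖Complex.Gamma (x + y * I)‖) ≤
      ‖Complex.Gamma ((x + b : ℝ) + y * I)‖ := by
  have hG := Real.Gamma_pos_of_pos hx
  have hGb := Real.Gamma_pos_of_pos (by linarith : 0 < x + b)
  refine ⟨Real.Gamma (x + b) / (Real.Gamma x * x ^ b), by positivity, fun y => ?_⟩
  have t1 := pp_tendsto hx y
  have t2 := pp_tendsto (by linarith : 0 < x + 1) y
  have t3 := pp_tendsto (by linarith : 0 < x + b) y
  have hne : ((x : ℂ) + y * I) ≠ 0 := by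
    intro h
    have := congrArg Complex.re h
    simp at this
    linarith
  have hGne : Complex.Gamma ((x : ℂ) + y * I) ≠ 0 := Complex.Gamma_ne_zero_of_re_pos (by simpa using hx)
  have p1 : 0 < ‖Complex.Gamma ((x : ℂ) + y * I)‖ / Real.Gamma x := by positivity
  have hG1 : Complex.Gamma (((x + 1 : ℝ) : ℂ) + y * I) = ((x : ℂ) + y * I) * Complex.Gamma (x + y * I) := by
    rw [← Complex.Gamma_add_one _ hne]
    congr 1
    push_cast
    ring
  have hR1 : Real.Gamma (x + 1) = x * Real.Gamma x := Real.Gamma_add_one hx.ne'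
  rw [hG1, hR1, norm_mul] at t2
  have p2 : 0 < ‖(x : ℂ) + y * I‖ * ‖Complex.Gamma ((x : ℂ) + y * I)‖ / (x * Real.Gamma x) := by positivity
  have t4 := (t1.rpow_const (p := 1 - b) (Or.inl p1.ne')).mul (t2.rpow_const (p := b) (Or.inl p2.ne'))
  have key := le_of_tendsto_of_tendsto t4 t3 (Eventually.of_forall fun n => pp_concave hx hb0 hb1 n)
  have e1 : ‖(x : ℂ) + y * I‖ * ‖Complex.Gamma ((x : ℂ) + y * I)‖ / (x * Real.Gamma x) =
      (‖(x : ℂ) + y * I‖ / x) * (‖Complex.Gamma ((x : ℂ) + y * I)‖ / Real.Gamma x) := by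
    field_simp
  rw [e1, Real.mul_rpow (by positivity) p1.le, mul_left_comm, ← Real.rpow_add p1] at key
  have e2 : (1 - b + b : ℝ) = 1 := by ring
  rw [e2, Real.rpow_one, Real.div_rpow (norm_nonneg _) hx.le, le_div_iff₀ hGb] at key
  refine le_trans (le_of_eq ?_) key
  field_simp

end Pool.Agent.H483.FE
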