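import Pool.Agent.H483.FE.GF

set_option autoImplicit false

/-!
# The kernels attached to gamma factors
-/

namespace Pool.Agent.H483.FE

open Set Filter Topology Complex Polynomial
open scoped ComplexConjugate

variable {r r' : ℕ}

/-- the quotient of products of Gamma functions -/
noncomputable def gfac (lam : Fin r → ℝ) (mu : Fin r → ℂ) (lam' : Fin r' → ℝ) (mu' : Fin r' → ℂ) (s : ℂ) : ℂ :=
  (∏ j, Complex.Gamma ((lam j : ℂ) * s + mu j)) * ∏ j, (Complex.Gamma ((lam' j : ℂ) * s + mu' j))⁻¹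

/-- no factor of the numerator has a pole at `s` -/
def NoP (lam : Fin r → ℝ) (mu : Fin r → ℂ) (s : ℂ) : Prop :=
  ∀ j, ∀ n : ℕ, (lam j : ℂ) * s + mu j ≠ -(n : ℂ)

/-- the polynomial that removes poles on the right -/
noncomputable def dd (lam : Fin r → ℝ) (mu : Fin r → ℂ) (N0 : ℕ) (s : ℂ) : ℂ :=
  ∏ j, ∏ n ∈ Finset.range N0, ((lam j : ℂ) * s + (mu j + n))

/-- its reflection -/
noncomputable def cc (lam : Fin r → ℝ) (mu : Fin r → ℂ) (N0 : ℕ) (s : ℂ) : ℂ :=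
  ∏ j, ∏ n ∈ Finset.range N0, (((-lam j : ℝ) : ℂ) * s + (lam j + conj (mu j) + n))

/-- the kernel -/
noncomputable def gam (Q : ℝ) (lam : Fin r → ℝ) (mu : Fin r → ℂ) (lam' : Fin r' → ℝ) (mu' : Fin r' → ℂ) (N0 : ℕ)
    (s : ℂ) : ℂ :=
  (Q : ℂ) ^ s * (∏ j, Complex.Gamma ((lam j : ℂ) * s + (mu j + N0))) *
    (∏ j, (Complex.Gamma ((lam' j : ℂ) * s + mu' j))⁻¹) * cc lam mu N0 s

lemma Gamma_shift {z : ℂ} (N0 : ℕ) (hz : ∀ n : ℕ, z ≠ -(n : ℂ)) :
    Complex.Gamma (z + N0) = Complex.Gamma z * ∏ n ∈ Finset.range N0, (z + n) := by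
  induction N0 with
  | zero => simp
  | succ n ih =>
    have h : z + n ≠ 0 := by
      intro h
      exact hz n (eq_neg_of_add_eq_zero_left h)
    rw [Finset.prod_range_succ, ← mul_assoc, ← ih, mul_comm, ← Complex.Gamma_add_one _ h]
    congr 1
    push_cast
    ring

lemma gam_eq (Q : ℝ) {lam : Fin r → ℝ} {mu : Fin r → ℂ} (lam' : Fin r' → ℝ) (mu' : Fin r' → ℂ) (N0 : ℕ)
    {s : ℂ} (hs : NoP lam mu s) :
    gam Q lam mu lam' mu' N0 s = (Q : ℂ) ^ s * gfac lam mu lam' mu' s * (dd lam mu N0 s * cc lam mu N0 s) := by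
  unfold gam gfac dd
  have : ∏ j, Complex.Gamma ((lam j : ℂ) * s + (mu j + N0)) = (∏ j, Complex.Gamma ((lam j : ℂ) * s + mu j)) *
      ∏ j, ∏ n ∈ Finset.range N0, ((lam j : ℂ) * s + (mu j + n)) := by
    rw [← Finset.prod_mul_distrib]
    refine Finset.prod_congr rfl fun j _ => ?_
    have h := Gamma_shift N0 (hs j)
    rw [add_assoc] at h
    rw [h]
    congr 1
    refine Finset.prod_congr rfl fun n _ => ?_
    ring
  rw [this]
  ring

lemma cc_conj (lam : Fin r → ℝ) (mu : Fin r → ℂ) (N0 : ℕ) (s : ℂ) :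
    conj (cc lam mu N0 (1 - conj s)) = dd lam mu N0 s := by
  unfold cc dd
  rw [map_prod]
  refine Finset.prod_congr rfl fun j _ => ?_
  rw [map_prod]
  refine Finset.prod_congr rfl fun n _ => ?_
  simp only [map_add, map_mul, map_sub, map_one, Complex.conj_conj, Complex.conj_ofReal, map_natCast]
  push_cast
  ring

lemma dd_conj (lam : Fin r → ℝ) (mu : Fin r → ℂ) (N0 : ℕ) (s : ℂ) :
    conj (dd lam mu N0 (1 - conj s)) = cc lam mu N0 s := by
  have := cc_conj lam mu N0 (1 - conj s)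
  rw [← this]
  simp

lemma gam_UpB {Q : ℝ} (hQ : 0 < Q) {lam : Fin r → ℝ} (mu : Fin r → ℂ) {lam' : Fin r' → ℝ} (mu' : Fin r' → ℂ) (N0 : ℕ)
    (hl : ∀ j, 0 < lam j) (hl' : ∀ j, 0 < lam' j) :
    UpB (gam Q lam mu lam' mu' N0) (∑ j, lam j - ∑ j, lam' j) := by
  have h := (((Q_UpB hQ).mul (UpB.prod Finset.univ (fun j _ => Gamma_UpB (hl j) (mu j + N0)))).mul
    (UpB.prod Finset.univ (fun j _ => invGamma_UpB (hl' j) (mu' j)))).mul
    (UpB.prod Finset.univ (κ := fun _ => ∑ n ∈ Finset.range N0, (0:ℝ)) (fun j _ => UpB.prod (Finset.range N0)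
      (fun n _ => lin_UpB (-lam j) (lam j + conj (mu j) + n))))
  have e : (0 + ∑ i, lam i) + ∑ i, -lam' i + ∑ _i : Fin r, ∑ _n ∈ Finset.range N0, (0:ℝ) = ∑ j, lam j - ∑ j, lam' j := by
    simp [Finset.sum_neg_distrib, sub_eq_add_neg]
  rw [e] at h
  exact h

/-- the exponent on the line of real part `σ` -/
noncomputable def expo (lam : Fin r → ℝ) (mu : Fin r → ℂ) (lam' : Fin r' → ℝ) (mu' : Fin r' → ℂ) (N0 : ℕ) (σ : ℝ) : ℝ :=
  (0 + ∑ j, (lam j * σ + (mu j + N0).re - 1 / 2)) + ∑ j, -(lam' j * σ + (mu' j).re - 1 / 2) +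
    ∑ _j : Fin r, ∑ _n ∈ Finset.range N0, (1:ℝ)

lemma expo_sub (lam : Fin r → ℝ) (mu : Fin r → ℂ) (lam' : Fin r' → ℝ) (mu' : Fin r' → ℂ) (N0 : ℕ) (σ τ : ℝ) :
    expo lam mu lam' mu' N0 σ - expo lam mu lam' mu' N0 τ = (∑ j, lam j - ∑ j, lam' j) * (σ - τ) := by
  unfold expo
  have e1 : ∀ ρ : ℝ, ∑ j, (lam j * ρ + (mu j + N0).re - 1 / 2) = (∑ j, lam j) * ρ + ∑ j, ((mu j + N0).re - 1 / 2) := by
    intro ρ
    rw [Finset.sum_mul, ← Finset.sum_add_distrib]
    refine Finset.sum_congr rfl fun j _ => ?_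
    ring
  have e2 : ∀ ρ : ℝ, ∑ j, -(lam' j * ρ + (mu' j).re - 1 / 2) = -(∑ j, lam' j) * ρ - ∑ j, ((mu' j).re - 1 / 2) := by
    intro ρ
    rw [neg_mul, Finset.sum_mul, ← Finset.sum_neg_distrib, ← Finset.sum_sub_distrib]
    refine Finset.sum_congr rfl fun j _ => ?_
    ring
  rw [e1, e1, e2, e2]
  ring

lemma gam_Asy {Q : ℝ} (hQ : 0 < Q) {lam : Fin r → ℝ} (mu : Fin r → ℂ) {lam' : Fin r' → ℝ} (mu' : Fin r' → ℂ) (N0 : ℕ)
    (hl : ∀ j, 0 < lam j) (hl' : ∀ j, 0 < lam' j) (σ : ℝ) :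
    Asy (fun t : ℝ => gam Q lam mu lam' mu' N0 ((σ : ℂ) + t * I)) (expo lam mu lam' mu' N0 σ)
      (∑ j, lam j - ∑ j, lam' j) := by
  have h := (((Q_Asy hQ σ).mul (Asy.prod Finset.univ (fun j _ => Gamma_Asy (hl j) (mu j + N0) σ))).mul
    (Asy.prod Finset.univ (fun j _ => (Gamma_Asy (hl' j) (mu' j) σ).inv))).mul
    (Asy.prod Finset.univ (e := fun _ => ∑ n ∈ Finset.range N0, (1:ℝ)) (κ := fun _ => ∑ n ∈ Finset.range N0, (0:ℝ))
      (fun j _ => Asy.prod (Finset.range N0)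
      (fun n _ => lin_Asy (l := -lam j) (by have := hl j; linarith) (lam j + conj (mu j) + n) σ)))
  have e : (0 + ∑ i, lam i) + ∑ i, -lam' i + ∑ _i : Fin r, ∑ _n ∈ Finset.range N0, (0:ℝ) = ∑ j, lam j - ∑ j, lam' j := by
    simp [Finset.sum_neg_distrib, sub_eq_add_neg]
  rw [e] at h
  exact h

lemma inv_Gamma_diff (l : ℝ) (μ : ℂ) : Differentiable ℂ (fun s : ℂ => (Complex.Gamma ((l : ℂ) * s + μ))⁻¹) :=
  Complex.differentiable_one_div_Gamma.comp (by fun_prop : Differentiable ℂ (fun s : ℂ => (l : ℂ) * s + μ))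

lemma Gamma_aff_diff {l : ℝ} {μ s : ℂ} (h : 0 < ((l : ℂ) * s + μ).re) :
    DifferentiableAt ℂ (fun s : ℂ => Complex.Gamma ((l : ℂ) * s + μ)) s := by
  have h1 : DifferentiableAt ℂ Complex.Gamma ((l : ℂ) * s + μ) := by
    apply Complex.differentiableAt_Gamma
    intro m hm
    rw [hm] at h
    simp at h
    have : (0:ℝ) ≤ m := Nat.cast_nonneg m
    linarith
  exact DifferentiableAt.comp s h1 (by fun_prop : DifferentiableAt ℂ (fun s : ℂ => (l : ℂ) * s + μ) s)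

lemma re_aff (l : ℝ) (μ s : ℂ) : ((l : ℂ) * s + μ).re = l * s.re + μ.re := by simp

lemma cc_diff (lam : Fin r → ℝ) (mu : Fin r → ℂ) (N0 : ℕ) : Differentiable ℂ (cc lam mu N0) := by
  unfold cc
  fun_prop

lemma gam_diff {Q : ℝ} (hQ : 0 < Q) {lam : Fin r → ℝ} {mu : Fin r → ℂ} {lam' : Fin r' → ℝ} {mu' : Fin r' → ℂ} {N0 : ℕ}
    (hl : ∀ j, 0 < lam j) (hN : ∀ j, -(mu j).re < N0) {s : ℂ} (hs : 0 ≤ s.re) :
    DifferentiableAt ℂ (gam Q lam mu lam' mu' N0) s := by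
  have hQ' : (Q : ℂ) ≠ 0 := by exact_mod_cast hQ.ne'
  unfold gam
  apply DifferentiableAt.mul _ (cc_diff lam mu N0 s)
  apply DifferentiableAt.mul
  · apply DifferentiableAt.mul
    · exact DifferentiableAt.const_cpow differentiableAt_id (Or.inl hQ')
    · apply DifferentiableAt.fun_finsetProd
      intro j _
      apply Gamma_aff_diff
      rw [re_aff]
      have h1 := hN j
      have h2 := hl j
      simp only [add_re, natCast_re]
      nlinarith [mul_nonneg h2.le hs]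
  · apply DifferentiableAt.fun_finsetProd
    intro j _
    exact inv_Gamma_diff _ _ s

/-- exceptional parameters -/
def bad (lam : Fin r → ℝ) (mu : Fin r → ℂ) (lam' : Fin r' → ℝ) (mu' : Fin r' → ℂ) : Set ℝ :=
  {α | (∃ (j : Fin r') (n : ℕ), lam' j * (1 / 2 + α) + (mu' j).re = -n) ∨
    (∃ (j : Fin r) (n : ℕ), lam j * (1 / 2 - α) + (mu j).re = -n)}

lemma bad_countable {lam : Fin r → ℝ} (mu : Fin r → ℂ) {lam' : Fin r' → ℝ} (mu' : Fin r' → ℂ)
    (hl : ∀ j, 0 < lam j) (hl' : ∀ j, 0 < lam' j) : (bad lam mu lam' mu').Countable := by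
  have h1 : (bad lam mu lam' mu') ⊆
      (⋃ p : Fin r' × ℕ, {(-(p.2 : ℝ) - (mu' p.1).re) / lam' p.1 - 1 / 2}) ∪
      (⋃ p : Fin r × ℕ, {1 / 2 - (-(p.2 : ℝ) - (mu p.1).re) / lam p.1}) := by
    rintro α (⟨j, n, h⟩ | ⟨j, n, h⟩)
    · left
      refine mem_iUnion.2 ⟨(j, n), ?_⟩
      have := hl' j
      rw [mem_singleton_iff]
      field_simp
      linarith
    · right
      refine mem_iUnion.2 ⟨(j, n), ?_⟩
      have := hl j
      rw [mem_singleton_iff]
      field_simp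
      linarith
  exact ((countable_iUnion fun p => countable_singleton _).union
    (countable_iUnion fun p => countable_singleton _)).mono h1

lemma gam_ne_line {Q : ℝ} (hQ : 0 < Q) {lam : Fin r → ℝ} {mu : Fin r → ℂ} {lam' : Fin r' → ℝ} {mu' : Fin r' → ℂ} {N0 : ℕ}
    (hl : ∀ j, 0 < lam j) (hN : ∀ j, -(mu j).re < N0) {α : ℝ} (hα : 0 < α)
    (hb : α ∉ bad lam mu lam' mu') {s : ℂ} (hs : s.re = 1 / 2 + α) : gam Q lam mu lam' mu' N0 s ≠ 0 := by
  have hQ' : (Q : ℂ) ≠ 0 := by exact_mod_cast hQ.ne'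
  unfold gam
  refine mul_ne_zero (mul_ne_zero (mul_ne_zero ?_ ?_) ?_) ?_
  · rw [Complex.cpow_ne_zero_iff]; exact Or.inl hQ'
  · refine Finset.prod_ne_zero_iff.2 fun j _ => Complex.Gamma_ne_zero_of_re_pos ?_
    rw [re_aff]
    have h1 := hN j
    have h2 := hl j
    simp only [add_re, natCast_re]
    nlinarith [mul_pos h2 (by linarith : 0 < s.re)]
  · refine Finset.prod_ne_zero_iff.2 fun j _ => inv_ne_zero ?_
    apply Complex.Gamma_ne_zero
    intro m hm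
    apply hb
    left
    refine ⟨j, m, ?_⟩
    have := congrArg Complex.re hm
    rw [re_aff, hs] at this
    simpa using this
  · refine Finset.prod_ne_zero_iff.2 fun j _ => Finset.prod_ne_zero_iff.2 fun n _ => ?_
    intro h
    apply hb
    right
    refine ⟨j, n, ?_⟩
    have := congrArg Complex.re h
    rw [re_aff, hs] at this
    simp at this
    linarith

lemma gam_ne_far {Q : ℝ} (hQ : 0 < Q) {lam : Fin r → ℝ} {mu : Fin r → ℂ} {lam' : Fin r' → ℝ} {mu' : Fin r' → ℂ} {N0 : ℕ}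
    (hl : ∀ j, 0 < lam j) (hl' : ∀ j, 0 < lam' j) (hN : ∀ j, -(mu j).re < N0) :
    ∃ R : ℝ, 0 ≤ R ∧ ∀ s : ℂ, R < s.re → gam Q lam mu lam' mu' N0 s ≠ 0 := by
  have hQ' : (Q : ℂ) ≠ 0 := by exact_mod_cast hQ.ne'
  have n1 : ∀ j, 0 ≤ (|(mu j).re| + N0) / lam j := fun j => by have := hl j; positivity
  have n2 : ∀ j, 0 ≤ |(mu' j).re| / lam' j := fun j => by have := hl' j; positivity
  refine ⟨1 + ∑ j, (|(mu j).re| + N0) / lam j + ∑ j, |(mu' j).re| / lam' j, ?_, fun s hs => ?_⟩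
  · have h1 := Finset.sum_nonneg (s := Finset.univ) (fun j _ => n1 j)
    have h2 := Finset.sum_nonneg (s := Finset.univ) (fun j _ => n2 j)
    linarith
  have h1 := Finset.sum_nonneg (s := Finset.univ) (fun j _ => n1 j)
  have h2 := Finset.sum_nonneg (s := Finset.univ) (fun j _ => n2 j)
  unfold gam
  refine mul_ne_zero (mul_ne_zero (mul_ne_zero ?_ ?_) ?_) ?_
  · rw [Complex.cpow_ne_zero_iff]; exact Or.inl hQ'
  · refine Finset.prod_ne_zero_iff.2 fun j _ => Complex.Gamma_ne_zero_of_re_pos ?_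
    rw [re_aff]
    have h3 := hN j
    have h4 := hl j
    simp only [add_re, natCast_re]
    nlinarith [mul_pos h4 (by linarith : 0 < s.re)]
  · refine Finset.prod_ne_zero_iff.2 fun j _ => inv_ne_zero (Complex.Gamma_ne_zero_of_re_pos ?_)
    rw [re_aff]
    have h3 := Finset.single_le_sum (s := Finset.univ) (fun j _ => n2 j) (Finset.mem_univ j)
    have h4 := hl' j
    have h5 : |(mu' j).re| / lam' j < s.re := by linarith
    rw [div_lt_iff₀ h4] at h5
    have := neg_abs_le (mu' j).re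
    linarith
  · refine Finset.prod_ne_zero_iff.2 fun j _ => Finset.prod_ne_zero_iff.2 fun n hn => ?_
    intro h
    have h6 := congrArg Complex.re h
    rw [re_aff] at h6
    simp at h6
    have h3 := Finset.single_le_sum (s := Finset.univ) (fun j _ => n1 j) (Finset.mem_univ j)
    have h4 := hl j
    have h5 : (|(mu j).re| + N0) / lam j < s.re - 1 := by linarith
    rw [div_lt_iff₀ h4] at h5
    have h7 : (n:ℝ) < N0 := by exact_mod_cast Finset.mem_range.1 hn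
    have := le_abs_self (mu j).re
    nlinarith

/-- comparison from asymptotic sizes -/
lemma ratio_of_Asy {f g : ℝ → ℂ} {e e' κ : ℝ} (hf : Asy f e κ) (hg : Asy g e' κ) (he : e + 1 ≤ e')
    (hfc : Continuous f) (hgc : Continuous g) (hg0 : ∀ t, g t ≠ 0) :
    ∃ C : ℝ, 0 ≤ C ∧ ∀ t : ℝ, (1 + |t|) * ‖f t‖ ≤ C * ‖g t‖ := by
  obtain ⟨c1, C1, T1, hc1, hC1, h1⟩ := hf
  obtain ⟨c2, C2, T2, hc2, hC2, h2⟩ := hg
  set T := max (max T1 T2) 0 with hT
  have hT0 : 0 ≤ T := le_max_right _ _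
  have hcomp : IsCompact (Icc (-T) T) := isCompact_Icc
  have hne : (Icc (-T) T).Nonempty := ⟨0, by constructor <;> linarith⟩
  obtain ⟨x, hx, hxM⟩ := hcomp.exists_isMaxOn hne (f := fun t => ‖f t‖) (by fun_prop)
  obtain ⟨y, hy, hyM⟩ := hcomp.exists_isMinOn hne (f := fun t => ‖g t‖) (by fun_prop)
  have hgy : 0 < ‖g y‖ := norm_pos_iff.2 (hg0 y)
  refine ⟨C1 / c2 + (1 + T) * ‖f x‖ / ‖g y‖, by positivity, fun t => ?_⟩
  rcases le_total T |t| with ht | ht
  · have k1 := (h1 t (((le_max_left _ _).trans (le_max_left _ _)).trans ht)).2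
    have k2 := (h2 t (((le_max_right _ _).trans (le_max_left _ _)).trans ht)).1
    have e0 : (1 + |t|) * st e κ t = st (e + 1) κ t := by
      have := st_mul 1 0 e κ t
      have e1 : st 1 0 t = 1 + |t| := by unfold st; simp
      rw [e1] at this
      rw [this]
      congr 1 <;> ring
    have h0 := abs_nonneg t
    have k3 : st (e + 1) κ t ≤ st e' κ t := st_mono he
    have k4 : st e' κ t ≤ ‖g t‖ / c2 := by rw [le_div_iff₀ hc2, mul_comm]; exact k2
    calc (1 + |t|) * ‖f t‖ ≤ (1 + |t|) * (C1 * st e κ t) := by gcongr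
      _ = C1 * ((1 + |t|) * st e κ t) := by ring
      _ = C1 * st (e + 1) κ t := by rw [e0]
      _ ≤ C1 * (‖g t‖ / c2) := by gcongr; exact k3.trans k4
      _ = C1 / c2 * ‖g t‖ := by ring
      _ ≤ _ := by
        apply mul_le_mul_of_nonneg_right _ (norm_nonneg _)
        have : 0 ≤ (1 + T) * ‖f x‖ / ‖g y‖ := by positivity
        linarith
  · have ht' : t ∈ Icc (-T) T := abs_le.1 ht
    have k1 : ‖f t‖ ≤ ‖f x‖ := hxM ht'
    have k2 : ‖g y‖ ≤ ‖g t‖ := hyM ht'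
    calc (1 + |t|) * ‖f t‖ ≤ (1 + T) * ‖f x‖ := by gcongr
      _ = (1 + T) * ‖f x‖ / ‖g y‖ * ‖g y‖ := by field_simp
      _ ≤ (1 + T) * ‖f x‖ / ‖g y‖ * ‖g t‖ := by gcongr
      _ ≤ _ := by
        apply mul_le_mul_of_nonneg_right _ (norm_nonneg _)
        have : 0 ≤ C1 / c2 := by positivity
        linarith

lemma line_cont {f : ℂ → ℂ} {σ : ℝ} (h : ∀ s : ℂ, s.re = σ → DifferentiableAt ℂ f s) :
    Continuous (fun t : ℝ => f ((σ : ℂ) + t * I)) := by
  rw [continuous_iff_continuousAt]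
  intro t
  have h1 : ContinuousAt f ((σ : ℂ) + t * I) := (h _ (by simp)).continuousAt
  have h2 : ContinuousAt (fun t : ℝ => (σ : ℂ) + t * I) t := by fun_prop
  exact ContinuousAt.comp (g := f) (f := fun t : ℝ => (σ : ℂ) + t * I) h1 h2

/-- **Admissibility of the kernels of gamma factors of degree `> 2`.** -/
theorem gam_Adm {Q : ℝ} (hQ : 0 < Q) {lam : Fin r → ℝ} {mu : Fin r → ℂ} {lam' : Fin r' → ℝ} {mu' : Fin r' → ℂ} {N0 : ℕ}
    (hl : ∀ j, 0 < lam j) (hl' : ∀ j, 0 < lam' j) (hN : ∀ j, -(mu j).re < N0) {α : ℝ} (hα : 0 < α) (hα2 : α < 1 / 2)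
    (hb : α ∉ bad lam mu lam' mu') (hS : 0 < ∑ j, lam j - ∑ j, lam' j)
    (h1 : 1 ≤ (∑ j, lam j - ∑ j, lam' j) * (2 * α)) : Adm (gam Q lam mu lam' mu' N0) α := by
  refine ⟨fun s hs => gam_diff hQ hl hN hs.le, ?_, hα, hα2, ?_⟩
  · intro a b ha hab
    obtain ⟨C, M, T, hC, hM, h⟩ := gam_UpB hQ mu mu' N0 hl hl' a b hab
    obtain ⟨C', δ, hδ, hC', h'⟩ := st_decay hM hS
    set T0 := max T 0 with hT0
    have hK : IsCompact (Icc a b ×ℂ Icc (-T0) T0) := isCompact_Icc.reProdIm isCompact_Icc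
    have hcont : ContinuousOn (gam Q lam mu lam' mu' N0) (Icc a b ×ℂ Icc (-T0) T0) := by
      intro s hs
      rw [mem_reProdIm] at hs
      exact (gam_diff hQ hl hN (by linarith [hs.1.1])).continuousAt.continuousWithinAt
    obtain ⟨B, hB⟩ := hK.exists_bound_of_continuousOn hcont
    refine ⟨C * C' + |B| * Real.exp (δ * T0), δ, hδ, fun s h1 h2 => ?_⟩
    rcases le_total T0 |s.im| with ht | ht
    · calc _ ≤ C * st M (∑ j, lam j - ∑ j, lam' j) s.im := h s h1 h2 ((le_max_left _ _).trans ht)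
        _ ≤ C * (C' * Real.exp (-δ * |s.im|)) := by gcongr; exact h' _
        _ = C * C' * Real.exp (-δ * |s.im|) := by ring
        _ ≤ _ := by
          apply mul_le_mul_of_nonneg_right _ (Real.exp_pos _).le
          have : 0 ≤ |B| * Real.exp (δ * T0) := by positivity
          linarith
    · have hs : s ∈ Icc a b ×ℂ Icc (-T0) T0 := by
        rw [mem_reProdIm]; exact ⟨⟨h1, h2⟩, abs_le.1 ht⟩
      have k1 : 1 ≤ Real.exp (δ * T0) * Real.exp (-δ * |s.im|) := by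
        rw [← Real.exp_add]
        apply Real.one_le_exp
        nlinarith
      calc _ ≤ B := hB s hs
        _ ≤ |B| := le_abs_self _
        _ ≤ |B| * (Real.exp (δ * T0) * Real.exp (-δ * |s.im|)) := le_mul_of_one_le_right (abs_nonneg _) k1
        _ = |B| * Real.exp (δ * T0) * Real.exp (-δ * |s.im|) := by ring
        _ ≤ _ := by
          apply mul_le_mul_of_nonneg_right _ (Real.exp_pos _).le
          have : 0 ≤ C * C' := by positivity
          linarith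
  · refine ratio_of_Asy (gam_Asy hQ mu mu' N0 hl hl' (1 / 2 - α)) (gam_Asy hQ mu mu' N0 hl hl' (1 / 2 + α)) ?_
      (line_cont fun s hs => gam_diff hQ hl hN (by linarith)) (line_cont fun s hs => gam_diff hQ hl hN (by linarith))
      (fun t => gam_ne_line hQ hl hN hα hb (by simp))
    have := expo_sub lam mu lam' mu' N0 (1 / 2 + α) (1 / 2 - α)
    have e : (1 / 2 + α - (1 / 2 - α)) = 2 * α := by ring
    rw [e] at this
    linarith

end Pool.Agent.H483.FE
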