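import Pool.Agent.H483.FE.Nec

set_option autoImplicit false

/-!
# Polynomial growth in strips
-/

namespace Pool.Agent.H483.FE

open Set Filter Topology Complex Asymptotics
open scoped ComplexConjugate

/-- Phragmén–Lindelöf with polynomial growth. -/
theorem pl_poly {F : ℂ → ℂ} (hF : Differentiable ℂ F) {a b : ℝ} (hab : a < b)
    (hg : ∃ C K : ℝ, 0 ≤ C ∧ 0 ≤ K ∧ ∀ s : ℂ, a ≤ s.re → s.re ≤ b → ‖F s‖ ≤ C * Real.exp (K * |s.im|))
    (hline : ∀ x ∈ ({a, b} : Set ℝ), ∃ C M : ℝ, ∀ s : ℂ, s.re = x → ‖F s‖ ≤ C * (1 + |s.im|) ^ M) :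
    ∃ C M : ℝ, ∀ s : ℂ, a ≤ s.re → s.re ≤ b → ‖F s‖ ≤ C * (1 + |s.im|) ^ M := by
  obtain ⟨C, K, hC, hK, hg⟩ := hg
  obtain ⟨C1, M1, h1⟩ := hline a (by simp)
  obtain ⟨C2, M2, h2⟩ := hline b (by simp)
  obtain ⟨N, hN⟩ := exists_nat_ge (max M1 M2)
  set B0 : ℝ := 1 - a with hB0
  set H : ℂ → ℂ := fun s => F s / (s + B0) ^ N with hH
  have hre : ∀ s : ℂ, a ≤ s.re → 1 ≤ ‖s + B0‖ := by
    intro s hs
    refine le_trans ?_ (Complex.re_le_norm _)
    simp [hB0]
    linarith
  have hne : ∀ s : ℂ, a ≤ s.re → s + B0 ≠ 0 := by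
    intro s hs h
    have := hre s hs
    rw [h, norm_zero] at this
    linarith
  have hlow : ∀ s : ℂ, a ≤ s.re → (1 + |s.im|) / 2 ≤ ‖s + B0‖ := by
    intro s hs
    have k1 := hre s hs
    have k2 : |s.im| ≤ ‖s + B0‖ := by
      have := Complex.abs_im_le_norm (s + B0)
      simpa using this
    linarith
  have hup : ∀ s : ℂ, a ≤ s.re → s.re ≤ b → ‖s + B0‖ ≤ (1 + (b - a)) * (1 + |s.im|) := by
    intro s hs hs'
    refine (Complex.norm_le_abs_re_add_abs_im _).trans ?_
    have e1 : (s + B0).re = s.re + 1 - a := by simp [hB0]; ring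
    have e2 : (s + B0).im = s.im := by simp
    rw [e1, e2, abs_of_nonneg (by linarith)]
    have := abs_nonneg s.im
    nlinarith
  have hbd : ∀ {D M : ℝ}, M ≤ N → ∀ s : ℂ, a ≤ s.re → ‖F s‖ ≤ D * (1 + |s.im|) ^ M → ‖H s‖ ≤ |D| * 2 ^ N := by
    intro D M hM s hs hFs
    have h0 : 1 ≤ 1 + |s.im| := by have := abs_nonneg s.im; linarith
    have k1 := hlow s hs
    have k2 : ((1 + |s.im|) / 2) ^ N ≤ ‖s + B0‖ ^ N := pow_le_pow_left₀ (by positivity) k1 N
    have k3 : (1 + |s.im|) ^ M ≤ (1 + |s.im|) ^ N := by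
      rw [← Real.rpow_natCast]
      exact Real.rpow_le_rpow_of_exponent_le h0 hM
    simp only [hH]
    rw [norm_div, norm_pow, div_le_iff₀ (by have := hre s hs; positivity)]
    calc _ ≤ |D| * (1 + |s.im|) ^ N := by
          refine hFs.trans ?_
          refine mul_le_mul (le_abs_self _) k3 (by positivity) (abs_nonneg _)
      _ = |D| * 2 ^ N * ((1 + |s.im|) / 2) ^ N := by rw [div_pow]; field_simp
      _ ≤ _ := by gcongr
  have hmain : ∀ s : ℂ, a ≤ s.re → s.re ≤ b → ‖H s‖ ≤ max (|C1| * 2 ^ N) (|C2| * 2 ^ N) := by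
    intro s hs1 hs2
    refine PhragmenLindelof.vertical_strip (a := a) (b := b) ?_ ?_ ?_ ?_ hs1 hs2
    · apply DifferentiableOn.diffContOnCl
      intro z hz
      have hz' : a ≤ z.re := by
        have : closure (re ⁻¹' Ioo a b) ⊆ re ⁻¹' (Icc a b) := by
          apply closure_minimal (preimage_mono Ioo_subset_Icc_self)
          exact isClosed_Icc.preimage Complex.continuous_re
        exact (this hz).1
      have hne' := hne z hz'
      apply DifferentiableAt.differentiableWithinAt
      apply (hF z).div (by fun_prop)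
      exact pow_ne_zero _ hne'
    · refine ⟨Real.pi / (b - a) / 2, ?_, K / (Real.pi / (b - a) / 2), ?_⟩
      · have : 0 < Real.pi / (b - a) := div_pos Real.pi_pos (by linarith)
        linarith
      · have hc : 0 < Real.pi / (b - a) / 2 := by
          have : 0 < Real.pi / (b - a) := div_pos Real.pi_pos (by linarith)
          linarith
        apply IsBigO.of_bound C
        rw [eventually_inf_principal]
        refine Eventually.of_forall fun z hz => ?_
        have hz1 : a ≤ z.re := hz.1.le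
        have hz2 : z.re ≤ b := hz.2.le
        rw [Real.norm_eq_abs, Real.abs_exp]
        have k1 := hg z hz1 hz2
        have k2 : ‖H z‖ ≤ ‖F z‖ := by
          simp only [hH]
          rw [norm_div, norm_pow]
          apply div_le_self (norm_nonneg _)
          exact one_le_pow₀ (hre z hz1)
        refine k2.trans (k1.trans ?_)
        apply mul_le_mul_of_nonneg_left _ hC
        apply Real.exp_le_exp.2
        have k3 : Real.pi / (b - a) / 2 * |z.im| ≤ Real.exp (Real.pi / (b - a) / 2 * |z.im|) := by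
          have := Real.add_one_le_exp (Real.pi / (b - a) / 2 * |z.im|)
          linarith
        calc K * |z.im| = K / (Real.pi / (b - a) / 2) * (Real.pi / (b - a) / 2 * |z.im|) := by
              rw [← mul_assoc, div_mul_cancel₀ _ hc.ne']
          _ ≤ _ := by gcongr
    · intro z hz
      exact (hbd ((le_max_left _ _).trans hN) z (by linarith) (h1 z hz)).trans (le_max_left _ _)
    · intro z hz
      exact (hbd ((le_max_right _ _).trans hN) z (by linarith) (h2 z hz)).trans (le_max_right _ _)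
  set D := max (|C1| * 2 ^ N) (|C2| * 2 ^ N) with hD
  have hD0 : 0 ≤ D := le_trans (by positivity) (le_max_left _ _)
  refine ⟨D * (1 + (b - a)) ^ N, N, fun s hs1 hs2 => ?_⟩
  have k1 := hmain s hs1 hs2
  have k2 := hup s hs1 hs2
  have k3 : F s = H s * (s + B0) ^ N := by
    simp only [hH]
    rw [div_mul_cancel₀]
    exact pow_ne_zero _ (hne s hs1)
  rw [k3, norm_mul, norm_pow, Real.rpow_natCast]
  calc _ ≤ D * ((1 + (b - a)) * (1 + |s.im|)) ^ N := by gcongr
    _ = _ := by rw [mul_pow]; ring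

end Pool.Agent.H483.FE
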