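import Pool.Agent.H483.FE.Stir

set_option autoImplicit false

/-!
# Kernels and the energy inequality
-/

namespace Pool.Agent.H483.FE

open MeasureTheory Set Filter Topology Complex FourierTransform
open Pool.Agent.H336R4.PF
open scoped ComplexConjugate

/-- Admissible kernels (on the Mellin side) with the parameter `α`. -/
structure Adm (γ : ℂ → ℂ) (α : ℝ) : Prop where
  diff : ∀ s : ℂ, 0 < s.re → DifferentiableAt ℂ γ s
  decay : ∀ a b : ℝ, 0 < a → a ≤ b → ∃ C δ : ℝ, 0 < δ ∧ ∀ s : ℂ, a ≤ s.re → s.re ≤ b →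
    ‖γ s‖ ≤ C * Real.exp (-δ * |s.im|)
  pos : 0 < α
  lt : α < 1 / 2
  ratio : ∃ C : ℝ, 0 ≤ C ∧ ∀ t : ℝ, (1 + |t|) * ‖γ ((1 / 2 - α : ℝ) + t * I)‖ ≤
    C * ‖γ ((1 / 2 + α : ℝ) + t * I)‖

/-- the point `σ + 2πit` -/
noncomputable def ln (σ t : ℝ) : ℂ := (σ : ℂ) + ((2 * Real.pi * t : ℝ) : ℂ) * I

@[simp] lemma ln_re (σ t : ℝ) : (ln σ t).re = σ := by unfold ln; exact vline_re _ _
@[simp] lemma ln_im (σ t : ℝ) : (ln σ t).im = 2 * Real.pi * t := by unfold ln; exact vline_im _ _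

lemma ln_cont (σ : ℝ) : Continuous (ln σ) := by unfold ln; fun_prop

/-- exponential decay -/
def ED (G : ℝ → ℂ) : Prop := Continuous G ∧ ∃ C δ : ℝ, 0 < δ ∧ ∀ t : ℝ, ‖G t‖ ≤ C * Real.exp (-δ * |t|)

lemma ED.int {G : ℝ → ℂ} (h : ED G) : Integrable G := by
  obtain ⟨hc, C, δ, hδ, hb⟩ := h
  exact Integrable.mono' ((integrable_exp_abs hδ).const_mul C) hc.aestronglyMeasurable (Eventually.of_forall hb)

lemma ED.mul_aff {G : ℝ → ℂ} (h : ED G) (a b : ℂ) : ED (fun t => (a + b * t) * G t) := by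
  obtain ⟨hc, C, δ, hδ, hb⟩ := h
  obtain ⟨C', hC', h'⟩ := polyexp (A := 1) (δ := δ / 2) zero_le_one (by positivity)
  refine ⟨by fun_prop, (‖a‖ + ‖b‖) * (|C| * C'), δ / 2, by positivity, fun t => ?_⟩
  rw [norm_mul]
  have h1 : ‖a + b * t‖ ≤ (‖a‖ + ‖b‖) * (1 + |t|) := by
    refine (norm_add_le _ _).trans ?_
    rw [norm_mul, Complex.norm_real, Real.norm_eq_abs]
    nlinarith [norm_nonneg a, norm_nonneg b, abs_nonneg t, mul_nonneg (norm_nonneg a) (abs_nonneg t)]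
  have h2 : ‖G t‖ ≤ |C| * Real.exp (-δ * |t|) :=
    (hb t).trans (mul_le_mul_of_nonneg_right (le_abs_self _) (Real.exp_pos _).le)
  have h3 := h' t
  rw [Real.rpow_one] at h3
  have e : -(2 * (δ / 2)) * |t| = -δ * |t| := by ring
  rw [e] at h3
  calc _ ≤ ((‖a‖ + ‖b‖) * (1 + |t|)) * (|C| * Real.exp (-δ * |t|)) := by gcongr
    _ = (‖a‖ + ‖b‖) * |C| * ((1 + |t|) * Real.exp (-δ * |t|)) := by ring
    _ ≤ (‖a‖ + ‖b‖) * |C| * (C' * Real.exp (-(δ / 2) * |t|)) := by gcongr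
    _ = _ := by ring

/-- decay of all exponential orders to the right -/
def Dec (f : ℝ → ℂ) : Prop := ∀ σ : ℝ, 0 < σ → ∃ C : ℝ, ∀ y : ℝ, ‖f y‖ ≤ C * Real.exp (-σ * y)

lemma Dec.two {f : ℝ → ℂ} (h : Dec f) {σ : ℝ} (hσ : 0 < σ) : ∃ C : ℝ, 0 ≤ C ∧ ∀ y : ℝ,
    Real.exp (σ * y) * ‖f y‖ ≤ C * Real.exp (-(σ / 2) * |y|) := by
  obtain ⟨C1, h1⟩ := h (σ / 2) (by positivity)
  obtain ⟨C2, h2⟩ := h (3 * σ / 2) (by positivity)
  refine ⟨|C1| + |C2|, by positivity, fun y => ?_⟩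
  rcases le_total 0 y with hy | hy
  · rw [abs_of_nonneg hy]
    calc _ ≤ Real.exp (σ * y) * (C2 * Real.exp (-(3 * σ / 2) * y)) := by gcongr; exact h2 y
      _ = C2 * (Real.exp (σ * y) * Real.exp (-(3 * σ / 2) * y)) := by ring
      _ = C2 * Real.exp (-(σ / 2) * y) := by rw [← Real.exp_add]; congr 2; ring
      _ ≤ _ := by
          apply mul_le_mul_of_nonneg_right _ (Real.exp_pos _).le
          linarith [le_abs_self C2, abs_nonneg C1]
  · rw [abs_of_nonpos hy]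
    calc _ ≤ Real.exp (σ * y) * (C1 * Real.exp (-(σ / 2) * y)) := by gcongr; exact h1 y
      _ = C1 * (Real.exp (σ * y) * Real.exp (-(σ / 2) * y)) := by ring
      _ = C1 * Real.exp (-(σ / 2) * -y) := by rw [← Real.exp_add]; congr 2; ring
      _ ≤ _ := by
          apply mul_le_mul_of_nonneg_right _ (Real.exp_pos _).le
          linarith [le_abs_self C1, abs_nonneg C2]

lemma Dec.int {f : ℝ → ℂ} (h : Dec f) (hc : Continuous f) {σ : ℝ} (hσ : 0 < σ) :
    Integrable (fun y => cexp ((σ * y : ℝ)) * f y) := by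
  obtain ⟨C, hC, hb⟩ := h.two hσ
  refine Integrable.mono' ((integrable_exp_abs (δ := σ / 2) (by positivity)).const_mul C)
    (by fun_prop) (Eventually.of_forall fun y => ?_)
  rw [norm_mul, Complex.norm_exp, Complex.ofReal_re]
  exact hb y

lemma Dec.int_sq {f : ℝ → ℂ} (h : Dec f) (hc : Continuous f) {σ : ℝ} (hσ : 0 < σ) :
    Integrable (fun y => Real.exp (2 * σ * y) * ‖f y‖ ^ 2) := by
  obtain ⟨C, hC, hb⟩ := h.two hσ
  refine Integrable.mono' ((integrable_exp_abs (δ := σ) (by positivity)).const_mul (C ^ 2))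
    (by fun_prop) (Eventually.of_forall fun y => ?_)
  rw [norm_mul, norm_pow, norm_norm, Real.norm_eq_abs, Real.abs_exp]
  have h1 := pow_le_pow_left₀ (by positivity) (hb y) 2
  have e1 : (Real.exp (σ * y) * ‖f y‖) ^ 2 = Real.exp (2 * σ * y) * ‖f y‖ ^ 2 := by
    rw [mul_pow, ← Real.exp_nat_mul]; congr 2; push_cast; ring
  have e2 : (C * Real.exp (-(σ / 2) * |y|)) ^ 2 = C ^ 2 * Real.exp (-σ * |y|) := by
    rw [mul_pow, ← Real.exp_nat_mul]; congr 2; push_cast; ring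
  rw [e1, e2] at h1
  exact h1

/-- Plancherel -/
lemma plancherel {G : ℝ → ℂ} (hc : Continuous G) (hi : Integrable G) (hF : Integrable (𝓕 G)) :
    ∫ y, ‖𝓕 G y‖ ^ 2 = ∫ t, ‖G t‖ ^ 2 := by
  set g : ℝ → ℂ := fun ξ => conj (𝓕 G ξ) with hg
  have hgi : Integrable g := by
    have := (Complex.conjCLE.toContinuousLinearMap).integrable_comp hF
    simpa [hg] using this
  have h1 := VectorFourier.integral_fourierIntegral_smul_eq_flip (μ := volume) (ν := volume)
    (L := innerₗ ℝ) (f := G) (g := g) Real.continuous_fourierChar continuous_inner hi hgi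
  have h2 : ∀ x : ℝ, VectorFourier.fourierIntegral Real.fourierChar volume (innerₗ ℝ).flip g x = conj (G x) := by
    intro x
    have h3 : 𝓕⁻ (𝓕 G) x = G x := by rw [hc.fourierInv_fourier_eq hi hF]
    rw [← h3, Real.fourierInv_eq', ← integral_conj]
    unfold VectorFourier.fourierIntegral
    apply integral_congr_ae
    refine Eventually.of_forall fun v => ?_
    simp only [hg, Circle.smul_def, Real.fourierChar_apply, smul_eq_mul, map_mul, ← Complex.exp_conj,
      Complex.conj_I, Complex.conj_ofReal]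
    congr 2
    simp [mul_comm]
  have h3 : ∀ ξ : ℝ, VectorFourier.fourierIntegral Real.fourierChar volume (innerₗ ℝ) G ξ = 𝓕 G ξ := fun ξ => rfl
  simp only [h2, h3] at h1
  simp only [hg, smul_eq_mul, Complex.mul_conj] at h1
  have e1 : ∀ f : ℝ → ℂ, ∫ ξ, ((Complex.normSq (f ξ) : ℝ) : ℂ) = ((∫ ξ, ‖f ξ‖ ^ 2 : ℝ) : ℂ) := by
    intro f
    simp only [Complex.normSq_eq_norm_sq]
    exact integral_complex_ofReal
  rw [e1, e1] at h1
  exact_mod_cast h1

/-- The good functions: those with Mellin transform `γ p`, `p(1 - s̄) = - conj p(s)`. -/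
def Good (γ : ℂ → ℂ) (h : ℝ → ℂ) : Prop := ∃ p : ℂ → ℂ, Continuous p ∧
  (∀ σ : ℝ, ∃ B : ℝ, ∀ t : ℝ, ‖p (ln σ t)‖ ≤ B) ∧ (∀ s, p (1 - conj s) = -conj (p s)) ∧
  ∀ σ : ℝ, 0 < σ → ∀ y : ℝ, h y = cexp (-(σ * y : ℝ)) * 𝓕 (fun t : ℝ => γ (ln σ t) * p (ln σ t)) y

lemma GG_ED {γ : ℂ → ℂ} {α : ℝ} (A : Adm γ α) {p : ℂ → ℂ} (hc : Continuous p)
    (hb : ∀ σ : ℝ, ∃ B : ℝ, ∀ t : ℝ, ‖p (ln σ t)‖ ≤ B) {σ : ℝ} (hσ : 0 < σ) :
    ED (fun t : ℝ => γ (ln σ t) * p (ln σ t)) := by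
  obtain ⟨C, δ, hδ, hC⟩ := A.decay σ σ hσ le_rfl
  obtain ⟨B, hB⟩ := hb σ
  constructor
  · apply Continuous.mul _ (hc.comp (ln_cont σ))
    rw [continuous_iff_continuousAt]
    intro t
    have h1 : ContinuousAt γ (ln σ t) := (A.diff _ (by simpa using hσ)).continuousAt
    exact ContinuousAt.comp (g := γ) (f := ln σ) h1 (ln_cont σ).continuousAt
  · refine ⟨|C| * |B|, 2 * Real.pi * δ, by have := Real.pi_pos; positivity, fun t => ?_⟩
    rw [norm_mul]
    have h1 := hC (ln σ t) (by simp) (by simp)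
    rw [ln_im, abs_mul, abs_of_pos (by have := Real.pi_pos; positivity : 0 < 2 * Real.pi)] at h1
    have h2 := hB t
    calc _ ≤ (|C| * Real.exp (-δ * (2 * Real.pi * |t|))) * |B| := by
          refine mul_le_mul (h1.trans ?_) (h2.trans (le_abs_self _)) (norm_nonneg _) (by positivity)
          exact mul_le_mul_of_nonneg_right (le_abs_self _) (Real.exp_pos _).le
      _ = _ := by
          have : -δ * (2 * Real.pi * |t|) = -(2 * Real.pi * δ) * |t| := by ring
          rw [this]; ring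

lemma four_bound (G : ℝ → ℂ) (y : ℝ) : ‖𝓕 G y‖ ≤ ∫ t, ‖G t‖ :=
  VectorFourier.norm_fourierIntegral_le_integral_norm _ _ _ _ _

lemma norm_expr (σ y : ℝ) : ‖cexp (-(σ * y : ℝ))‖ = Real.exp (-σ * y) := by
  rw [Complex.norm_exp]
  congr 1
  simp

lemma dec_of_rep {h : ℝ → ℂ} {G : ℝ → ℝ → ℂ}
    (hr : ∀ σ : ℝ, 0 < σ → ∀ y : ℝ, h y = cexp (-(σ * y : ℝ)) * 𝓕 (G σ) y) : Dec h := by
  intro σ hσ
  refine ⟨∫ t, ‖G σ t‖, fun y => ?_⟩
  rw [hr σ hσ y, norm_mul, norm_expr, mul_comm]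
  exact mul_le_mul_of_nonneg_right (four_bound _ _) (Real.exp_pos _).le

lemma energy_eq {h : ℝ → ℂ} {G : ℝ → ℂ} (hG : ED G) (hc : Continuous h) (hD : Dec h) {σ : ℝ} (hσ : 0 < σ)
    (hr : ∀ y : ℝ, h y = cexp (-(σ * y : ℝ)) * 𝓕 G y) :
    ∫ y, Real.exp (2 * σ * y) * ‖h y‖ ^ 2 = ∫ t, ‖G t‖ ^ 2 := by
  have h1 : 𝓕 G = fun y : ℝ => cexp ((σ * y : ℝ)) * h y := by
    funext y
    rw [hr y, ← mul_assoc, ← Complex.exp_add]
    simp
  have hF : Integrable (𝓕 G) := by rw [h1]; exact hD.int hc hσ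
  rw [← plancherel hG.1 hG.int hF]
  congr 1
  funext y
  rw [h1]
  simp only
  rw [norm_mul, Complex.norm_exp, Complex.ofReal_re, mul_pow, ← Real.exp_nat_mul]
  congr 2
  push_cast
  ring

/-- The energy inequality for good functions. -/
theorem good_energy {γ : ℂ → ℂ} {α : ℝ} (A : Adm γ α) : ∃ E : ℝ, 0 ≤ E ∧ ∀ h : ℝ → ℂ, Good γ h →
    ∃ h' : ℝ → ℂ, (∀ y, HasDerivAt h (h' y) y) ∧ Continuous h' ∧ Dec h ∧ Dec h' ∧
    ∫ y, Real.exp (2 * (1 / 2 - α) * y) * ‖h' y‖ ^ 2 ≤ E * ∫ y, Real.exp (2 * (1 / 2 + α) * y) * ‖h y‖ ^ 2 := by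
  obtain ⟨C, hC0, hC⟩ := A.ratio
  refine ⟨C ^ 2, by positivity, ?_⟩
  rintro h ⟨p, hpc, hpb, hps, hr⟩
  have hED : ∀ σ : ℝ, 0 < σ → ED (fun t : ℝ => γ (ln σ t) * p (ln σ t)) := fun σ hσ => GG_ED A hpc hpb hσ
  set G' : ℝ → ℝ → ℂ := fun σ t => -(ln σ t) * (γ (ln σ t) * p (ln σ t)) with hG'
  have hED' : ∀ σ : ℝ, 0 < σ → ED (G' σ) := by
    intro σ hσ
    have := (hED σ hσ).mul_aff (-σ) (-(2 * Real.pi * I))
    have e : G' σ = fun t : ℝ => (-(σ:ℂ) + -(2 * Real.pi * I) * t) * (γ (ln σ t) * p (ln σ t)) := by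
      funext t
      simp only [hG']
      congr 1
      unfold ln
      push_cast
      ring
    rw [e]
    exact this
  have hder : ∀ σ : ℝ, 0 < σ → ∀ y : ℝ, HasDerivAt h (cexp (-(σ * y : ℝ)) * 𝓕 (G' σ) y) y := by
    intro σ hσ y
    set G : ℝ → ℂ := fun t : ℝ => γ (ln σ t) * p (ln σ t) with hG
    have h1 := Real.hasDerivAt_fourier (hED σ hσ).int (by
      have := ((hED σ hσ).mul_aff 0 1).int
      simpa [Complex.real_smul] using this) y
    have h2 : HasDerivAt (fun y : ℝ => cexp (-(σ * y : ℝ))) (-σ * cexp (-(σ * y : ℝ))) y := by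
      have h3 : HasDerivAt (fun y : ℝ => (-(σ * y : ℝ) : ℂ)) (-σ : ℂ) y := by
        have : HasDerivAt (fun y : ℝ => ((-σ * y : ℝ) : ℂ)) ((-σ : ℝ) : ℂ) y := by
          have := ((hasDerivAt_id y).const_mul (-σ)).ofReal_comp
          simpa using this
        convert this using 1
        · funext y; push_cast; ring
        · push_cast; ring
      have := h3.cexp
      convert this using 1
      ring
    have h3 := h2.mul h1
    have h4 : h = fun y : ℝ => cexp (-(σ * y : ℝ)) * 𝓕 G y := funext (hr σ hσ)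
    rw [h4]
    refine h3.congr_deriv ?_
    have h5 : 𝓕 (G' σ) y = -σ * 𝓕 G y + 𝓕 (fun x : ℝ => (-2 * Real.pi * I * x) • G x) y := by
      rw [Real.fourier_real_eq, Real.fourier_real_eq, Real.fourier_real_eq, ← integral_const_mul,
        ← integral_add]
      · apply integral_congr_ae
        refine Eventually.of_forall fun t => ?_
        simp only [hG', hG, Circle.smul_def, smul_eq_mul, ln]
        push_cast
        ring
      · have := (Real.fourierIntegral_convergent_iff (μ := volume) (f := G) y).2 (hED σ hσ).int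
        refine (Integrable.const_mul (c := (-σ : ℂ)) ?_)
        simpa [mul_comm] using this
      · have := (Real.fourierIntegral_convergent_iff (μ := volume)
          (f := fun x : ℝ => (-2 * Real.pi * I * x) • G x) y).2 (by
            have := ((hED σ hσ).mul_aff 0 (-2 * Real.pi * I)).int
            simpa using this)
        simpa [mul_comm] using this
    rw [h5]
    ring
  refine ⟨fun y => cexp (-((1:ℝ) * y : ℝ)) * 𝓕 (G' 1) y, hder 1 one_pos, ?_, dec_of_rep hr, ?_, ?_⟩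
  · have : Continuous (𝓕 (G' 1)) :=
      VectorFourier.fourierIntegral_continuous Real.continuous_fourierChar continuous_inner (hED' 1 one_pos).int
    fun_prop
  · apply dec_of_rep (G := G')
    intro σ hσ y
    exact (hder 1 one_pos y).unique (hder σ hσ y)
  · have h'rep : ∀ σ : ℝ, 0 < σ → ∀ y : ℝ, cexp (-((1:ℝ) * y : ℝ)) * 𝓕 (G' 1) y = cexp (-(σ * y : ℝ)) * 𝓕 (G' σ) y :=
      fun σ hσ y => (hder 1 one_pos y).unique (hder σ hσ y)
    have hcont : Continuous h := by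
      rw [continuous_iff_continuousAt]
      exact fun y => (hder 1 one_pos y).continuousAt
    have hcont' : Continuous (fun y : ℝ => cexp (-((1:ℝ) * y : ℝ)) * 𝓕 (G' 1) y) := by
      have : Continuous (𝓕 (G' 1)) :=
        VectorFourier.fourierIntegral_continuous Real.continuous_fourierChar continuous_inner (hED' 1 one_pos).int
      fun_prop
    have hm : 0 < 1 / 2 - α := by have := A.lt; linarith
    have hp : 0 < 1 / 2 + α := by have := A.pos; linarith
    rw [energy_eq (hED' _ hm) hcont' (dec_of_rep (G := G') h'rep) hm (h'rep _ hm),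
      energy_eq (hED _ hp) hcont (dec_of_rep hr) hp (hr _ hp), ← integral_const_mul]
    have hsq : ∀ {G : ℝ → ℂ}, ED G → Integrable (fun t => ‖G t‖ ^ 2) := by
      rintro G ⟨gc, K, δ, hδ, hK⟩
      refine Integrable.mono' ((integrable_exp_abs (δ := 2 * δ) (by positivity)).const_mul (K ^ 2))
        (by fun_prop) (Eventually.of_forall fun t => ?_)
      rw [norm_pow, norm_norm]
      refine (pow_le_pow_left₀ (norm_nonneg _) (hK t) 2).trans (le_of_eq ?_)
      rw [mul_pow, ← Real.exp_nat_mul]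
      congr 2
      push_cast
      ring
    apply integral_mono (hsq (hED' _ hm)) ((hsq (hED _ hp)).const_mul _)
    intro t
    simp only [hG']
    rw [← mul_pow]
    apply pow_le_pow_left₀ (norm_nonneg _)
    rw [norm_mul, norm_neg, norm_mul, norm_mul]
    have e1 : ‖p (ln (1 / 2 - α) t)‖ = ‖p (ln (1 / 2 + α) t)‖ := by
      have := hps (ln (1 / 2 + α) t)
      have e : 1 - conj (ln (1 / 2 + α) t) = ln (1 / 2 - α) t := by
        simp only [ln, map_add, map_mul, Complex.conj_ofReal, Complex.conj_I]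
        push_cast
        ring
      rw [e] at this
      rw [this, norm_neg, Complex.norm_conj]
    have e2 : ‖ln (1 / 2 - α) t‖ ≤ 1 + |2 * Real.pi * t| := by
      unfold ln
      refine (norm_add_le _ _).trans ?_
      rw [norm_mul, Complex.norm_real, Complex.norm_real, Complex.norm_I, mul_one, Real.norm_eq_abs,
        Real.norm_eq_abs, abs_of_pos hm]
      have := A.pos
      linarith
    have e3 := hC (2 * Real.pi * t)
    rw [e1]
    calc _ = (‖ln (1 / 2 - α) t‖ * ‖γ (ln (1 / 2 - α) t)‖) * ‖p (ln (1 / 2 + α) t)‖ := by ring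
      _ ≤ ((1 + |2 * Real.pi * t|) * ‖γ (ln (1 / 2 - α) t)‖) * ‖p (ln (1 / 2 + α) t)‖ := by gcongr
      _ ≤ (C * ‖γ (ln (1 / 2 + α) t)‖) * ‖p (ln (1 / 2 + α) t)‖ := by
          apply mul_le_mul_of_nonneg_right _ (norm_nonneg _)
          exact e3
      _ = _ := by ring

end Pool.Agent.H483.FE
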