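import Pool.Agent.H483.FE.Zero

set_option autoImplicit false

/-!
# Gamma factors of functional equations have finitely many zeros
-/

namespace Pool.Agent.H483.FE

open Set Filter Topology Complex Polynomial
open scoped ComplexConjugate

variable {r r' : ℕ}

/-- the reciprocal of the product of the Gamma factors -/
noncomputable def gi (lam : Fin r → ℝ) (mu : Fin r → ℂ) (s : ℂ) : ℂ :=
  ∏ j, (Complex.Gamma ((lam j : ℂ) * s + mu j))⁻¹

lemma gi_diff (lam : Fin r → ℝ) (mu : Fin r → ℂ) : Differentiable ℂ (gi lam mu) := by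
  intro s
  unfold gi
  apply DifferentiableAt.fun_finsetProd
  intro j _
  exact inv_Gamma_diff _ _ s

lemma gfac_eq (lam : Fin r → ℝ) (mu : Fin r → ℂ) (lam' : Fin r' → ℝ) (mu' : Fin r' → ℂ) :
    gfac lam mu lam' mu' = fun z => (gi lam mu z)⁻¹ * gi lam' mu' z := by
  funext z
  unfold gfac gi
  rw [← Finset.prod_inv_distrib]
  simp

lemma gi_ne_iff (lam : Fin r → ℝ) (mu : Fin r → ℂ) (s : ℂ) : gi lam mu s ≠ 0 ↔ NoP lam mu s := by
  unfold gi NoP
  rw [Finset.prod_ne_zero_iff]
  constructor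
  · intro h j n hn
    apply h j (Finset.mem_univ j)
    rw [hn, Complex.Gamma_neg_nat_eq_zero, inv_zero]
  · intro h j _
    exact inv_ne_zero (Complex.Gamma_ne_zero (h j))

/-- far to the right everything is regular -/
lemma far_right {lam : Fin r → ℝ} (mu : Fin r → ℂ) (hl : ∀ j, 0 < lam j) :
    ∃ R : ℝ, 0 ≤ R ∧ ∀ s : ℂ, R < s.re → ∀ j, 0 < ((lam j : ℂ) * s + mu j).re := by
  have n2 : ∀ j, 0 ≤ |(mu j).re| / lam j := fun j => by have := hl j; positivity
  refine ⟨∑ j, |(mu j).re| / lam j, Finset.sum_nonneg (fun j _ => n2 j), fun s hs j => ?_⟩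
  rw [re_aff]
  have h3 := Finset.single_le_sum (s := Finset.univ) (fun j _ => n2 j) (Finset.mem_univ j)
  have h4 := hl j
  have h5 : |(mu j).re| / lam j < s.re := by linarith
  rw [div_lt_iff₀ h4] at h5
  have := neg_abs_le (mu j).re
  linarith

lemma NoP_of_re_pos {lam : Fin r → ℝ} {mu : Fin r → ℂ} {s : ℂ} (h : ∀ j, 0 < ((lam j : ℂ) * s + mu j).re) :
    NoP lam mu s := by
  intro j n hn
  have := h j
  rw [hn] at this
  simp at this
  have h0 : (0:ℝ) ≤ n := Nat.cast_nonneg n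
  linarith

lemma gi_exists_ne {lam : Fin r → ℝ} (mu : Fin r → ℂ) (hl : ∀ j, 0 < lam j) : ∃ s, gi lam mu s ≠ 0 := by
  obtain ⟨R, -, hR⟩ := far_right mu hl
  refine ⟨((R + 1 : ℝ) : ℂ), ?_⟩
  rw [gi_ne_iff]
  exact NoP_of_re_pos (hR _ (by simp))

/-- **Necessity**: if a function of the class satisfies the functional equation, then the gamma factor has finitely
many zeros. -/
theorem zeros_finite {lam : Fin r → ℝ} {mu : Fin r → ℂ} {lam' : Fin r' → ℝ} {mu' : Fin r' → ℂ}
    (hl : ∀ j, 0 < lam j) (hl' : ∀ j, 0 < lam' j) {F : ℂ → ℂ} {Q : ℝ} {ω : ℂ} (hQ : 0 < Q) (hω : ‖ω‖ = 1)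
    (hmer : ∀ z, MeromorphicAt F z) (hnz : ∃ z, AnalyticAt ℂ F z ∧ F z ≠ 0)
    {a : ℕ → ℂ} {σ0 : ℝ} (hser : ∀ s : ℂ, σ0 < s.re → LSeriesSummable a s ∧ F s = LSeries a s)
    {P : ℂ[X]} (hP : P ≠ 0) {H : ℂ → ℂ} (hH : Differentiable ℂ H)
    (hPH : ∀ s, AnalyticAt ℂ F s → H s = P.eval s * F s)
    (hfe : ∀ s : ℂ, AnalyticAt ℂ F s → AnalyticAt ℂ F (1 - conj s) → NoP lam mu s → NoP lam mu (1 - conj s) →
      (Q : ℂ) ^ s * gfac lam mu lam' mu' s * F s =
        ω * conj ((Q : ℂ) ^ (1 - conj s) * gfac lam mu lam' mu' (1 - conj s) * F (1 - conj s))) :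
    {s : ℂ | 0 < meromorphicOrderAt (gfac lam mu lam' mu') s}.Finite := by
  have hQ' : (Q : ℂ) ≠ 0 := by exact_mod_cast hQ.ne'
  have hω0 : ω ≠ 0 := by intro h; rw [h, norm_zero] at hω; exact zero_ne_one hω
  -- analyticity on the right
  have hab : LSeries.abscissaOfAbsConv a ≤ σ0 := by
    apply LSeries.abscissaOfAbsConv_le_of_forall_lt_LSeriesSummable
    intro y hy
    exact (hser y (by simpa using hy)).1
  have hFan : ∀ s : ℂ, σ0 < s.re → AnalyticAt ℂ F s := by
    intro s hs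
    have h1 : AnalyticAt ℂ (LSeries a) s := by
      apply LSeries_analyticOnNhd a
      show LSeries.abscissaOfAbsConv a < s.re
      exact lt_of_le_of_lt hab (by exact_mod_cast hs)
    refine h1.congr ?_
    have : {s : ℂ | σ0 < s.re} ∈ 𝓝 s := (isOpen_lt continuous_const Complex.continuous_re).mem_nhds hs
    filter_upwards [this] with z hz
    exact (hser z hz).2.symm
  have hPne : ∀ s : ℂ, ∀ᶠ z in 𝓝[≠] s, P.eval z ≠ 0 := by
    intro s
    have hPd : Differentiable ℂ (fun s => P.eval s) := P.differentiable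
    have hPe : ∃ s, P.eval s ≠ 0 := by
      by_contra h
      push Not at h
      exact hP (Polynomial.funext (by simpa using h))
    obtain ⟨n, hn⟩ := entire_order hPd hPe s
    rw [← meromorphicOrderAt_ne_top_iff_eventually_ne_zero (hPd.analyticAt s).meromorphicAt, hn]
    exact WithTop.coe_ne_top
  -- nonzero coefficient
  have hane : ∃ n : ℕ, n ≠ 0 ∧ a n ≠ 0 := by
    by_contra hcon
    push Not at hcon
    have hL : ∀ s, LSeries a s = 0 := by
      intro s
      have : LSeries a s = LSeries 0 s := LSeries_congr (fun {n} hn => by simp [hcon n hn]) s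
      rw [this, LSeries_zero]; rfl
    have hH0 : H = 0 := by
      have h2 : AnalyticOnNhd ℂ H univ := fun s _ => hH.analyticAt s
      have h3 : AnalyticOnNhd ℂ (0 : ℂ → ℂ) univ := fun s _ => analyticAt_const
      refine h2.eq_of_eventuallyEq h3 (z₀ := ((σ0 + 1 : ℝ) : ℂ)) ?_
      have : {s : ℂ | σ0 < s.re} ∈ 𝓝 ((σ0 + 1 : ℝ) : ℂ) :=
        (isOpen_lt continuous_const Complex.continuous_re).mem_nhds (by simp)
      filter_upwards [this] with z hz
      rw [hPH z (hFan z hz), (hser z hz).2, hL]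
      simp
    obtain ⟨z, hz1, hz2⟩ := hnz
    have h4 : ∀ᶠ w in 𝓝[≠] z, P.eval w = 0 := by
      have h5 : ∀ᶠ w in 𝓝[≠] z, AnalyticAt ℂ F w := (hmer z).eventually_analyticAt
      have h6 : ∀ᶠ w in 𝓝[≠] z, F w ≠ 0 :=
        eventually_nhdsWithin_of_eventually_nhds (hz1.continuousAt.eventually_ne hz2)
      filter_upwards [h5, h6] with w hw1 hw2
      have := hPH w hw1
      rw [hH0] at this
      simpa [hw2] using this.symm
    obtain ⟨w, hw1, hw2⟩ := (h4.and (hPne z)).exists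
    exact hw2 hw1
  classical
  set n0 := Nat.find hane with hn0
  obtain ⟨hn01, hn02⟩ := Nat.find_spec hane
  have hmin : ∀ n, n ≠ 0 → n < n0 → a n = 0 := by
    intro n h1 h2
    by_contra h3
    exact Nat.find_min hane h2 ⟨h1, h3⟩
  obtain ⟨R1, hR1, hR1'⟩ := series_ne_zero (hser ((σ0 + 1 : ℝ) : ℂ) (by simp)).1 hn01 hn02 hmin
  have hFne : ∀ s : ℂ, R1 < s.re → F s ≠ 0 := by
    intro s hs
    rw [(hser s (by linarith)).2]
    exact hR1' s hs.le
  obtain ⟨R2, hR20, hR2⟩ := far_right mu hl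
  obtain ⟨R3, hR30, hR3⟩ := far_right mu' hl'
  -- roots of P
  obtain ⟨B, hB⟩ : ∃ B : ℝ, ∀ s : ℂ, P.eval s = 0 → -B ≤ s.re := by
    have hfin : (P.roots.toFinset : Set ℂ).Finite := Finset.finite_toSet _
    obtain ⟨B, hB⟩ := (hfin.image Complex.re).bddBelow
    refine ⟨-B, fun s hs => ?_⟩
    rw [neg_neg]
    apply hB
    refine ⟨s, ?_, rfl⟩
    simp only [Finset.mem_coe, Multiset.mem_toFinset]
    exact (mem_roots hP).2 hs
  set A := |σ0| + |R1| + R2 + R3 + |B| + 1 with hA
  have hclaim : ∀ s0 : ℂ, s0.re < -A → ¬ 0 < meromorphicOrderAt (gfac lam mu lam' mu') s0 := by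
    intro s0 hs0 hpos
    have b1 := le_abs_self σ0
    have b2 := le_abs_self R1
    have b3 := le_abs_self B
    have b4 := abs_nonneg σ0
    have b5 := abs_nonneg R1
    have b6 := abs_nonneg B
    set w0 : ℂ := 1 - conj s0 with hw0
    have hw0re : w0.re = 1 - s0.re := by simp [hw0]
    have hPs0 : P.eval s0 ≠ 0 := by
      intro h
      have := hB s0 h
      linarith
    -- left side
    have hcontw : Tendsto (fun s : ℂ => 1 - conj s) (𝓝[≠] s0) (𝓝 w0) := by
      have : Continuous (fun s : ℂ => 1 - conj s) := by fun_prop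
      exact this.continuousAt.tendsto.mono_left nhdsWithin_le_nhds
    have hg0 : Tendsto (gfac lam mu lam' mu') (𝓝[≠] s0) (𝓝 0) := tendsto_zero_of_meromorphicOrderAt_pos hpos
    have hF0 : Tendsto F (𝓝[≠] s0) (𝓝 (H s0 / P.eval s0)) := by
      have h1 : Tendsto (fun z => H z / P.eval z) (𝓝[≠] s0) (𝓝 (H s0 / P.eval s0)) :=
        ((hH s0).continuousAt.div (P.differentiable s0).continuousAt hPs0).tendsto.mono_left nhdsWithin_le_nhds
      refine h1.congr' ?_
      filter_upwards [(hmer s0).eventually_analyticAt, hPne s0] with z hz1 hz2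
      rw [hPH z hz1]
      field_simp
    have hQ0 : Tendsto (fun s : ℂ => (Q : ℂ) ^ s) (𝓝[≠] s0) (𝓝 ((Q : ℂ) ^ s0)) := by
      have : ContinuousAt (fun s : ℂ => (Q : ℂ) ^ s) s0 := continuousAt_const_cpow hQ'
      exact this.tendsto.mono_left nhdsWithin_le_nhds
    have hL := (hQ0.mul hg0).mul hF0
    rw [mul_zero, zero_mul] at hL
    -- right side
    have pw : ∀ j, 0 < ((lam j : ℂ) * w0 + mu j).re := hR2 w0 (by rw [hw0re]; linarith)
    have pw' : ∀ j, 0 < ((lam' j : ℂ) * w0 + mu' j).re := hR3 w0 (by rw [hw0re]; linarith)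
    have hgne : gfac lam mu lam' mu' w0 ≠ 0 := by
      rw [gfac_eq]
      exact mul_ne_zero (inv_ne_zero ((gi_ne_iff _ _ _).2 (NoP_of_re_pos pw))) ((gi_ne_iff _ _ _).2 (NoP_of_re_pos pw'))
    have hgc : ContinuousAt (gfac lam mu lam' mu') w0 := by
      rw [gfac_eq]
      exact ((gi_diff lam mu w0).continuousAt.inv₀ ((gi_ne_iff _ _ _).2 (NoP_of_re_pos pw))).mul
        (gi_diff lam' mu' w0).continuousAt
    have hFc : ContinuousAt F w0 := (hFan w0 (by rw [hw0re]; linarith)).continuousAt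
    have hFw : F w0 ≠ 0 := hFne w0 (by rw [hw0re]; linarith)
    have hQw : Tendsto (fun s : ℂ => (Q : ℂ) ^ (1 - conj s)) (𝓝[≠] s0) (𝓝 ((Q : ℂ) ^ w0)) :=
      (continuousAt_const_cpow (b := w0) hQ').tendsto.comp hcontw
    have hR := ((((hQw.mul (hgc.tendsto.comp hcontw)).mul (hFc.tendsto.comp hcontw)).star)).const_mul ω
    have hne : ω * star ((Q : ℂ) ^ w0 * gfac lam mu lam' mu' w0 * F w0) ≠ 0 := by
      apply mul_ne_zero hω0
      rw [star_ne_zero]
      refine mul_ne_zero (mul_ne_zero ?_ hgne) hFw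
      rw [Complex.cpow_ne_zero_iff]; exact Or.inl hQ'
    have hwr : ∀ᶠ s in 𝓝[≠] s0, |σ0| + |R1| + R2 + R3 + |B| < (1 - conj s).re := by
      have h1 : Tendsto (fun s : ℂ => (1 - conj s).re) (𝓝[≠] s0) (𝓝 w0.re) :=
        (Complex.continuous_re.tendsto _).comp hcontw
      exact h1.eventually_const_lt (by rw [hw0re]; linarith)
    have hnop : ∀ᶠ s in 𝓝[≠] s0, NoP lam mu s := by
      obtain ⟨n, hn⟩ := entire_order (gi_diff lam mu) (gi_exists_ne mu hl) s0
      have : ∀ᶠ s in 𝓝[≠] s0, gi lam mu s ≠ 0 := by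
        rw [← meromorphicOrderAt_ne_top_iff_eventually_ne_zero ((gi_diff lam mu).analyticAt s0).meromorphicAt, hn]
        exact WithTop.coe_ne_top
      filter_upwards [this] with s hs
      exact (gi_ne_iff _ _ _).1 hs
    have heq : (fun s : ℂ => (Q : ℂ) ^ s * gfac lam mu lam' mu' s * F s) =ᶠ[𝓝[≠] s0]
        fun s => ω * star ((Q : ℂ) ^ (1 - conj s) * (gfac lam mu lam' mu' ∘ fun s => 1 - conj s) s *
          (F ∘ fun s => 1 - conj s) s) := by
      filter_upwards [(hmer s0).eventually_analyticAt, hwr, hnop] with s h1 h2 h3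
      have h4 := hfe s h1 (hFan _ (by linarith)) h3 (NoP_of_re_pos (hR2 _ (by linarith)))
      exact h4
    exact hne (tendsto_nhds_unique (hR.congr' heq.symm) hL)
  -- the zeros in the remaining half plane
  obtain ⟨M, hM⟩ : ∃ M : ℕ, ∀ j, lam' j * A - (mu' j).re ≤ M := by
    obtain ⟨M, hM⟩ := exists_nat_ge (∑ j, |lam' j * A - (mu' j).re|)
    refine ⟨M, fun j => ?_⟩
    have h3 := Finset.single_le_sum (s := Finset.univ) (fun j _ => abs_nonneg (lam' j * A - (mu' j).re))
      (Finset.mem_univ j)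
    exact (le_abs_self _).trans (h3.trans hM)
  have hsub : {s : ℂ | 0 < meromorphicOrderAt (gfac lam mu lam' mu') s} ⊆
      (fun p : Fin r' × ℕ => (-(p.2 : ℂ) - mu' p.1) / (lam' p.1 : ℂ)) '' (univ ×ˢ (Finset.range (M + 1) : Set ℕ)) := by
    intro s hs
    rw [mem_ofPred_eq] at hs
    have hsA : -A ≤ s.re := by
      by_contra h
      exact hclaim s (not_le.1 h) hs
    have hz : gi lam' mu' s = 0 := by
      by_contra hz
      obtain ⟨n1, hn1⟩ := entire_order (gi_diff lam mu) (gi_exists_ne mu hl) s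
      have h2 : meromorphicOrderAt (gi lam' mu') s = 0 := by
        have ha := (gi_diff lam' mu').analyticAt s
        rw [ha.meromorphicOrderAt_eq, ha.analyticOrderAt_eq_zero.2 hz]
        rfl
      have e1 : meromorphicOrderAt (fun z => (gi lam mu z)⁻¹) s = ((-(n1 : ℤ) : ℤ) : WithTop ℤ) := by
        rw [fun_meromorphicOrderAt_inv, hn1]; rfl
      have m1 : MeromorphicAt (fun z => (gi lam mu z)⁻¹) s := ((gi_diff lam mu).analyticAt s).meromorphicAt.inv
      rw [gfac_eq, fun_meromorphicOrderAt_mul m1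
        ((gi_diff lam' mu').analyticAt s).meromorphicAt, h2, add_zero, e1] at hs
      have : (0:ℤ) < -(n1 : ℤ) := by exact_mod_cast hs
      omega
    have hz' : ¬ NoP lam' mu' s := by
      rw [← gi_ne_iff]; simpa using hz
    unfold NoP at hz'
    push Not at hz'
    obtain ⟨j, n, hn⟩ := hz'
    refine ⟨(j, n), ⟨mem_univ _, ?_⟩, ?_⟩
    · simp only [Finset.coe_range, mem_Iio]
      have h1 := congrArg Complex.re hn
      rw [re_aff] at h1
      simp at h1
      have h2 := hM j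
      have h3 := mul_le_mul_of_nonneg_left hsA (hl' j).le
      have h4 : (n:ℝ) ≤ M := by linarith
      have : n ≤ M := by exact_mod_cast h4
      omega
    · have hne : (lam' j : ℂ) ≠ 0 := by exact_mod_cast (hl' j).ne'
      simp only
      rw [div_eq_iff hne, ← hn]
      ring
  exact ((finite_univ.prod (Finset.finite_toSet _)).image _).subset hsub

end Pool.Agent.H483.FE
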