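import Pool.Agent.H483.FE.Samp
import Pool.Graph.R_seed8.H336Sel.Relation

set_option autoImplicit false

/-!
# Nodes and the relation
-/

namespace Pool.Agent.H483.FE

open MeasureTheory Set Filter Topology Complex FourierTransform
open scoped ComplexConjugate

/-- the node function -/
noncomputable def yy (J X : ℕ) (θ : ℝ) (k : ℕ) : ℝ :=
  if k < J then Real.log (2 * X) - ((J : ℝ) - k) * θ else Real.log (2 * (X + (k - J)))

lemma yy_lt {J X : ℕ} {θ : ℝ} {k : ℕ} (h : k < J) : yy J X θ k = Real.log (2 * X) - ((J : ℝ) - k) * θ := by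
  unfold yy; rw [if_pos h]

lemma yy_ge (J X : ℕ) (θ : ℝ) (k : ℕ) : yy J X θ (J + k) = Real.log (2 * (X + k)) := by
  unfold yy; rw [if_neg (by omega)]; push_cast; congr 2; ring

lemma yy_le {J X : ℕ} {θ : ℝ} {k : ℕ} (h : k ≤ J) : yy J X θ k = Real.log (2 * X) - ((J : ℝ) - k) * θ := by
  rcases h.lt_or_eq with h | rfl
  · exact yy_lt h
  · have := yy_ge k X θ 0
    simp only [add_zero, Nat.cast_zero] at this
    rw [this]; simp

/-- Existence of nodes. -/
theorem nodes_exist {σ τ η : ℝ} (hτ : 0 < τ) (hτσ : τ < σ) (h1 : σ - τ < 1) (hη : 0 < η) (X0 : ℕ) :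
    ∃ (N : Nodes σ τ η) (J X : ℕ) (Cw : ℝ), X0 ≤ X ∧ 1 ≤ X ∧ 1 ≤ J ∧ 0 ≤ Cw ∧ ∀ k : ℕ,
      N.y (J + k) = Real.log (2 * ((X : ℝ) + k)) ∧ N.w (J + k) ≤ Cw * ((X : ℝ) + k) ^ (2 * σ - 1) := by
  have hσ : 0 < σ := by linarith
  set κ := 2 - 2 * (σ - τ) with hκ
  have hκ0 : 0 < κ := by linarith
  -- choose X
  obtain ⟨X1, hX1⟩ : ∃ X1 : ℕ, ∀ m : ℕ, X1 ≤ m → 2 * Real.exp (2 * σ * Real.log 4) * Real.exp (-κ * Real.log m) ≤ η := by
    have t1 : Tendsto (fun m : ℕ => -κ * Real.log m) atTop atBot :=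
      (Real.tendsto_log_atTop.comp tendsto_natCast_atTop_atTop).const_mul_atTop_of_neg (by linarith)
    have t2 := (Real.tendsto_exp_atBot.comp t1).const_mul (2 * Real.exp (2 * σ * Real.log 4))
    rw [mul_zero] at t2
    exact eventually_atTop.1 (t2.eventually_le_const hη)
  set X := max (max X0 X1) 1 with hX
  have hXa : X0 ≤ X := (le_max_left _ _).trans (le_max_left _ _)
  have hXb : X1 ≤ X := (le_max_right _ _).trans (le_max_left _ _)
  have hXc : 1 ≤ X := le_max_right _ _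
  have hXpos : (1:ℝ) ≤ X := by exact_mod_cast hXc
  -- choose θ
  set M := 2 * Real.exp (2 * (σ - τ) * Real.log (2 * X) + 2 * σ) with hM
  have hM0 : 0 < M := by positivity
  set θ := min 1 (η / M) with hθ
  have hθ0 : 0 < θ := lt_min one_pos (by positivity)
  have hθ1 : θ ≤ 1 := min_le_left _ _
  have hθM : θ * M ≤ η := by
    have : θ ≤ η / M := min_le_right _ _
    rwa [le_div_iff₀ hM0] at this
  -- choose J
  obtain ⟨J, hJ1, hJ⟩ : ∃ J : ℕ, 1 ≤ J ∧
      Real.exp (2 * (σ - τ) * (Real.log (2 * X) - J * θ)) / (2 * τ * (σ - τ)) ≤ η := by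
    have t0 : Tendsto (fun J : ℕ => (J : ℝ) * θ) atTop atTop :=
      tendsto_natCast_atTop_atTop.atTop_mul_const hθ0
    have t1 : Tendsto (fun J : ℕ => 2 * (σ - τ) * (Real.log (2 * X) - J * θ)) atTop atBot := by
      apply Tendsto.const_mul_atBot (by linarith)
      have := tendsto_atBot_add_const_left atTop (Real.log (2 * X)) (tendsto_neg_atTop_atBot.comp t0)
      simpa [sub_eq_add_neg] using! this
    have t2 := (Real.tendsto_exp_atBot.comp t1).div_const (2 * τ * (σ - τ))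
    rw [zero_div] at t2
    obtain ⟨J, hJ, hJ'⟩ := ((eventually_ge_atTop 1).and (t2.eventually_le_const hη)).exists
    exact ⟨J, hJ, hJ'⟩
  have key : ∀ m : ℕ, X ≤ m → 0 ≤ Real.log (2 * ((m:ℝ) + 1)) - Real.log (2 * m) ∧
      Real.log (2 * ((m:ℝ) + 1)) - Real.log (2 * m) ≤ 1 / m ∧
      Real.log (2 * ((m:ℝ) + 1)) ≤ Real.log 4 + Real.log m := by
    intro m hm
    have hm1 : (1:ℝ) ≤ m := by exact_mod_cast hXc.trans hm
    refine ⟨?_, ?_, ?_⟩
    · have : Real.log (2 * m) ≤ Real.log (2 * ((m:ℝ) + 1)) := Real.log_le_log (by positivity) (by linarith)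
      linarith
    · rw [← Real.log_div (by positivity) (by positivity)]
      have e : 2 * ((m:ℝ) + 1) / (2 * m) = 1 + 1 / m := by field_simp
      rw [e]
      have := Real.log_le_sub_one_of_pos (by positivity : (0:ℝ) < 1 + 1 / m)
      linarith
    · rw [← Real.log_mul (by norm_num) (by positivity)]
      exact Real.log_le_log (by positivity) (by linarith)
  have step_ge : ∀ k : ℕ, yy J X θ (J + k) = Real.log (2 * ((X + k : ℕ) : ℝ)) ∧
      yy J X θ (J + k + 1) = Real.log (2 * (((X + k : ℕ) : ℝ) + 1)) := by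
    intro k
    constructor
    · rw [yy_ge]; push_cast; rfl
    · rw [add_assoc, yy_ge]; push_cast; congr 2; ring
  have hmono : ∀ k, yy J X θ k ≤ yy J X θ (k + 1) := by
    intro k
    rcases lt_or_ge k J with hk | hk
    · rw [yy_lt hk, yy_le (by omega : k + 1 ≤ J)]
      push_cast
      nlinarith
    · obtain ⟨j, rfl⟩ := Nat.exists_eq_add_of_le hk
      rw [(step_ge j).1, (step_ge j).2]
      linarith [(key (X + j) (by omega)).1]
  refine ⟨⟨yy J X θ, hmono, ?_, ?_, ?_⟩, J, X, 2 * Real.exp (2 * σ * Real.log 4), hXa, hXc, hJ1, by positivity, ?_⟩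
  · -- limit
    have : Tendsto (fun k : ℕ => yy J X θ (k + J)) atTop atTop := by
      have e : (fun k : ℕ => yy J X θ (k + J)) = fun k : ℕ => Real.log (2 * ((X : ℝ) + k)) := by
        funext k; rw [add_comm, yy_ge]
      rw [e]
      apply Real.tendsto_log_atTop.comp
      apply Tendsto.const_mul_atTop (by norm_num)
      exact tendsto_atTop_add_const_left _ _ tendsto_natCast_atTop_atTop
    exact (tendsto_add_atTop_iff_nat J).1 this
  · intro k
    rcases lt_or_ge k J with hk | hk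
    · rw [yy_lt hk, yy_le (by omega : k + 1 ≤ J)]
      have hk' : (k:ℝ) + 1 ≤ J := by exact_mod_cast hk
      have e1 : Real.log (2 * X) - ((J:ℝ) - ((k + 1 : ℕ) : ℝ)) * θ - (Real.log (2 * X) - ((J:ℝ) - k) * θ) = θ := by
        push_cast; ring
      rw [e1]
      have e2 : 2 * σ * (Real.log (2 * X) - ((J:ℝ) - ((k + 1 : ℕ) : ℝ)) * θ) - 2 * τ * (Real.log (2 * X) - ((J:ℝ) - k) * θ)
          = 2 * (σ - τ) * Real.log (2 * X) + 2 * σ * θ - 2 * (σ - τ) * (((J:ℝ) - k) * θ) := by
        push_cast; ring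
      rw [e2]
      have h3 : Real.exp (2 * (σ - τ) * Real.log (2 * X) + 2 * σ * θ - 2 * (σ - τ) * (((J:ℝ) - k) * θ)) ≤ M / 2 := by
        rw [hM]
        have h4 : 0 ≤ 2 * (σ - τ) * (((J:ℝ) - k) * θ) := by
          have : 0 ≤ ((J:ℝ) - k) * θ := mul_nonneg (by linarith) hθ0.le
          nlinarith
        have h5 : 2 * σ * θ ≤ 2 * σ := by nlinarith
        have : Real.exp (2 * (σ - τ) * Real.log (2 * X) + 2 * σ * θ - 2 * (σ - τ) * (((J:ℝ) - k) * θ)) ≤
            Real.exp (2 * (σ - τ) * Real.log (2 * X) + 2 * σ) := Real.exp_le_exp.2 (by linarith)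
        linarith
      have h6 : θ ^ 2 ≤ θ := by nlinarith
      calc _ ≤ 2 * θ * (M / 2) := by gcongr
        _ = θ * M := by ring
        _ ≤ η := hθM
    · obtain ⟨j, rfl⟩ := Nat.exists_eq_add_of_le hk
      rw [(step_ge j).1, (step_ge j).2]
      obtain ⟨k1, k2, k3⟩ := key (X + j) (by omega)
      set m := X + j with hm
      have hm1 : (1:ℝ) ≤ m := by exact_mod_cast hXc.trans (by omega)
      have hm0 : (0:ℝ) < m := by linarith
      refine le_trans ?_ (hX1 m (by omega))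
      have h2 : (Real.log (2 * ((m:ℝ) + 1)) - Real.log (2 * m)) ^ 2 ≤ Real.exp (-2 * Real.log m) := by
        have : Real.exp (-2 * Real.log m) = (1 / (m:ℝ)) ^ 2 := by
          have e : Real.exp (-2 * Real.log m) = Real.exp (-Real.log m) ^ 2 := by
            rw [← Real.exp_nat_mul]; congr 1; push_cast; ring
          rw [e, Real.exp_neg, Real.exp_log hm0]
          ring
        rw [this]
        exact pow_le_pow_left₀ k1 k2 2
      have h3 : Real.log (2 * (m:ℝ)) = Real.log 2 + Real.log m := Real.log_mul (by norm_num) hm0.ne'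
      have hl2 : 0 ≤ Real.log 2 := Real.log_nonneg (by norm_num)
      have h4 : 2 * σ * Real.log (2 * ((m:ℝ) + 1)) - 2 * τ * Real.log (2 * m) ≤
          2 * σ * Real.log 4 + (2 * (σ - τ)) * Real.log m := by
        rw [h3]
        have := mul_le_mul_of_nonneg_left k3 (by positivity : 0 ≤ 2 * σ)
        nlinarith [mul_nonneg hτ.le hl2]
      calc _ ≤ 2 * Real.exp (-2 * Real.log m) * Real.exp (2 * σ * Real.log 4 + (2 * (σ - τ)) * Real.log m) := by
            gcongr
        _ = 2 * Real.exp (2 * σ * Real.log 4) * Real.exp (-κ * Real.log m) := by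
            rw [Real.exp_add]
            have : Real.exp (-κ * Real.log m) = Real.exp (-2 * Real.log m) * Real.exp ((2 * (σ - τ)) * Real.log m) := by
              rw [← Real.exp_add]; congr 1; rw [hκ]; ring
            rw [this]; ring
  · show Real.exp (2 * (σ - τ) * yy J X θ 0) / (2 * τ * (σ - τ)) ≤ η
    rw [yy_lt (by omega : 0 < J)]
    simpa using hJ
  · intro k
    refine ⟨yy_ge J X θ k, ?_⟩
    simp only [Nodes.w]
    rw [if_neg (by omega), add_zero, (step_ge k).1, (step_ge k).2]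
    obtain ⟨k1, k2, k3⟩ := key (X + k) (by omega)
    have hm : ((X + k : ℕ) : ℝ) = (X:ℝ) + k := by push_cast; ring
    rw [hm] at k1 k2 k3 ⊢
    have hm1 : (1:ℝ) ≤ (X:ℝ) + k := by
      have : (0:ℝ) ≤ k := Nat.cast_nonneg k
      linarith
    have hm0 : (0:ℝ) < (X:ℝ) + k := by linarith
    calc _ ≤ 2 * (1 / ((X:ℝ) + k)) * Real.exp (2 * σ * (Real.log 4 + Real.log ((X:ℝ) + k))) := by gcongr
      _ = 2 * Real.exp (2 * σ * Real.log 4) * ((X:ℝ) + k) ^ (2 * σ - 1) := by
          rw [mul_add, Real.exp_add, Real.rpow_sub hm0, Real.rpow_one, Real.rpow_def_of_pos hm0]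
          have : Real.exp (2 * σ * Real.log ((X:ℝ) + k)) = Real.exp (Real.log ((X:ℝ) + k) * (2 * σ)) := by
            congr 1; ring
          rw [this]
          field_simp

/-- The space of good functions. -/
def GS {γ : ℂ → ℂ} {α : ℝ} (A : Adm γ α) : Submodule ℝ (ℝ → ℂ) where
  carrier := {h | Good γ h}
  zero_mem' := by
    refine ⟨0, continuous_zero, fun σ => ⟨0, fun t => by simp⟩, fun s => by simp, fun σ _ y => ?_⟩
    have : 𝓕 (fun t : ℝ => γ (ln σ t) * (0 : ℂ → ℂ) (ln σ t)) y = 0 := by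
      rw [Real.fourier_real_eq]; simp
    rw [this]; simp
  add_mem' := by
    rintro h1 h2 ⟨p1, pc1, pb1, ps1, r1⟩ ⟨p2, pc2, pb2, ps2, r2⟩
    refine ⟨p1 + p2, pc1.add pc2, fun σ => ?_, fun s => ?_, fun σ hσ y => ?_⟩
    · obtain ⟨B1, hB1⟩ := pb1 σ
      obtain ⟨B2, hB2⟩ := pb2 σ
      exact ⟨B1 + B2, fun t => (norm_add_le _ _).trans (add_le_add (hB1 t) (hB2 t))⟩
    · simp only [Pi.add_apply, ps1, ps2, map_add]; ring
    · have e := VectorFourier.fourierIntegral_add (μ := volume) (L := innerₗ ℝ) Real.continuous_fourierChar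
        continuous_inner (GG_ED A pc1 pb1 hσ).int (GG_ED A pc2 pb2 hσ).int
      have e' : 𝓕 (fun t : ℝ => γ (ln σ t) * (p1 + p2) (ln σ t)) y =
          𝓕 (fun t : ℝ => γ (ln σ t) * p1 (ln σ t)) y + 𝓕 (fun t : ℝ => γ (ln σ t) * p2 (ln σ t)) y := by
        have e2 : (fun t : ℝ => γ (ln σ t) * (p1 + p2) (ln σ t)) =
            (fun t : ℝ => γ (ln σ t) * p1 (ln σ t)) + (fun t : ℝ => γ (ln σ t) * p2 (ln σ t)) := by
          funext t; simp [mul_add]
        rw [e2]
        exact congrFun e y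
      rw [e', Pi.add_apply, r1 σ hσ, r2 σ hσ]
      ring
  smul_mem' := by
    rintro c h ⟨p, pc, pb, ps, r⟩
    refine ⟨(c : ℂ) • p, pc.const_smul _, fun σ => ?_, fun s => ?_, fun σ hσ y => ?_⟩
    · obtain ⟨B, hB⟩ := pb σ
      refine ⟨|c| * B, fun t => ?_⟩
      simp only [Pi.smul_apply, smul_eq_mul, norm_mul, Complex.norm_real, Real.norm_eq_abs]
      exact mul_le_mul_of_nonneg_left (hB t) (abs_nonneg _)
    · simp only [Pi.smul_apply, ps, smul_eq_mul, map_mul, Complex.conj_ofReal]; ring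
    · have e := VectorFourier.fourierIntegral_const_smul Real.fourierChar volume (innerₗ ℝ)
        (fun t : ℝ => γ (ln σ t) * p (ln σ t)) (c : ℂ)
      have e' : 𝓕 (fun t : ℝ => γ (ln σ t) * ((c : ℂ) • p) (ln σ t)) y =
          c * 𝓕 (fun t : ℝ => γ (ln σ t) * p (ln σ t)) y := by
        have e2 : (fun t : ℝ => γ (ln σ t) * ((c : ℂ) • p) (ln σ t)) =
            (c : ℂ) • (fun t : ℝ => γ (ln σ t) * p (ln σ t)) := by
          funext t; simp; ring
        rw [e2]
        exact congrFun e y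
      rw [e', Pi.smul_apply, r σ hσ, Complex.real_smul]
      ring

lemma mem_GS {γ : ℂ → ℂ} {α : ℝ} {A : Adm γ α} {h : ℝ → ℂ} : h ∈ GS A ↔ Good γ h := Iff.rfl

lemma kill (J : ℕ) (b : Fin (2 * J + 1) → Fin J → ℂ) :
    ∃ β : Fin (2 * J + 1) → ℝ, β ≠ 0 ∧ ∀ k, ∑ i, (β i : ℂ) * b i k = 0 := by
  set Φ : (Fin (2 * J + 1) → ℝ) →ₗ[ℝ] (Fin J → ℂ) := Fintype.linearCombination ℝ b with hΦ
  have h : ¬ Function.Injective Φ := by
    intro hinj
    have h1 := LinearMap.finrank_le_finrank_of_injective hinj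
    rw [Module.finrank_fintype_fun_eq_card, Module.finrank_pi_fintype] at h1
    simp [Complex.finrank_real_complex] at h1
    omega
  rw [← LinearMap.ker_eq_bot] at h
  obtain ⟨β, hβ, hβ0⟩ := (Submodule.ne_bot_iff _).1 h
  refine ⟨β, hβ0, fun k => ?_⟩
  rw [LinearMap.mem_ker, hΦ, Fintype.linearCombination_apply] at hβ
  have := congrFun hβ k
  simpa [Finset.sum_apply] using this

end Pool.Agent.H483.FE
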