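import Pool.Agent.H483.FE.Rel

set_option autoImplicit false

/-!
# The relation between the values at the integers
-/

namespace Pool.Agent.H483.FE

open MeasureTheory Set Filter Topology Complex FourierTransform
open scoped ComplexConjugate

lemma good_dec {γ : ℂ → ℂ} {h : ℝ → ℂ} (hg : Good γ h) : Dec h := by
  obtain ⟨p, -, -, -, hr⟩ := hg
  exact dec_of_rep hr

lemma dec_log {h : ℝ → ℂ} (hD : Dec h) {σ : ℝ} (hσ : 0 < σ) : ∃ C : ℝ, 0 ≤ C ∧ ∀ x : ℝ, 0 < x →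
    ‖h (Real.log x)‖ ≤ C * x ^ (-σ) := by
  obtain ⟨C, hC⟩ := hD σ hσ
  refine ⟨|C|, abs_nonneg _, fun x hx => ?_⟩
  have h1 := hC (Real.log x)
  have e : Real.exp (-σ * Real.log x) = x ^ (-σ) := by
    rw [Real.rpow_def_of_pos hx]; congr 1; ring
  rw [e] at h1
  refine h1.trans ?_
  gcongr
  exact le_abs_self _

lemma samp_summable {σ τ η : ℝ} {N : Nodes σ τ η} {J X : ℕ} {Cw : ℝ} (hX : 1 ≤ X) (hCw : 0 ≤ Cw)
    (hσ0 : 0 < σ) (hσ : σ ≤ 1)
    (hN : ∀ k : ℕ, N.y (J + k) = Real.log (2 * ((X : ℝ) + k)) ∧ N.w (J + k) ≤ Cw * ((X : ℝ) + k) ^ (2 * σ - 1))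
    {h : ℝ → ℂ} (hD : Dec h) : Summable fun k => N.w k * ‖h (N.y k)‖ ^ 2 := by
  rw [← summable_nat_add_iff J]
  obtain ⟨C, hC0, hC⟩ := dec_log hD (σ := 2) (by norm_num)
  have hs : Summable fun k : ℕ => Cw * C ^ 2 * (1 / ((k : ℝ) + 1) ^ 2) := by
    apply Summable.mul_left
    have := (summable_nat_add_iff 1).2 (Real.summable_one_div_nat_pow.2 (by norm_num : 1 < 2))
    simpa using this
  refine Summable.of_nonneg_of_le (fun k => mul_nonneg (N.w_nonneg hσ0 _) (by positivity)) (fun k => ?_) hs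
  rw [add_comm k J, (hN k).1]
  have hXr : (1:ℝ) ≤ X := by exact_mod_cast hX
  have hk : (0:ℝ) ≤ k := Nat.cast_nonneg k
  set m : ℝ := (X:ℝ) + k with hm
  have hm1 : 1 ≤ m := by linarith
  have hm0 : 0 < m := by linarith
  have h1 := hC (2 * m) (by positivity)
  have h2 : (2 * m) ^ (-(2:ℝ)) ≤ 1 / m ^ 2 := by
    rw [Real.rpow_neg (by positivity), ← Real.rpow_natCast, one_div]
    apply inv_anti₀ (by positivity)
    push_cast
    exact Real.rpow_le_rpow hm0.le (by linarith) (by norm_num)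
  have h3 : ‖h (Real.log (2 * m))‖ ≤ C * (1 / m ^ 2) := h1.trans (by gcongr)
  have h4 : N.w (J + k) ≤ Cw * m := by
    refine (hN k).2.trans ?_
    gcongr
    calc m ^ (2 * σ - 1) ≤ m ^ (1:ℝ) := Real.rpow_le_rpow_of_exponent_le hm1 (by linarith)
      _ = m := Real.rpow_one m
  have hkm : (k:ℝ) + 1 ≤ m := by linarith
  calc _ ≤ (Cw * m) * (C * (1 / m ^ 2)) ^ 2 := by
        apply mul_le_mul h4 (pow_le_pow_left₀ (norm_nonneg _) h3 2) (by positivity) (by positivity)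
    _ = Cw * C ^ 2 * (1 / m ^ 3) := by field_simp
    _ ≤ Cw * C ^ 2 * (1 / ((k:ℝ) + 1) ^ 2) := by
        gcongr
        calc ((k:ℝ) + 1) ^ 2 ≤ m ^ 2 := by gcongr
          _ ≤ m ^ 3 := pow_le_pow_right₀ hm1 (by norm_num)

section

variable {γ : ℂ → ℂ} {α : ℝ} (A : Adm γ α) {η : ℝ} (N : Nodes (1 / 2 + α) (1 / 2 - α) η)
  (hs : ∀ h, Good γ h → Summable fun k => N.w k * ‖h (N.y k)‖ ^ 2)

include A in
lemma half_pos' : 0 < 1 / 2 + α := by have := A.pos; linarith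

include A hs in
lemma TT_mem {h : ℝ → ℂ} (hg : Good γ h) :
    Memℓp (fun k => ((Real.sqrt (N.w k) : ℝ) : ℂ) * h (N.y k)) 2 := by
  apply memℓp_gen
  have := hs h hg
  refine this.congr fun k => ?_
  rw [norm_mul, Complex.norm_real, Real.norm_eq_abs, abs_of_nonneg (Real.sqrt_nonneg _)]
  simp only [ENNReal.toReal_ofNat, Real.rpow_ofNat]
  rw [mul_pow, Real.sq_sqrt (N.w_nonneg (half_pos' A) k)]

/-- the sampling map -/
noncomputable def TT : GS A →ₗ[ℝ] lp (fun _ : ℕ => ℂ) 2 where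
  toFun h := ⟨fun k => ((Real.sqrt (N.w k) : ℝ) : ℂ) * (h : ℝ → ℂ) (N.y k), TT_mem A N hs h.2⟩
  map_add' h1 h2 := by
    ext k
    show ((Real.sqrt (N.w k) : ℝ) : ℂ) * ((h1 : ℝ → ℂ) (N.y k) + (h2 : ℝ → ℂ) (N.y k)) =
      ((Real.sqrt (N.w k) : ℝ) : ℂ) * (h1 : ℝ → ℂ) (N.y k) + ((Real.sqrt (N.w k) : ℝ) : ℂ) * (h2 : ℝ → ℂ) (N.y k)
    ring
  map_smul' c h := by
    ext k
    show ((Real.sqrt (N.w k) : ℝ) : ℂ) * (c • (h : ℝ → ℂ) (N.y k)) =
      c • (((Real.sqrt (N.w k) : ℝ) : ℂ) * (h : ℝ → ℂ) (N.y k))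
    simp only [Complex.real_smul]
    ring

include hs in
lemma TT_norm (h : GS A) : ‖TT A N hs h‖ ^ 2 = ∑' k, N.w k * ‖(h : ℝ → ℂ) (N.y k)‖ ^ 2 := by
  rw [← real_inner_self_eq_norm_sq]
  have h1 := (lp.hasSum_inner (𝕜 := ℝ) (TT A N hs h) (TT A N hs h)).tsum_eq
  rw [← h1]
  congr 1
  funext k
  rw [real_inner_self_eq_norm_sq]
  show ‖((Real.sqrt (N.w k) : ℝ) : ℂ) * (h : ℝ → ℂ) (N.y k)‖ ^ 2 = _
  rw [norm_mul, Complex.norm_real, Real.norm_eq_abs, abs_of_nonneg (Real.sqrt_nonneg _), mul_pow,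
    Real.sq_sqrt (N.w_nonneg (half_pos' A) k)]

/-- point evaluation (real part) -/
def ev (z : ℝ) : GS A →ₗ[ℝ] ℝ where
  toFun h := ((h : ℝ → ℂ) z).re
  map_add' h1 h2 := by simp
  map_smul' c h := by simp

include hs in
lemma riesz {z : ℝ} (hz : ∃ C : ℝ, 0 ≤ C ∧ ∀ h, Good γ h → ‖h z‖ ^ 2 ≤ C * ∑' k, N.w k * ‖h (N.y k)‖ ^ 2) :
    ∃ b : lp (fun _ : ℕ => ℂ) 2, ∀ h : GS A, ((h : ℝ → ℂ) z).re = inner ℝ b (TT A N hs h) := by
  obtain ⟨C, hC0, hC⟩ := hz
  exact H336Sel.factor (TT A N hs) (ev A z) (Real.sqrt C) (fun h => by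
    have h1 := hC h h.2
    rw [← TT_norm A N hs h] at h1
    have h2 : |((h : ℝ → ℂ) z).re| ≤ ‖(h : ℝ → ℂ) z‖ := Complex.abs_re_le_norm _
    have h3 : ‖(h : ℝ → ℂ) z‖ ≤ Real.sqrt C * ‖TT A N hs h‖ := by
      apply le_of_sq_le_sq _ (by positivity)
      rw [mul_pow, Real.sq_sqrt hC0]
      exact h1
    exact h2.trans h3)

end

/-- a sequence with prescribed values at the even and at the odd integers `≥ 2 X` -/
noncomputable def mix (X : ℕ) (e o : ℕ → ℂ) (n : ℕ) : ℂ :=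
  if n < 2 * X then 0 else if Even n then e (n / 2 - X) else o (n / 2 - X)

lemma mix_even (X : ℕ) (e o : ℕ → ℂ) (k : ℕ) : mix X e o (2 * k + 2 * X) = e k := by
  unfold mix
  rw [if_neg (by omega), if_pos ⟨k + X, by ring⟩]
  congr 1
  omega

lemma mix_odd (X : ℕ) (e o : ℕ → ℂ) (k : ℕ) : mix X e o (2 * k + 1 + 2 * X) = o k := by
  unfold mix
  rw [if_neg (by omega), if_neg (by rw [Nat.not_even_iff_odd]; exact ⟨k + X, by ring⟩)]
  congr 1
  omega

lemma mix_lt {X : ℕ} {e o : ℕ → ℂ} {n : ℕ} (h : n < 2 * X) : mix X e o n = 0 := by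
  unfold mix; rw [if_pos h]

lemma mix_hasSum {E : Type*} [AddCommGroup E] [TopologicalSpace E] [IsTopologicalAddGroup E] {X : ℕ}
    {f : ℕ → E} (h0 : ∀ n, n < 2 * X → f n = 0) {a b : E} (ha : HasSum (fun k => f (2 * k + 2 * X)) a)
    (hb : HasSum (fun k => f (2 * k + 1 + 2 * X)) b) : HasSum f (a + b) := by
  have h1 : HasSum (fun n => f (n + 2 * X)) (a + b) := HasSum.even_add_odd (f := fun n => f (n + 2 * X)) ha hb
  have h2 := (hasSum_nat_add_iff (2 * X)).1 h1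
  rw [Finset.sum_eq_zero (fun n hn => h0 n (Finset.mem_range.1 hn)), add_zero] at h2
  exact h2

/-- The relation. -/
theorem relation {γ : ℂ → ℂ} {α : ℝ} (A : Adm γ α) (n0 : ℕ) : ∃ a : ℕ → ℂ,
    (∀ n, n ≤ n0 → a n = 0) ∧ (∃ n, a n ≠ 0) ∧ (Summable fun n : ℕ => ‖a n‖ ^ 2 * (n : ℝ) ^ (-(2 * α))) ∧
    ∀ h, Good γ h → HasSum (fun n : ℕ => (a n * h (Real.log n)).re) 0 := by
  obtain ⟨η, hη, H⟩ := sampling A
  have hm : 0 < 1 / 2 - α := by have := A.lt; linarith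
  have hp : 1 / 2 - α < 1 / 2 + α := by have := A.pos; linarith
  have hp0 : 0 < 1 / 2 + α := by linarith
  have hp1 : 1 / 2 + α ≤ 1 := by have := A.lt; linarith
  obtain ⟨N, J, X, Cw, hX0, hX1, hJ1, hCw, hN⟩ := nodes_exist hm hp (by have := A.lt; linarith) hη (n0 + 1)
  have hs : ∀ h, Good γ h → Summable fun k => N.w k * ‖h (N.y k)‖ ^ 2 := fun h hg =>
    samp_summable hX1 hCw hp0 hp1 hN (good_dec hg)
  have hXr : (1:ℝ) ≤ X := by exact_mod_cast hX1
  have hmono : Monotone N.y := monotone_nat_of_le_succ N.mono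
  -- Riesz vectors
  have hz : ∀ i : ℕ, ∃ b : lp (fun _ : ℕ => ℂ) 2, ∀ h : GS A,
      ((h : ℝ → ℂ) (Real.log (2 * ((X:ℝ) + i) + 1))).re = inner ℝ b (TT A N hs h) := by
    intro i
    apply riesz A N hs
    apply H N hs
    have h1 := hmono (Nat.zero_le (J + 0))
    rw [(hN 0).1] at h1
    refine h1.trans (Real.log_le_log (by positivity) ?_)
    have : (0:ℝ) ≤ i := Nat.cast_nonneg i
    push_cast
    linarith
  choose b hb using hz
  obtain ⟨β, hβ0, hβ⟩ := kill J (fun i k => b i k)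
  set B : lp (fun _ : ℕ => ℂ) 2 := ∑ i : Fin (2 * J + 1), β i • b i with hB
  have hBk : ∀ k, k < J → B k = 0 := by
    intro k hk
    have := hβ ⟨k, hk⟩
    rw [hB, lp.coeFn_sum, Finset.sum_apply]
    simpa using this
  set e : ℕ → ℂ := fun k => -(conj (B (J + k)) * ((Real.sqrt (N.w (J + k)) : ℝ) : ℂ)) with he
  set o : ℕ → ℂ := fun k => if hk : k < 2 * J + 1 then ((β ⟨k, hk⟩ : ℝ) : ℂ) else 0 with ho
  have hevr : ∀ k : ℕ, ((2 * k + 2 * X : ℕ) : ℝ) = 2 * ((X:ℝ) + k) := fun k => by push_cast; ring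
  have hodr : ∀ k : ℕ, ((2 * k + 1 + 2 * X : ℕ) : ℝ) = 2 * ((X:ℝ) + k) + 1 := fun k => by push_cast; ring
  refine ⟨mix X e o, fun n hn => mix_lt (by omega), ?_, ?_, ?_⟩
  · -- nonzero
    obtain ⟨i, hi⟩ := Function.ne_iff.1 hβ0
    refine ⟨2 * (i:ℕ) + 1 + 2 * X, ?_⟩
    rw [mix_odd, ho]
    simp only [i.2, dif_pos]
    exact_mod_cast hi
  · -- summability
    have hBs : Summable fun k => ‖B k‖ ^ 2 := by
      have := (lp.hasSum_inner (𝕜 := ℝ) B B).summable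
      refine this.congr fun k => ?_
      rw [real_inner_self_eq_norm_sq]
    have h1 : Summable fun k : ℕ => ‖mix X e o (2 * k + 2 * X)‖ ^ 2 * (((2 * k + 2 * X : ℕ) : ℕ) : ℝ) ^ (-(2 * α)) := by
      have hB' : Summable fun k => Cw * ‖B (J + k)‖ ^ 2 := by
        apply Summable.mul_left
        have := (summable_nat_add_iff J).2 hBs
        refine this.congr fun k => ?_
        rw [add_comm]
      refine Summable.of_nonneg_of_le (fun k => by positivity) (fun k => ?_) hB'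
      rw [mix_even, hevr, he]
      simp only [norm_neg, norm_mul, Complex.norm_conj, Complex.norm_real, Real.norm_eq_abs]
      rw [abs_of_nonneg (Real.sqrt_nonneg _), mul_pow, Real.sq_sqrt (N.w_nonneg hp0 _)]
      have h2 := (hN k).2
      have hk : (0:ℝ) ≤ k := Nat.cast_nonneg k
      have hm0 : 0 < (X:ℝ) + k := by linarith
      have e1 : 2 * (1 / 2 + α) - 1 = 2 * α := by ring
      rw [e1] at h2
      have h3 : (2 * ((X:ℝ) + k)) ^ (-(2 * α)) ≤ ((X:ℝ) + k) ^ (-(2 * α)) :=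
        Real.rpow_le_rpow_of_nonpos hm0 (by linarith) (by have := A.pos; linarith)
      calc _ ≤ ‖B (J + k)‖ ^ 2 * (Cw * ((X:ℝ) + k) ^ (2 * α)) * ((X:ℝ) + k) ^ (-(2 * α)) := by gcongr
        _ = Cw * ‖B (J + k)‖ ^ 2 * (((X:ℝ) + k) ^ (2 * α) * ((X:ℝ) + k) ^ (-(2 * α))) := by ring
        _ = _ := by rw [← Real.rpow_add hm0]; simp
    have h2 : Summable fun k : ℕ => ‖mix X e o (2 * k + 1 + 2 * X)‖ ^ 2 * (((2 * k + 1 + 2 * X : ℕ) : ℕ) : ℝ) ^ (-(2 * α)) := by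
      apply summable_of_finite_support
      apply (Finset.finite_toSet (Finset.range (2 * J + 1))).subset
      intro k hk
      simp only [Finset.coe_range, mem_Iio]
      by_contra hk'
      apply hk
      simp only [mix_odd, ho]
      rw [dif_neg hk']
      simp
    exact (mix_hasSum (f := fun n : ℕ => ‖mix X e o n‖ ^ 2 * (n : ℝ) ^ (-(2 * α)))
      (fun n hn => by rw [mix_lt hn]; simp) h1.hasSum h2.hasSum).summable
  · intro h hg
    set g : GS A := ⟨h, hg⟩ with hgdef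
    have E1 : HasSum (fun k => inner ℝ (B k) (TT A N hs g k)) (inner ℝ B (TT A N hs g)) :=
      lp.hasSum_inner (𝕜 := ℝ) B (TT A N hs g)
    have E2 : HasSum (fun k => inner ℝ (B (k + J)) (TT A N hs g (k + J))) (inner ℝ B (TT A N hs g)) := by
      rw [hasSum_nat_add_iff (f := fun k => inner ℝ (B k) (TT A N hs g k)) J]
      rw [Finset.sum_eq_zero (fun k hk => by rw [hBk k (Finset.mem_range.1 hk)]; simp), add_zero]
      exact E1
    have E3 : HasSum (fun k : ℕ => (mix X e o (2 * k + 2 * X) * h (Real.log ((2 * k + 2 * X : ℕ) : ℝ))).re)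
        (-(inner ℝ B (TT A N hs g))) := by
      refine E2.neg.congr_fun fun k => ?_
      rw [mix_even, hevr, he]
      have e1 : TT A N hs g (k + J) = ((Real.sqrt (N.w (J + k)) : ℝ) : ℂ) * h (Real.log (2 * ((X:ℝ) + k))) := by
        rw [← (hN k).1, add_comm k J]
        rfl
      rw [e1, Complex.inner, add_comm k J, ← Complex.neg_re]
      congr 1
      ring
    have E4 : HasSum (fun k : ℕ => (mix X e o (2 * k + 1 + 2 * X) * h (Real.log ((2 * k + 1 + 2 * X : ℕ) : ℝ))).re)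
        (inner ℝ B (TT A N hs g)) := by
      have e1 : inner ℝ B (TT A N hs g) = ∑ k ∈ Finset.range (2 * J + 1),
          (mix X e o (2 * k + 1 + 2 * X) * h (Real.log ((2 * k + 1 + 2 * X : ℕ) : ℝ))).re := by
        rw [hB, sum_inner, Finset.sum_range]
        refine Finset.sum_congr rfl fun i _ => ?_
        rw [real_inner_smul_left, ← hb i g, mix_odd, ho, hodr]
        simp only [i.2, dif_pos]
        rw [Complex.re_ofReal_mul]
      rw [e1]
      apply hasSum_sum_of_ne_finset_zero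
      intro k hk
      rw [mix_odd, ho]
      simp only
      rw [dif_neg (by simpa using hk)]
      simp
    have E5 := mix_hasSum (f := fun n : ℕ => (mix X e o n * h (Real.log n)).re) (X := X)
      (fun n hn => by rw [mix_lt hn]; simp) E3 E4
    rw [neg_add_cancel] at E5
    exact E5

end Pool.Agent.H483.FE
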