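import Pool.Agent.H483.FE.Kern

set_option autoImplicit false

/-!
# The sampling inequality
-/

namespace Pool.Agent.H483.FE

open MeasureTheory Set Filter Topology Complex

lemma cs {f : ℝ → ℂ} (hf : Continuous f) (τ : ℝ) {a b : ℝ} (hab : a < b) :
    (∫ v in a..b, ‖f v‖) ^ 2 ≤ (∫ v in a..b, Real.exp (-(2 * τ * v))) *
      ∫ v in a..b, Real.exp (2 * τ * v) * ‖f v‖ ^ 2 := by
  set I1 := ∫ v in a..b, ‖f v‖ with hI1
  set A := ∫ v in a..b, Real.exp (-(2 * τ * v)) with hA
  set B := ∫ v in a..b, Real.exp (2 * τ * v) * ‖f v‖ ^ 2 with hB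
  have hApos : 0 < A := by
    apply intervalIntegral.intervalIntegral_pos_of_pos _ (fun v => Real.exp_pos _) hab
    exact (by fun_prop : Continuous fun v : ℝ => Real.exp (-(2 * τ * v))).intervalIntegrable _ _
  have key : ∀ c : ℝ, 2 * c * I1 ≤ c ^ 2 * A + B := by
    intro c
    rw [hI1, hA, hB, ← intervalIntegral.integral_const_mul, ← intervalIntegral.integral_const_mul,
      ← intervalIntegral.integral_add]
    · apply intervalIntegral.integral_mono_on hab.le
      · exact (by fun_prop : Continuous fun v : ℝ => 2 * c * ‖f v‖).intervalIntegrable _ _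
      · exact (by fun_prop : Continuous fun v : ℝ => c ^ 2 * Real.exp (-(2 * τ * v)) +
          Real.exp (2 * τ * v) * ‖f v‖ ^ 2).intervalIntegrable _ _
      · intro v _
        have e1 : Real.exp (-(2 * τ * v)) = Real.exp (-(τ * v)) ^ 2 := by
          rw [← Real.exp_nat_mul]; congr 1; push_cast; ring
        have e2 : Real.exp (2 * τ * v) = Real.exp (τ * v) ^ 2 := by
          rw [← Real.exp_nat_mul]; congr 1; push_cast; ring
        have e3 : Real.exp (-(τ * v)) * Real.exp (τ * v) = 1 := by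
          rw [← Real.exp_add]; simp
        rw [e1, e2]
        have e4 := sq_nonneg (c * Real.exp (-(τ * v)) - Real.exp (τ * v) * ‖f v‖)
        have e5 : (c * Real.exp (-(τ * v)) - Real.exp (τ * v) * ‖f v‖) ^ 2 =
            c ^ 2 * Real.exp (-(τ * v)) ^ 2 + Real.exp (τ * v) ^ 2 * ‖f v‖ ^ 2 -
              2 * c * ‖f v‖ * (Real.exp (-(τ * v)) * Real.exp (τ * v)) := by ring
        rw [e5, e3] at e4
        linarith
    · exact (by fun_prop : Continuous fun v : ℝ => c ^ 2 * Real.exp (-(2 * τ * v))).intervalIntegrable _ _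
    · exact (by fun_prop : Continuous fun v : ℝ => Real.exp (2 * τ * v) * ‖f v‖ ^ 2).intervalIntegrable _ _
  have h1 := key (I1 / A)
  have h2 : 2 * (I1 / A) * I1 = 2 * (I1 ^ 2 / A) := by ring
  have h3 : (I1 / A) ^ 2 * A = I1 ^ 2 / A := by field_simp
  rw [h2, h3] at h1
  have h4 : I1 ^ 2 / A ≤ B := by linarith
  rw [div_le_iff₀ hApos] at h4
  linarith

lemma incr {h h' : ℝ → ℂ} (hd : ∀ y, HasDerivAt h (h' y) y) (hc' : Continuous h') (τ : ℝ) {a y : ℝ}
    (hay : a ≤ y) : ‖h y - h a‖ ^ 2 ≤ (∫ v in a..y, Real.exp (-(2 * τ * v))) *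
      ∫ v in a..y, Real.exp (2 * τ * v) * ‖h' v‖ ^ 2 := by
  rcases hay.eq_or_lt with rfl | hlt
  · simp
  · have h1 : ∫ v in a..y, h' v = h y - h a :=
      intervalIntegral.integral_eq_sub_of_hasDerivAt (fun v _ => hd v) (hc'.intervalIntegrable _ _)
    rw [← h1]
    refine le_trans ?_ (cs hc' τ hlt)
    exact pow_le_pow_left₀ (norm_nonneg _) (intervalIntegral.norm_integral_le_integral_norm hay) 2

lemma expInt_le {τ : ℝ} (hτ : 0 < τ) {a b : ℝ} (hab : a ≤ b) :
    (∫ v in a..b, Real.exp (-(2 * τ * v))) ≤ Real.exp (-(2 * τ * a)) / (2 * τ) ∧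
    (∫ v in a..b, Real.exp (-(2 * τ * v))) ≤ (b - a) * Real.exp (-(2 * τ * a)) := by
  constructor
  · have h1 : ∫ v in a..b, Real.exp (-(2 * τ * v)) =
        Real.exp (-(2 * τ * a)) / (2 * τ) - Real.exp (-(2 * τ * b)) / (2 * τ) := by
      have hd : ∀ v ∈ uIcc a b, HasDerivAt (fun v : ℝ => -(Real.exp (-(2 * τ * v)) / (2 * τ)))
          (Real.exp (-(2 * τ * v))) v := by
        intro v _
        have h2 : HasDerivAt (fun v : ℝ => -(2 * τ * v)) (-(2 * τ)) v := by
          simpa using! ((hasDerivAt_id v).const_mul (2 * τ)).neg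
        have h3 := (h2.exp.div_const (2 * τ)).neg
        refine h3.congr_deriv ?_
        field_simp
      rw [intervalIntegral.integral_eq_sub_of_hasDerivAt hd
        ((by fun_prop : Continuous fun v : ℝ => Real.exp (-(2 * τ * v))).intervalIntegrable _ _)]
      ring
    rw [h1]
    have : 0 < Real.exp (-(2 * τ * b)) / (2 * τ) := by positivity
    linarith
  · have h1 : (∫ v in a..b, Real.exp (-(2 * τ * v))) ≤ ∫ v in a..b, Real.exp (-(2 * τ * a)) := by
      apply intervalIntegral.integral_mono_on hab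
      · exact (by fun_prop : Continuous fun v : ℝ => Real.exp (-(2 * τ * v))).intervalIntegrable _ _
      · exact intervalIntegrable_const
      · intro v hv
        apply Real.exp_le_exp.2
        have := hv.1
        nlinarith
    rw [intervalIntegral.integral_const, smul_eq_mul] at h1
    exact h1

/-- abbreviations for the two energies on a set -/
noncomputable def En (σ : ℝ) (h : ℝ → ℂ) (s : Set ℝ) : ℝ := ∫ y in s, Real.exp (2 * σ * y) * ‖h y‖ ^ 2

lemma En_nonneg (σ : ℝ) (h : ℝ → ℂ) {s : Set ℝ} : 0 ≤ En σ h s :=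
  integral_nonneg (fun y => by positivity)

lemma En_mono {σ : ℝ} (hσ : 0 < σ) {h : ℝ → ℂ} (hc : Continuous h) (hD : Dec h) {s t : Set ℝ} (hst : s ⊆ t)
    : En σ h s ≤ En σ h t := by
  unfold En
  apply setIntegral_mono_set (hD.int_sq hc hσ).integrableOn
    (Eventually.of_forall fun y => by positivity)
  exact LE.le.eventuallyLE hst

lemma En_interval {σ : ℝ} {h : ℝ → ℂ} {a b : ℝ} (hab : a ≤ b) :
    ∫ v in a..b, Real.exp (2 * σ * v) * ‖h v‖ ^ 2 = En σ h (Ioc a b) := by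
  rw [intervalIntegral.integral_of_le hab]
  rfl

lemma sq_le_two (x y : ℂ) : ‖x‖ ^ 2 ≤ 2 * ‖y‖ ^ 2 + 2 * ‖x - y‖ ^ 2 := by
  have h1 : ‖x‖ ≤ ‖y‖ + ‖x - y‖ := by
    have := norm_add_le y (x - y)
    simpa using this
  have h2 : ‖x‖ ^ 2 ≤ (‖y‖ + ‖x - y‖) ^ 2 := pow_le_pow_left₀ (norm_nonneg _) h1 2
  nlinarith [sq_nonneg (‖y‖ - ‖x - y‖)]

lemma gap {h h' : ℝ → ℂ} (hd : ∀ y, HasDerivAt h (h' y) y) (hc' : Continuous h')
    {σ τ : ℝ} (hσ : 0 < σ) (hτ : 0 < τ) {a b : ℝ} (hab : a ≤ b) :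
    En σ h (Ioc a b) ≤ (2 * (b - a) * Real.exp (2 * σ * b)) * ‖h a‖ ^ 2 +
      2 * (b - a) ^ 2 * Real.exp (2 * σ * b - 2 * τ * a) * En τ h' (Ioc a b) := by
  have hc : Continuous h := by
    rw [continuous_iff_continuousAt]; exact fun y => (hd y).continuousAt
  set W := En τ h' (Ioc a b) with hW
  have hW0 : 0 ≤ W := En_nonneg _ _
  set M := Real.exp (2 * σ * b) * (2 * ‖h a‖ ^ 2 + 2 * ((b - a) * Real.exp (-(2 * τ * a)) * W)) with hM
  have h1 : En σ h (Ioc a b) ≤ ∫ v in a..b, M := by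
    rw [← En_interval hab]
    apply intervalIntegral.integral_mono_on hab
    · exact (by fun_prop : Continuous fun v : ℝ => Real.exp (2 * σ * v) * ‖h v‖ ^ 2).intervalIntegrable _ _
    · exact intervalIntegrable_const
    · intro y hy
      have k1 := incr hd hc' τ hy.1
      have k2 := (expInt_le hτ hy.1).2
      have k3 : ∫ v in a..y, Real.exp (2 * τ * v) * ‖h' v‖ ^ 2 ≤ W := by
        rw [hW, ← En_interval hab]
        apply intervalIntegral.integral_mono_interval le_rfl hy.1 hy.2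
        · exact Eventually.of_forall fun v => by positivity
        · exact (by fun_prop : Continuous fun v : ℝ => Real.exp (2 * τ * v) * ‖h' v‖ ^ 2).intervalIntegrable _ _
      have k4 : 0 ≤ ∫ v in a..y, Real.exp (2 * τ * v) * ‖h' v‖ ^ 2 :=
        intervalIntegral.integral_nonneg hy.1 (fun v _ => by positivity)
      have k5 : ‖h y - h a‖ ^ 2 ≤ (b - a) * Real.exp (-(2 * τ * a)) * W := by
        refine k1.trans (mul_le_mul (k2.trans ?_) k3 k4 ?_)
        · apply mul_le_mul_of_nonneg_right _ (Real.exp_pos _).le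
          linarith [hy.2]
        · have : 0 ≤ b - a := by linarith
          positivity
      have k6 := sq_le_two (h y) (h a)
      rw [hM]
      apply mul_le_mul
      · apply Real.exp_le_exp.2
        have := hy.2
        nlinarith
      · linarith
      · positivity
      · positivity
  rw [intervalIntegral.integral_const, smul_eq_mul] at h1
  refine h1.trans (le_of_eq ?_)
  rw [hM, sub_eq_add_neg (2 * σ * b), Real.exp_add]
  ring

lemma first {h h' : ℝ → ℂ} (hd : ∀ y, HasDerivAt h (h' y) y) (hc' : Continuous h') (hD : Dec h) (hD' : Dec h')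
    {σ τ : ℝ} (hτ : 0 < τ) (hτσ : τ < σ) (b : ℝ) :
    En σ h (Iic b) ≤ (Real.exp (2 * σ * b) / σ) * ‖h b‖ ^ 2 +
      (Real.exp (2 * (σ - τ) * b) / (2 * τ * (σ - τ))) * En τ h' (Iic b) := by
  have hc : Continuous h := by
    rw [continuous_iff_continuousAt]; exact fun y => (hd y).continuousAt
  have hσ : 0 < σ := by linarith
  set W := En τ h' (Iic b) with hW
  have hW0 : 0 ≤ W := En_nonneg _ _
  have i1 : IntegrableOn (fun y : ℝ => Real.exp (2 * σ * y)) (Iic b) :=
    integrableOn_exp_mul_Iic (by positivity) b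
  have i2 : IntegrableOn (fun y : ℝ => Real.exp (2 * (σ - τ) * y)) (Iic b) :=
    integrableOn_exp_mul_Iic (by nlinarith) b
  have h1 : En σ h (Iic b) ≤ ∫ y in Iic b, (2 * ‖h b‖ ^ 2 * Real.exp (2 * σ * y) +
      W / τ * Real.exp (2 * (σ - τ) * y)) := by
    unfold En
    apply setIntegral_mono_on (hD.int_sq hc hσ).integrableOn _ measurableSet_Iic
    · intro y hy
      have hy : y ≤ b := hy
      have k1 := incr hd hc' τ hy
      have k2 := (expInt_le hτ hy).1
      have k3 : ∫ v in y..b, Real.exp (2 * τ * v) * ‖h' v‖ ^ 2 ≤ W := by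
        rw [En_interval hy]
        exact En_mono hτ hc' hD' Ioc_subset_Iic_self
      have k4 : 0 ≤ ∫ v in y..b, Real.exp (2 * τ * v) * ‖h' v‖ ^ 2 :=
        intervalIntegral.integral_nonneg hy (fun v _ => by positivity)
      have k5 : ‖h b - h y‖ ^ 2 ≤ Real.exp (-(2 * τ * y)) / (2 * τ) * W :=
        k1.trans (mul_le_mul k2 k3 k4 (by positivity))
      have k6 := sq_le_two (h y) (h b)
      rw [norm_sub_rev] at k6
      have e : Real.exp (2 * (σ - τ) * y) = Real.exp (2 * σ * y) * Real.exp (-(2 * τ * y)) := by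
        rw [← Real.exp_add]; congr 1; ring
      rw [e]
      calc Real.exp (2 * σ * y) * ‖h y‖ ^ 2
          ≤ Real.exp (2 * σ * y) * (2 * ‖h b‖ ^ 2 + 2 * (Real.exp (-(2 * τ * y)) / (2 * τ) * W)) := by
            gcongr
            linarith
        _ = _ := by field_simp
    · exact (i1.const_mul _).add (i2.const_mul _)
  refine h1.trans (le_of_eq ?_)
  rw [integral_add (i1.const_mul _) (i2.const_mul _), integral_const_mul, integral_const_mul,
    integral_exp_mul_Iic (by positivity), integral_exp_mul_Iic (by nlinarith)]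
  have : σ - τ ≠ 0 := by linarith
  field_simp

/-- Nodes. -/
structure Nodes (σ τ η : ℝ) where
  y : ℕ → ℝ
  mono : ∀ k, y k ≤ y (k + 1)
  lim : Tendsto y atTop atTop
  gap : ∀ k, 2 * (y (k + 1) - y k) ^ 2 * Real.exp (2 * σ * y (k + 1) - 2 * τ * y k) ≤ η
  first : Real.exp (2 * (σ - τ) * y 0) / (2 * τ * (σ - τ)) ≤ η

/-- the weights -/
noncomputable def Nodes.w {σ τ η : ℝ} (N : Nodes σ τ η) (k : ℕ) : ℝ :=
  2 * (N.y (k + 1) - N.y k) * Real.exp (2 * σ * N.y (k + 1)) + if k = 0 then Real.exp (2 * σ * N.y 0) / σ else 0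

lemma Nodes.w_nonneg {σ τ η : ℝ} (N : Nodes σ τ η) (hσ : 0 < σ) (k : ℕ) : 0 ≤ N.w k := by
  unfold Nodes.w
  have := N.mono k
  have h1 : 0 ≤ 2 * (N.y (k + 1) - N.y k) * Real.exp (2 * σ * N.y (k + 1)) := by
    apply mul_nonneg _ (Real.exp_pos _).le
    linarith
  split_ifs <;> positivity

lemma Nodes.w_zero {σ τ η : ℝ} (N : Nodes σ τ η) (hσ : 0 < σ) : 0 < N.w 0 := by
  unfold Nodes.w
  have := N.mono 0
  have h1 : 0 ≤ 2 * (N.y (0 + 1) - N.y 0) * Real.exp (2 * σ * N.y (0 + 1)) := by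
    apply mul_nonneg _ (Real.exp_pos _).le
    linarith
  simp only [if_true]
  positivity

lemma Nodes.initial {σ τ η : ℝ} (N : Nodes σ τ η) {h h' : ℝ → ℂ} (hd : ∀ y, HasDerivAt h (h' y) y)
    (hc' : Continuous h') (hD : Dec h) (hD' : Dec h') (hτ : 0 < τ) (hτσ : τ < σ) (n : ℕ) :
    En σ h (Iic (N.y n)) ≤ (Real.exp (2 * σ * N.y 0) / σ) * ‖h (N.y 0)‖ ^ 2 +
      (∑ k ∈ Finset.range n, (2 * (N.y (k + 1) - N.y k) * Real.exp (2 * σ * N.y (k + 1))) * ‖h (N.y k)‖ ^ 2) +
      η * En τ h' (Iic (N.y n)) := by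
  have hc : Continuous h := by
    rw [continuous_iff_continuousAt]; exact fun y => (hd y).continuousAt
  have hσ : 0 < σ := by linarith
  induction n with
  | zero =>
    simp only [Finset.range_zero, Finset.sum_empty, add_zero]
    refine (FE.first hd hc' hD hD' hτ hτσ (N.y 0)).trans ?_
    have := N.first
    have h2 := En_nonneg τ h' (s := Iic (N.y 0))
    gcongr
  | succ n ih =>
    have hm := N.mono n
    have split : ∀ {ρ : ℝ} (_ : 0 < ρ) {f : ℝ → ℂ} (_ : Continuous f) (_ : Dec f),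
        En ρ f (Iic (N.y (n + 1))) = En ρ f (Iic (N.y n)) + En ρ f (Ioc (N.y n) (N.y (n + 1))) := by
      intro ρ hρ f hf hDf
      unfold En
      rw [← setIntegral_union (Set.Iic_disjoint_Ioc le_rfl) measurableSet_Ioc
        (hDf.int_sq hf hρ).integrableOn (hDf.int_sq hf hρ).integrableOn, Iic_union_Ioc_eq_Iic hm]
    rw [split hσ hc hD, split hτ hc' hD', Finset.sum_range_succ]
    have h1 := FE.gap hd hc' hσ hτ hm
    have h2 := N.gap n
    have h3 := En_nonneg τ h' (s := Ioc (N.y n) (N.y (n + 1)))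
    have h4 := mul_le_mul_of_nonneg_right h2 h3
    linarith

/-- The sampling inequality. -/
theorem Nodes.total {σ τ η : ℝ} (N : Nodes σ τ η) {h h' : ℝ → ℂ} (hd : ∀ y, HasDerivAt h (h' y) y)
    (hc' : Continuous h') (hD : Dec h) (hD' : Dec h') (hτ : 0 < τ) (hτσ : τ < σ) (hη : 0 ≤ η)
    (hs : Summable fun k => N.w k * ‖h (N.y k)‖ ^ 2) :
    (∫ y, Real.exp (2 * σ * y) * ‖h y‖ ^ 2) ≤ (∑' k, N.w k * ‖h (N.y k)‖ ^ 2) +
      η * ∫ y, Real.exp (2 * τ * y) * ‖h' y‖ ^ 2 := by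
  have hc : Continuous h := by
    rw [continuous_iff_continuousAt]; exact fun y => (hd y).continuousAt
  have hσ : 0 < σ := by linarith
  have hw := N.w_nonneg hσ
  have bd : ∀ n, 1 ≤ n → En σ h (Iic (N.y n)) ≤ (∑' k, N.w k * ‖h (N.y k)‖ ^ 2) +
      η * ∫ y, Real.exp (2 * τ * y) * ‖h' y‖ ^ 2 := by
    intro n hn
    refine (N.initial hd hc' hD hD' hτ hτσ n).trans ?_
    have h1 : (Real.exp (2 * σ * N.y 0) / σ) * ‖h (N.y 0)‖ ^ 2 +
      (∑ k ∈ Finset.range n, (2 * (N.y (k + 1) - N.y k) * Real.exp (2 * σ * N.y (k + 1))) * ‖h (N.y k)‖ ^ 2) =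
        ∑ k ∈ Finset.range n, N.w k * ‖h (N.y k)‖ ^ 2 := by
      obtain ⟨m, rfl⟩ : ∃ m, n = m + 1 := ⟨n - 1, by omega⟩
      rw [Finset.sum_range_succ', Finset.sum_range_succ']
      have e0 : N.w 0 = 2 * (N.y (0 + 1) - N.y 0) * Real.exp (2 * σ * N.y (0 + 1)) +
          Real.exp (2 * σ * N.y 0) / σ := by simp [Nodes.w]
      have e1 : ∀ k, N.w (k + 1) = 2 * (N.y (k + 1 + 1) - N.y (k + 1)) * Real.exp (2 * σ * N.y (k + 1 + 1)) := by
        intro k; simp [Nodes.w]
      simp only [e0, e1]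
      ring
    rw [h1]
    have h2 := hs.sum_le_tsum (Finset.range n) (fun k _ => mul_nonneg (hw k) (by positivity))
    have h3 : En τ h' (Iic (N.y n)) ≤ ∫ y, Real.exp (2 * τ * y) * ‖h' y‖ ^ 2 := by
      have := En_mono hτ hc' hD' (subset_univ (Iic (N.y n)))
      unfold En at this ⊢
      rwa [Measure.restrict_univ] at this
    have h4 := mul_le_mul_of_nonneg_left h3 hη
    linarith
  have lim : Tendsto (fun n => En σ h (Iic (N.y n))) atTop (𝓝 (∫ y, Real.exp (2 * σ * y) * ‖h y‖ ^ 2)) := by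
    have hcov : AECover volume atTop (fun n => Iic (N.y n)) := aecover_Iic N.lim
    exact hcov.integral_tendsto_of_countably_generated (hD.int_sq hc hσ)
  exact le_of_tendsto lim ((eventually_ge_atTop 1).mono bd)

/-- Pointwise values are controlled by the samples. -/
theorem sampling {γ : ℂ → ℂ} {α : ℝ} (A : Adm γ α) : ∃ η : ℝ, 0 < η ∧
    ∀ N : Nodes (1 / 2 + α) (1 / 2 - α) η, (∀ h, Good γ h → Summable fun k => N.w k * ‖h (N.y k)‖ ^ 2) →
    ∀ z : ℝ, N.y 0 ≤ z → ∃ C : ℝ, 0 ≤ C ∧ ∀ h, Good γ h → ‖h z‖ ^ 2 ≤ C * ∑' k, N.w k * ‖h (N.y k)‖ ^ 2 := by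
  obtain ⟨E, hE0, hE⟩ := good_energy A
  have hm : 0 < 1 / 2 - α := by have := A.lt; linarith
  have hp : 1 / 2 - α < 1 / 2 + α := by have := A.pos; linarith
  have hp0 : 0 < 1 / 2 + α := by linarith
  refine ⟨1 / (2 * (E + 1)), by positivity, fun N hs z hz => ?_⟩
  set A1 := ∫ v in N.y 0..z, Real.exp (-(2 * (1 / 2 - α) * v)) with hA1
  have hA10 : 0 ≤ A1 := intervalIntegral.integral_nonneg hz (fun v _ => by positivity)
  have hw0 := N.w_zero hp0
  refine ⟨2 / N.w 0 + 2 * A1 * (2 * E), by positivity, fun h hg => ?_⟩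
  obtain ⟨h', hd, hc', hD, hD', hen⟩ := hE h hg
  have hc : Continuous h := by
    rw [continuous_iff_continuousAt]; exact fun y => (hd y).continuousAt
  have htot := N.total hd hc' hD hD' hm hp (by positivity) (hs h hg)
  set S := ∑' k, N.w k * ‖h (N.y k)‖ ^ 2 with hS
  set E1 := ∫ y, Real.exp (2 * (1 / 2 + α) * y) * ‖h y‖ ^ 2 with hE1
  set E2 := ∫ y, Real.exp (2 * (1 / 2 - α) * y) * ‖h' y‖ ^ 2 with hE2
  have hE10 : 0 ≤ E1 := integral_nonneg fun y => by positivity
  have h1 : E1 ≤ 2 * S := by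
    have h2 : 1 / (2 * (E + 1)) * E2 ≤ 1 / 2 * E1 := by
      rw [one_div_mul_eq_div, div_le_iff₀ (by positivity)]
      nlinarith
    linarith
  have h2 : E2 ≤ 2 * E * S := hen.trans (by nlinarith)
  have h3 : ‖h (N.y 0)‖ ^ 2 ≤ S / N.w 0 := by
    rw [le_div_iff₀ hw0, mul_comm]
    have := (hs h hg).le_tsum 0 (fun k _ => mul_nonneg (N.w_nonneg hp0 k) (by positivity))
    exact this
  have h4 := incr hd hc' (1 / 2 - α) hz
  have h5 : ∫ v in N.y 0..z, Real.exp (2 * (1 / 2 - α) * v) * ‖h' v‖ ^ 2 ≤ E2 := by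
    rw [En_interval hz]
    have := En_mono hm hc' hD' (subset_univ (Ioc (N.y 0) z))
    unfold En at this ⊢
    rwa [Measure.restrict_univ] at this
  have h6 := sq_le_two (h z) (h (N.y 0))
  have h7 : ‖h z - h (N.y 0)‖ ^ 2 ≤ A1 * (2 * E * S) :=
    h4.trans (mul_le_mul_of_nonneg_left (h5.trans h2) hA10)
  calc _ ≤ _ := h6
    _ ≤ 2 * (S / N.w 0) + 2 * (A1 * (2 * E * S)) := by gcongr
    _ = _ := by ring

end Pool.Agent.H483.FE
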