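import Pool.Agent.H483.FE.Gam

set_option autoImplicit false

/-!
# The modulus of the Gamma function on vertical lines and strips
-/

namespace Pool.Agent.H483.FE

open Filter Topology Complex
open Pool.Agent.H336R4.PF

/-- main term -/
noncomputable def mt (e y : ℝ) : ℝ := |y| ^ e * Real.exp (-(Real.pi / 2) * |y|)

lemma mt_pos {e y : ℝ} (hy : 1 ≤ |y|) : 0 < mt e y := by
  unfold mt
  have : 0 < |y| := by linarith
  positivity

lemma mt_mul {e b y : ℝ} (hy : 1 ≤ |y|) : |y| ^ b * mt e y = mt (e + b) y := by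
  unfold mt
  have : 0 < |y| := by linarith
  rw [Real.rpow_add this]
  ring

lemma mt_mono {e e' y : ℝ} (hy : 1 ≤ |y|) (h : e ≤ e') : mt e y ≤ mt e' y := by
  unfold mt
  exact mul_le_mul_of_nonneg_right (Real.rpow_le_rpow_of_exponent_le hy h) (Real.exp_pos _).le

lemma le_norm_xy {x y : ℝ} : |y| ≤ ‖(x : ℂ) + y * I‖ := by
  have := Complex.abs_im_le_norm ((x : ℂ) + y * I)
  simpa using this

lemma norm_xy_le {x y : ℝ} (hy : 1 ≤ |y|) : ‖(x : ℂ) + y * I‖ ≤ (|x| + 1) * |y| := by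
  refine (norm_add_le _ _).trans ?_
  rw [norm_mul, Complex.norm_real, Complex.norm_real, Complex.norm_I, mul_one, Real.norm_eq_abs,
    Real.norm_eq_abs]
  nlinarith [abs_nonneg x]

lemma xy_ne {x y : ℝ} (hy : 1 ≤ |y|) : (x : ℂ) + y * I ≠ 0 := by
  intro h
  have h1 := le_norm_xy (x := x) (y := y)
  rw [h, norm_zero] at h1
  linarith

lemma gamma_rec {x y : ℝ} (hy : 1 ≤ |y|) :
    ‖Complex.Gamma ((x + 1 : ℝ) + y * I)‖ = ‖(x : ℂ) + y * I‖ * ‖Complex.Gamma (x + y * I)‖ := by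
  rw [← norm_mul, ← Complex.Gamma_add_one _ (xy_ne hy)]
  congr 2
  push_cast
  ring

/-- the modulus of `Γ` on the line of real part `x` -/
def LL (x : ℝ) : Prop := ∃ c C : ℝ, 0 < c ∧ 0 < C ∧ ∀ y : ℝ, 1 ≤ |y| →
  c * mt (x - 1 / 2) y ≤ ‖Complex.Gamma (x + y * I)‖ ∧ ‖Complex.Gamma (x + y * I)‖ ≤ C * mt (x - 1 / 2) y

lemma LL_half : LL (1 / 2) := by
  refine ⟨1, 3, one_pos, by norm_num, fun y hy => ?_⟩
  have h1 := Ghalf y
  have h2 := taskP2 y
  have e : ((1 / 2 : ℝ) : ℂ) = 1 / 2 := by push_cast; ring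
  rw [e, sub_self]
  unfold mt
  rw [Real.rpow_zero, one_mul, one_mul]
  refine ⟨?_, h1⟩
  have h3 : Real.exp (-(Real.pi / 2) * |y|) ^ 2 ≤ ‖Complex.Gamma (1 / 2 + y * I)‖ ^ 2 := by
    rw [h2, le_div_iff₀ (Real.cosh_pos _), ← Real.exp_nat_mul]
    have e1 : Real.cosh (Real.pi * y) ≤ Real.exp (Real.pi * |y|) := by
      rw [← Real.cosh_abs, abs_mul, abs_of_pos Real.pi_pos, Real.cosh_eq]
      have : Real.exp (-(Real.pi * |y|)) ≤ Real.exp (Real.pi * |y|) := by
        apply Real.exp_le_exp.2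
        have := mul_nonneg Real.pi_pos.le (abs_nonneg y)
        linarith
      linarith
    have e2 : Real.exp (((2:ℕ):ℝ) * (-(Real.pi / 2) * |y|)) * Real.exp (Real.pi * |y|) = 1 := by
      rw [← Real.exp_add]
      have : ((2:ℕ):ℝ) * (-(Real.pi / 2) * |y|) + Real.pi * |y| = 0 := by push_cast; ring
      rw [this, Real.exp_zero]
    have e3 : (1:ℝ) ≤ Real.pi := by linarith [Real.pi_gt_three]
    calc _ ≤ Real.exp (((2:ℕ):ℝ) * (-(Real.pi / 2) * |y|)) * Real.exp (Real.pi * |y|) :=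
          mul_le_mul_of_nonneg_left e1 (Real.exp_pos _).le
      _ = 1 := e2
      _ ≤ _ := e3
  exact le_of_sq_le_sq h3 (norm_nonneg _) |>.trans_eq rfl

lemma gamma_step {x b : ℝ} (hx : 0 < x) (hb0 : 0 ≤ b) (hb1 : b ≤ 1) :
    ∃ c C : ℝ, 0 < c ∧ 0 < C ∧ ∀ y : ℝ, 1 ≤ |y| →
      c * (|y| ^ b * ‖Complex.Gamma (x + y * I)‖) ≤ ‖Complex.Gamma ((x + b : ℝ) + y * I)‖ ∧
      ‖Complex.Gamma ((x + b : ℝ) + y * I)‖ ≤ C * (|y| ^ b * ‖Complex.Gamma (x + y * I)‖) := by
  obtain ⟨c0, hc0, h0⟩ := gamma_lower hx hb0 hb1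
  obtain ⟨c1, hc1, h1⟩ := gamma_lower (x := x + b) (b := 1 - b) (by linarith) (by linarith) (by linarith)
  refine ⟨c0, (x + 1) / c1, hc0, by positivity, fun y hy => ⟨?_, ?_⟩⟩
  · refine le_trans ?_ (h0 y)
    have : |y| ^ b ≤ ‖(x : ℂ) + y * I‖ ^ b := Real.rpow_le_rpow (abs_nonneg _) le_norm_xy hb0
    gcongr
  · have h2 := h1 y
    have e1 : x + b + (1 - b) = x + 1 := by ring
    rw [e1, gamma_rec hy] at h2
    have hyp : 0 < |y| := by linarith
    have h3 : |y| ^ (1 - b) ≤ ‖((x + b : ℝ) : ℂ) + y * I‖ ^ (1 - b) :=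
      Real.rpow_le_rpow (abs_nonneg _) le_norm_xy (by linarith)
    have h4 := norm_xy_le (x := x) hy
    rw [abs_of_pos hx] at h4
    have h5 : |y| ^ (1 - b) * ‖Complex.Gamma ((x + b : ℝ) + y * I)‖ * c1 ≤
        (x + 1) * |y| * ‖Complex.Gamma (x + y * I)‖ := by
      calc _ = c1 * (|y| ^ (1 - b) * ‖Complex.Gamma ((x + b : ℝ) + y * I)‖) := by ring
        _ ≤ c1 * (‖((x + b : ℝ) : ℂ) + y * I‖ ^ (1 - b) * ‖Complex.Gamma ((x + b : ℝ) + y * I)‖) := by gcongr
        _ ≤ _ := h2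
        _ ≤ _ := by gcongr
    have h6 : |y| ^ (1 - b) * |y| ^ b = |y| := by
      rw [← Real.rpow_add hyp]; simp
    have h7 : 0 < |y| ^ (1 - b) := by positivity
    rw [div_mul_eq_mul_div, le_div_iff₀ hc1]
    refine le_of_mul_le_mul_left ?_ h7
    calc _ = |y| ^ (1 - b) * ‖Complex.Gamma ((x + b : ℝ) + y * I)‖ * c1 := by ring
      _ ≤ _ := h5
      _ = (x + 1) * (|y| ^ (1 - b) * |y| ^ b) * ‖Complex.Gamma (x + y * I)‖ := by rw [h6]
      _ = _ := by ring

lemma LL_up {x b : ℝ} (hx : 0 < x) (hb0 : 0 ≤ b) (hb1 : b ≤ 1) (h : LL x) : LL (x + b) := by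
  obtain ⟨c, C, hc, hC, hcC⟩ := h
  obtain ⟨c', C', hc', hC', h'⟩ := gamma_step hx hb0 hb1
  refine ⟨c' * c, C' * C, by positivity, by positivity, fun y hy => ?_⟩
  obtain ⟨h1, h2⟩ := hcC y hy
  obtain ⟨h3, h4⟩ := h' y hy
  have e : mt (x + b - 1 / 2) y = |y| ^ b * mt (x - 1 / 2) y := by
    rw [mt_mul hy]; congr 1; ring
  have hyp : 0 ≤ |y| ^ b := Real.rpow_nonneg (abs_nonneg _) _
  rw [e]
  constructor
  · calc c' * c * (|y| ^ b * mt (x - 1 / 2) y) = c' * (|y| ^ b * (c * mt (x - 1 / 2) y)) := by ring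
      _ ≤ c' * (|y| ^ b * ‖Complex.Gamma (x + y * I)‖) := by gcongr
      _ ≤ _ := h3
  · calc _ ≤ C' * (|y| ^ b * ‖Complex.Gamma (x + y * I)‖) := h4
      _ ≤ C' * (|y| ^ b * (C * mt (x - 1 / 2) y)) := by gcongr
      _ = _ := by ring

lemma LL_down {x b : ℝ} (hx : 0 < x) (hb0 : 0 ≤ b) (hb1 : b ≤ 1) (h : LL (x + b)) : LL x := by
  obtain ⟨c, C, hc, hC, hcC⟩ := h
  obtain ⟨c', C', hc', hC', h'⟩ := gamma_step hx hb0 hb1
  refine ⟨c / C', C / c', by positivity, by positivity, fun y hy => ?_⟩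
  obtain ⟨h1, h2⟩ := hcC y hy
  obtain ⟨h3, h4⟩ := h' y hy
  have e : mt (x + b - 1 / 2) y = |y| ^ b * mt (x - 1 / 2) y := by
    rw [mt_mul hy]; congr 1; ring
  have hyp : 0 < |y| ^ b := Real.rpow_pos_of_pos (by linarith) _
  rw [e] at h1 h2
  constructor
  · rw [div_mul_eq_mul_div, div_le_iff₀ hC']
    refine le_of_mul_le_mul_left ?_ hyp
    calc |y| ^ b * (c * mt (x - 1 / 2) y) = c * (|y| ^ b * mt (x - 1 / 2) y) := by ring
      _ ≤ _ := h1
      _ ≤ _ := h4
      _ = _ := by ring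
  · rw [div_mul_eq_mul_div, le_div_iff₀ hc']
    refine le_of_mul_le_mul_left ?_ hyp
    calc |y| ^ b * (‖Complex.Gamma (x + y * I)‖ * c') = c' * (|y| ^ b * ‖Complex.Gamma (x + y * I)‖) := by ring
      _ ≤ _ := h3
      _ ≤ _ := h2
      _ = _ := by ring

lemma LL_half_nat (n : ℕ) : LL (1 / 2 + n) := by
  induction n with
  | zero => simpa using LL_half
  | succ n ih =>
    have h := LL_up (b := 1) (by positivity) zero_le_one le_rfl ih
    have e : (1 / 2 + ((n + 1 : ℕ) : ℝ)) = 1 / 2 + n + 1 := by push_cast; ring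
    rw [e]
    exact h

lemma LL_pos {x : ℝ} (hx : 0 < x) : LL x := by
  rcases le_total x (1 / 2) with h | h
  · apply LL_down (b := 1 / 2 - x) hx (by linarith) (by linarith)
    have : x + (1 / 2 - x) = 1 / 2 := by ring
    rw [this]
    exact LL_half
  · have h1 := LL_up (b := (x - 1 / 2) - ⌊x - 1 / 2⌋₊) (x := 1 / 2 + ⌊x - 1 / 2⌋₊) (by positivity)
      (by linarith [Nat.floor_le (by linarith : 0 ≤ x - 1 / 2)])
      (by linarith [Nat.lt_floor_add_one (x - 1 / 2)]) (LL_half_nat _)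
    have : 1 / 2 + (⌊x - 1 / 2⌋₊ : ℝ) + ((x - 1 / 2) - ⌊x - 1 / 2⌋₊) = x := by ring
    rw [this] at h1
    exact h1

lemma LL_rec {x : ℝ} (h : LL (x + 1)) : LL x := by
  obtain ⟨c, C, hc, hC, hcC⟩ := h
  refine ⟨c / (|x| + 1), C, by positivity, hC, fun y hy => ?_⟩
  obtain ⟨h1, h2⟩ := hcC y hy
  rw [gamma_rec hy] at h1 h2
  have e : mt (x + 1 - 1 / 2) y = |y| * mt (x - 1 / 2) y := by
    have := mt_mul (e := x - 1 / 2) (b := 1) hy
    rw [Real.rpow_one] at this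
    rw [this]; congr 1; ring
  rw [e] at h1 h2
  have hyp : 0 < |y| := by linarith
  have h3 := norm_xy_le (x := x) hy
  have h4 := le_norm_xy (x := x) (y := y)
  constructor
  · rw [div_mul_eq_mul_div, div_le_iff₀ (by positivity)]
    refine le_of_mul_le_mul_left ?_ hyp
    calc |y| * (c * mt (x - 1 / 2) y) = c * (|y| * mt (x - 1 / 2) y) := by ring
      _ ≤ _ := h1
      _ ≤ (|x| + 1) * |y| * ‖Complex.Gamma (x + y * I)‖ := by gcongr
      _ = _ := by ring
  · refine le_of_mul_le_mul_left ?_ hyp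
    calc |y| * ‖Complex.Gamma (x + y * I)‖ ≤ ‖(x : ℂ) + y * I‖ * ‖Complex.Gamma (x + y * I)‖ := by gcongr
      _ ≤ _ := h2
      _ = _ := by ring

lemma LL_nat (n : ℕ) : ∀ x : ℝ, -(n:ℝ) < x → LL x := by
  induction n with
  | zero => intro x hx; exact LL_pos (by simpa using hx)
  | succ n ih =>
    intro x hx
    apply LL_rec
    apply ih
    push_cast at hx
    linarith

theorem LL_all (x : ℝ) : LL x := by
  obtain ⟨n, hn⟩ := exists_nat_gt (-x)
  exact LL_nat n x (by linarith)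

/-- bounds in strips -/
def UU (a b : ℝ) : Prop := ∃ C M : ℝ, 0 < C ∧ 0 ≤ M ∧ ∀ x y : ℝ, a ≤ x → x ≤ b → 1 ≤ |y| →
  ‖Complex.Gamma (x + y * I)‖ ≤ C * mt M y ∧ mt (-M) y ≤ C * ‖Complex.Gamma (x + y * I)‖

lemma UU_pos {a b : ℝ} (ha : 0 < a) (hab : a ≤ b) : UU a b := by
  obtain ⟨c1, C1, hc1, hC1, h1⟩ := LL_all a
  obtain ⟨c2, C2, hc2, hC2, h2⟩ := LL_all b
  have hcont : ContinuousOn Real.Gamma (Set.Icc a b) := by
    intro x hx
    exact (Real.differentiableAt_Gamma (fun m => by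
      have : (0:ℝ) ≤ m := Nat.cast_nonneg m
      have := hx.1
      linarith)).continuousAt.continuousWithinAt
  obtain ⟨xm, hxm, hm⟩ := isCompact_Icc.exists_isMinOn ⟨a, ⟨le_rfl, hab⟩⟩ hcont
  obtain ⟨xM, hxM, hM⟩ := isCompact_Icc.exists_isMaxOn ⟨a, ⟨le_rfl, hab⟩⟩ hcont
  have g1 : 0 < Real.Gamma xm := Real.Gamma_pos_of_pos (by linarith [hxm.1])
  have g2 : 0 < Real.Gamma xM := Real.Gamma_pos_of_pos (by linarith [hxM.1])
  have ga : 0 < Real.Gamma a := Real.Gamma_pos_of_pos ha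
  have gb : 0 < Real.Gamma b := Real.Gamma_pos_of_pos (by linarith)
  set M := |a - 1 / 2| + |b - 1 / 2| with hMdef
  have hM0 : 0 ≤ M := by positivity
  refine ⟨max (Real.Gamma xM / Real.Gamma b * C2) (Real.Gamma a / (Real.Gamma xm * c1)), M, by positivity, hM0,
    fun x y hx1 hx2 hy => ⟨?_, ?_⟩⟩
  · have k1 := taskP1 x b y (by linarith) hx2
    have k2 := (h2 y hy).2
    have k3 : Real.Gamma x ≤ Real.Gamma xM := hM ⟨hx1, hx2⟩
    have k4 : mt (b - 1 / 2) y ≤ mt M y := mt_mono hy (by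
      have := le_abs_self (b - 1 / 2)
      have := abs_nonneg (a - 1 / 2)
      linarith)
    have k5 := mt_pos (e := M) hy
    have k6 : ‖Complex.Gamma (x + y * I)‖ ≤ Real.Gamma xM / Real.Gamma b * C2 * mt M y := by
      rw [div_mul_eq_mul_div, div_mul_eq_mul_div, le_div_iff₀ gb]
      calc _ ≤ _ := k1
        _ ≤ (C2 * mt M y) * Real.Gamma xM := by
            refine mul_le_mul (k2.trans ?_) k3 (Real.Gamma_pos_of_pos (by linarith)).le (by positivity)
            gcongr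
        _ = _ := by ring
    refine k6.trans ?_
    gcongr
    exact le_max_left _ _
  · have k1 := taskP1 a x y ha hx1
    have k2 := (h1 y hy).1
    have k3 : Real.Gamma xm ≤ Real.Gamma x := hm ⟨hx1, hx2⟩
    have k4 : mt (-M) y ≤ mt (a - 1 / 2) y := mt_mono hy (by
      have := neg_abs_le (a - 1 / 2)
      have := abs_nonneg (b - 1 / 2)
      linarith)
    have k5 := mt_pos (e := -M) hy
    have k6 : mt (-M) y ≤ Real.Gamma a / (Real.Gamma xm * c1) * ‖Complex.Gamma (x + y * I)‖ := by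
      rw [div_mul_eq_mul_div, le_div_iff₀ (by positivity)]
      calc mt (-M) y * (Real.Gamma xm * c1) = (c1 * mt (-M) y) * Real.Gamma xm := by ring
        _ ≤ (‖Complex.Gamma (a + y * I)‖) * Real.Gamma x := by
            refine mul_le_mul (le_trans ?_ k2) k3 g1.le (norm_nonneg _)
            gcongr
        _ ≤ _ := k1
        _ = _ := by ring
    refine k6.trans ?_
    gcongr
    exact le_max_right _ _

lemma UU_rec {a b : ℝ} (h : UU (a + 1) (b + 1)) : UU a b := by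
  obtain ⟨C, M, hC, hM, hU⟩ := h
  set R := |a| + |b| + 1 with hR
  have hR0 : 1 ≤ R := by have := abs_nonneg a; have := abs_nonneg b; linarith
  refine ⟨C * R, M + 1, by positivity, by positivity, fun x y hx1 hx2 hy => ?_⟩
  obtain ⟨h1, h2⟩ := hU (x + 1) y (by linarith) (by linarith) hy
  rw [gamma_rec hy] at h1 h2
  have hyp : 0 < |y| := by linarith
  have h3 := norm_xy_le (x := x) hy
  have h4 := le_norm_xy (x := x) (y := y)
  have hxR : |x| + 1 ≤ R := by
    have : |x| ≤ |a| + |b| := by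
      rw [abs_le]
      constructor
      · have := neg_abs_le a; have := abs_nonneg b; linarith
      · have := le_abs_self b; have := abs_nonneg a; linarith
    linarith
  constructor
  · have h5 : ‖Complex.Gamma (x + y * I)‖ ≤ ‖(x : ℂ) + y * I‖ * ‖Complex.Gamma (x + y * I)‖ :=
      le_mul_of_one_le_left (norm_nonneg _) (by linarith)
    refine h5.trans (h1.trans ?_)
    have h6 : mt M y ≤ mt (M + 1) y := mt_mono hy (by linarith)
    have h7 := mt_pos (e := M + 1) hy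
    calc C * mt M y ≤ C * mt (M + 1) y := by gcongr
      _ ≤ C * R * mt (M + 1) y := by
          apply mul_le_mul_of_nonneg_right _ h7.le
          nlinarith
  · have e : mt (-M) y = |y| * mt (-(M + 1)) y := by
      have := mt_mul (e := -(M + 1)) (b := 1) hy
      rw [Real.rpow_one] at this
      rw [this]; congr 1; ring
    rw [e] at h2
    refine le_of_mul_le_mul_left ?_ hyp
    calc _ ≤ _ := h2
      _ ≤ C * (((|x| + 1) * |y|) * ‖Complex.Gamma (x + y * I)‖) := by gcongr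
      _ ≤ C * ((R * |y|) * ‖Complex.Gamma (x + y * I)‖) := by gcongr
      _ = _ := by ring

lemma UU_nat (n : ℕ) : ∀ a b : ℝ, -(n:ℝ) < a → a ≤ b → UU a b := by
  induction n with
  | zero => intro a b ha hab; exact UU_pos (by simpa using ha) hab
  | succ n ih =>
    intro a b ha hab
    apply UU_rec
    apply ih
    · push_cast at ha
      linarith
    · linarith

theorem UU_all {a b : ℝ} (hab : a ≤ b) : UU a b := by
  obtain ⟨n, hn⟩ := exists_nat_gt (-a)
  exact UU_nat n a b (by linarith) hab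

end Pool.Agent.H483.FE
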