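import Pool.Agent.H483.FE.Grow

set_option autoImplicit false

/-!
# Solutions of functional equations of degree `> 2`
-/

namespace Pool.Agent.H483.FE

open Set Filter Topology Complex Polynomial
open scoped ComplexConjugate

variable {r r' : ℕ}

/-- `F` solves the functional equation (with all regularity) -/
structure IsSol (Q : ℝ) (ω : ℂ) (lam : Fin r → ℝ) (mu : Fin r → ℂ) (lam' : Fin r' → ℝ) (mu' : Fin r' → ℂ)
    (σ₀ : ℝ) (N : ℕ) (F : ℂ → ℂ) : Prop where
  diff : Differentiable ℂ F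
  series : ∃ a : ℕ → ℂ, (∀ n, n ≤ N → a n = 0) ∧ ∀ s : ℂ, σ₀ < s.re → LSeriesSummable a s ∧ F s = LSeries a s
  growth : ∀ σ₁ σ₂ : ℝ, ∃ C M : ℝ, ∀ s : ℂ, σ₁ ≤ s.re → s.re ≤ σ₂ → ‖F s‖ ≤ C * (1 + |s.im|) ^ M
  feq : ∀ s : ℂ, NoP lam mu s → NoP lam mu (1 - conj s) →
      (Q : ℂ) ^ s * gfac lam mu lam' mu' s * F s =
        ω * conj ((Q : ℂ) ^ (1 - conj s) * gfac lam mu lam' mu' (1 - conj s) * F (1 - conj s))

/-- the polynomial `dd` -/
noncomputable def ddP (lam : Fin r → ℝ) (mu : Fin r → ℂ) (N0 : ℕ) : ℂ[X] :=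
  ∏ j, ∏ n ∈ Finset.range N0, (C (lam j : ℂ) * X + C (mu j + n))

/-- the polynomial `cc` -/
noncomputable def ccP (lam : Fin r → ℝ) (mu : Fin r → ℂ) (N0 : ℕ) : ℂ[X] :=
  ∏ j, ∏ n ∈ Finset.range N0, (C (((-lam j : ℝ) : ℂ)) * X + C (lam j + conj (mu j) + n))

lemma ddP_eval (lam : Fin r → ℝ) (mu : Fin r → ℂ) (N0 : ℕ) (s : ℂ) : (ddP lam mu N0).eval s = dd lam mu N0 s := by
  unfold ddP dd
  simp [eval_prod]

lemma ccP_eval (lam : Fin r → ℝ) (mu : Fin r → ℂ) (N0 : ℕ) (s : ℂ) : (ccP lam mu N0).eval s = cc lam mu N0 s := by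
  unfold ccP cc
  simp [eval_prod]

lemma dd_ne {lam : Fin r → ℝ} {mu : Fin r → ℂ} (N0 : ℕ) {s : ℂ} (h : NoP lam mu s) : dd lam mu N0 s ≠ 0 := by
  unfold dd
  refine Finset.prod_ne_zero_iff.2 fun j _ => Finset.prod_ne_zero_iff.2 fun n _ => ?_
  intro h0
  apply h j n
  rw [← add_assoc] at h0
  exact eq_neg_of_add_eq_zero_left h0

lemma cc_ne {lam : Fin r → ℝ} {mu : Fin r → ℂ} (N0 : ℕ) {s : ℂ} (h : NoP lam mu (1 - conj s)) :
    cc lam mu N0 s ≠ 0 := by
  rw [← dd_conj]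
  exact (_root_.map_ne_zero _).2 (dd_ne N0 h)

lemma one_le_prod' {ι : Type*} (s : Finset ι) {f : ι → ℂ} (h : ∀ i ∈ s, 1 ≤ ‖f i‖) : 1 ≤ ‖∏ i ∈ s, f i‖ := by
  rw [norm_prod]
  calc (1:ℝ) = ∏ _i ∈ s, (1:ℝ) := by simp
    _ ≤ _ := Finset.prod_le_prod (fun _ _ => zero_le_one) h

/-- far from the real axis -/
lemma far_im {lam : Fin r → ℝ} (mu : Fin r → ℂ) (hl : ∀ j, 0 < lam j) :
    ∃ T : ℝ, 0 ≤ T ∧ ∀ t : ℝ, T ≤ |t| → ∀ j, 1 ≤ |lam j * t + (mu j).im| := by
  choose T hT0 hT using fun j => aff_compare (hl j) (mu j).im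
  refine ⟨∑ j, T j, Finset.sum_nonneg fun j _ => hT0 j, fun t ht j => ?_⟩
  exact (hT j t ((Finset.single_le_sum (fun j _ => hT0 j) (Finset.mem_univ j)).trans ht)).1

lemma NoP_of_im {lam : Fin r → ℝ} {mu : Fin r → ℂ} {s : ℂ} (h : ∀ j, 1 ≤ |lam j * s.im + (mu j).im|) :
    NoP lam mu s := by
  intro j n hn
  have h1 := congrArg Complex.im hn
  simp at h1
  have := h j
  rw [h1, abs_zero] at this
  linarith

lemma dd_one_le {lam : Fin r → ℝ} {mu : Fin r → ℂ} (N0 : ℕ) {s : ℂ} (h : ∀ j, 1 ≤ |lam j * s.im + (mu j).im|) :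
    1 ≤ ‖dd lam mu N0 s‖ := by
  unfold dd
  apply one_le_prod'
  intro j _
  apply one_le_prod'
  intro n _
  refine (h j).trans ?_
  have := Complex.abs_im_le_norm ((lam j : ℂ) * s + (mu j + n))
  simpa using this

lemma cc_one_le {lam : Fin r → ℝ} {mu : Fin r → ℂ} (N0 : ℕ) {s : ℂ} (h : ∀ j, 1 ≤ |lam j * s.im + (mu j).im|) :
    1 ≤ ‖cc lam mu N0 s‖ := by
  rw [← dd_conj, Complex.norm_conj]
  apply dd_one_le
  intro j
  simpa using h j

/-- asymptotic size of `Q^s G(s)` on lines -/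
lemma Qg_Asy {Q : ℝ} (hQ : 0 < Q) {lam : Fin r → ℝ} (mu : Fin r → ℂ) {lam' : Fin r' → ℝ} (mu' : Fin r' → ℂ)
    (hl : ∀ j, 0 < lam j) (hl' : ∀ j, 0 < lam' j) (σ : ℝ) :
    ∃ e : ℝ, Asy (fun t : ℝ => (Q : ℂ) ^ ((σ : ℂ) + t * I) * gfac lam mu lam' mu' ((σ : ℂ) + t * I)) e
      (∑ j, lam j - ∑ j, lam' j) := by
  have h := (Q_Asy hQ σ).mul ((Asy.prod Finset.univ (fun j _ => Gamma_Asy (hl j) (mu j) σ)).mul
    (Asy.prod Finset.univ (fun j _ => (Gamma_Asy (hl' j) (mu' j) σ).inv)))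
  have e : 0 + (∑ i, lam i + ∑ i, -lam' i) = ∑ j, lam j - ∑ j, lam' j := by
    simp [Finset.sum_neg_distrib, sub_eq_add_neg]
  rw [e] at h
  exact ⟨_, h⟩

lemma Qg_inv_UpB {Q : ℝ} (hQ : 0 < Q) {lam : Fin r → ℝ} (mu : Fin r → ℂ) {lam' : Fin r' → ℝ} (mu' : Fin r' → ℂ)
    (hl : ∀ j, 0 < lam j) (hl' : ∀ j, 0 < lam' j) :
    UpB (fun s => ((Q : ℂ) ^ s * gfac lam mu lam' mu' s)⁻¹) (-(∑ j, lam j - ∑ j, lam' j)) := by
  have h := (Q_UpB (Q := Q⁻¹) (by positivity)).mul ((UpB.prod Finset.univ (fun j _ => invGamma_UpB (hl j) (mu j))).mul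
    (UpB.prod Finset.univ (fun j _ => Gamma_UpB (hl' j) (mu' j))))
  have e : 0 + (∑ i, -lam i + ∑ i, lam' i) = -(∑ j, lam j - ∑ j, lam' j) := by
    simp [Finset.sum_neg_distrib]; ring
  rw [e] at h
  have e2 : (fun s => ((Q : ℂ) ^ s * gfac lam mu lam' mu' s)⁻¹) = fun s => (((Q⁻¹ : ℝ) : ℂ)) ^ s *
      ((∏ j, (Complex.Gamma ((lam j : ℂ) * s + mu j))⁻¹) * ∏ j, Complex.Gamma ((lam' j : ℂ) * s + mu' j)) := by
    funext s
    unfold gfac
    rw [mul_inv, mul_inv, Finset.prod_inv_distrib, Finset.prod_inv_distrib, inv_inv]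
    congr 1
    rw [Complex.ofReal_inv, Complex.inv_cpow]
    rw [Complex.arg_ofReal_of_nonneg hQ.le]
    exact Real.pi_pos.ne
  rw [e2]
  exact h

/-- **Main construction.** -/
theorem solution_of_quo {lam : Fin r → ℝ} {mu : Fin r → ℂ} {lam' : Fin r' → ℝ} {mu' : Fin r' → ℂ}
    (hl : ∀ j, 0 < lam j) (hl' : ∀ j, 0 < lam' j) {Q : ℝ} (hQ : 0 < Q) {ω η : ℂ} (hη : ‖η‖ = 1) (hηω : η ^ 2 = ω)
    (hS : 0 < ∑ j, lam j - ∑ j, lam' j) {α : ℝ} (hα : 0 < α) (hα1 : α < 1 / 2) {N0 N : ℕ} {σ₀ : ℝ} (hσ₀ : 1 / 2 + α ≤ σ₀)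
    {P : ℂ[X]} {E : ℂ → ℂ} (hE : Differentiable ℂ E) (hPE : ∀ s, P.eval s * gi lam mu s = gi lam' mu' s * E s)
    {f : ℂ → ℂ} (hf : f ∈ Quo (VV (gam Q lam mu lam' mu' N0) α N) (P * (ddP lam mu N0 * ccP lam mu N0))) :
    IsSol Q ω lam mu lam' mu' σ₀ N (fun s => η * ((Q : ℂ) ^ (-s) * (E s * f s))) := by
  have hQ' : (Q : ℂ) ≠ 0 := by exact_mod_cast hQ.ne'
  obtain ⟨hfd, hΛd, hΛf, hΛb, a, haN, haL⟩ := hf
  have hη0 : η ≠ 0 := by intro h; rw [h, norm_zero] at hη; exact zero_ne_one hη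
  have hηη : η * conj η = 1 := by rw [Complex.mul_conj, Complex.normSq_eq_norm_sq, hη]; simp
  simp only [eval_mul, ddP_eval, ccP_eval] at hΛd hΛf hΛb haL
  have hFd : Differentiable ℂ (fun s => η * ((Q : ℂ) ^ (-s) * (E s * f s))) := by
    intro s
    have h1 : DifferentiableAt ℂ (fun s : ℂ => (Q : ℂ) ^ (-s)) s :=
      DifferentiableAt.const_cpow (by fun_prop) (Or.inl hQ')
    exact (h1.mul ((hE s).mul (hfd s))).const_mul η
  -- the completed function
  have hPhi : ∀ s, NoP lam mu s → (Q : ℂ) ^ s * gfac lam mu lam' mu' s * (η * ((Q : ℂ) ^ (-s) * (E s * f s))) =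
      η * (P.eval s * f s) := by
    intro s hs
    have hg1 := (gi_ne_iff lam mu s).2 hs
    have e1 : (Q : ℂ) ^ s * (Q : ℂ) ^ (-s) = 1 := by
      rw [← Complex.cpow_add _ _ hQ']; simp
    rw [gfac_eq]
    calc (Q : ℂ) ^ s * ((gi lam mu s)⁻¹ * gi lam' mu' s) * (η * ((Q : ℂ) ^ (-s) * (E s * f s)))
        = η * (((Q : ℂ) ^ s * (Q : ℂ) ^ (-s)) * ((gi lam mu s)⁻¹ * (gi lam' mu' s * E s) * f s)) := by ring
      _ = η * ((gi lam mu s)⁻¹ * (P.eval s * gi lam mu s) * f s) := by rw [e1, ← hPE]; ring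
      _ = _ := by field_simp
  have hfe : ∀ s, NoP lam mu s → NoP lam mu (1 - conj s) → P.eval s * f s = conj (P.eval (1 - conj s) * f (1 - conj s)) := by
    intro s h1 h2
    have h3 := hΛf s
    have h4 := dd_ne N0 h1
    have h5 := cc_ne N0 h2
    have e1 : conj (dd lam mu N0 (1 - conj s)) = cc lam mu N0 s := dd_conj _ _ _ _
    have e2 : conj (cc lam mu N0 (1 - conj s)) = dd lam mu N0 s := cc_conj _ _ _ _
    simp only [map_mul, e1, e2] at h3
    rw [map_mul]
    refine mul_left_cancel₀ (mul_ne_zero h4 h5) ?_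
    linear_combination h3
  have hFE : ∀ s : ℂ, NoP lam mu s → NoP lam mu (1 - conj s) →
      (Q : ℂ) ^ s * gfac lam mu lam' mu' s * (η * ((Q : ℂ) ^ (-s) * (E s * f s))) =
        ω * conj ((Q : ℂ) ^ (1 - conj s) * gfac lam mu lam' mu' (1 - conj s) *
          (η * ((Q : ℂ) ^ (-(1 - conj s)) * (E (1 - conj s) * f (1 - conj s))))) := by
    intro s h1 h2
    rw [hPhi s h1, hPhi _ h2, map_mul, ← hfe s h1 h2, ← hηω]
    linear_combination (-(η * (P.eval s * f s))) * hηη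
  have hser : ∀ s : ℂ, 1 / 2 + α < s.re → LSeriesSummable (η • a) s ∧
      η * ((Q : ℂ) ^ (-s) * (E s * f s)) = LSeries (η • a) s := by
    intro s hs
    refine ⟨(haL s hs).1.smul η, ?_⟩
    rw [LSeries_smul]
    congr 1
    -- analyticity of the series
    have hab : LSeries.abscissaOfAbsConv a ≤ ((1 / 2 + α : ℝ) : EReal) := by
      apply LSeries.abscissaOfAbsConv_le_of_forall_lt_LSeriesSummable
      intro y hy
      exact (haL y (by simpa using hy)).1
    have hLa : ContinuousAt (LSeries a) s := by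
      have : AnalyticAt ℂ (LSeries a) s := by
        apply LSeries_analyticOnNhd a
        show LSeries.abscissaOfAbsConv a < s.re
        exact lt_of_le_of_lt hab (by exact_mod_cast hs)
      exact this.continuousAt
    have hcont : ContinuousAt (fun s => (Q : ℂ) ^ (-s) * (E s * f s)) s := by
      have h1 : DifferentiableAt ℂ (fun s : ℂ => (Q : ℂ) ^ (-s)) s :=
        DifferentiableAt.const_cpow (by fun_prop) (Or.inl hQ')
      exact (h1.mul ((hE s).mul (hfd s))).continuousAt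
    refine ((hcont.eventuallyEq_nhds_iff_eventuallyEq_nhdsNE hLa).1 ?_).eq_of_nhds
    have hnz : ∀ {g : ℂ → ℂ}, Differentiable ℂ g → (∃ z, g z ≠ 0) → ∀ᶠ z in 𝓝[≠] s, g z ≠ 0 := by
      intro g hg hne
      obtain ⟨n, hn⟩ := entire_order hg hne s
      rw [← meromorphicOrderAt_ne_top_iff_eventually_ne_zero (hg.analyticAt s).meromorphicAt, hn]
      exact WithTop.coe_ne_top
    obtain ⟨R1, -, hR1⟩ := far_right mu hl
    have ev1 := hnz (gi_diff lam mu) (gi_exists_ne mu hl)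
    have ev2 := hnz (gi_diff lam' mu') (gi_exists_ne mu' hl')
    have ev3 : ∀ᶠ z in 𝓝[≠] s, cc lam mu N0 z ≠ 0 := by
      apply hnz (cc_diff lam mu N0)
      refine ⟨((-R1 : ℝ) : ℂ), cc_ne N0 (NoP_of_re_pos (hR1 _ ?_))⟩
      simp
    have ev4 : ∀ᶠ z in 𝓝[≠] s, 1 / 2 + α < z.re :=
      eventually_nhdsWithin_of_eventually_nhds ((isOpen_lt continuous_const Complex.continuous_re).mem_nhds hs)
    filter_upwards [ev1, ev2, ev3, ev4] with z h1 h2 h3 h4
    have hno := (gi_ne_iff lam mu z).1 h1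
    have h5 := (haL z h4).2
    rw [gam_eq Q lam' mu' N0 hno, gfac_eq] at h5
    have h6 := dd_ne N0 hno
    have hQz : (Q : ℂ) ^ z ≠ 0 := by rw [Complex.cpow_ne_zero_iff]; exact Or.inl hQ'
    rw [Complex.cpow_neg]
    have h7 := hPE z
    have h8 : P.eval z * f z = (Q : ℂ) ^ z * ((gi lam mu z)⁻¹ * gi lam' mu' z) * LSeries a z := by
      refine mul_left_cancel₀ (mul_ne_zero h6 h3) ?_
      linear_combination h5
    have h9 : gi lam' mu' z * (E z * f z) = gi lam' mu' z * ((Q : ℂ) ^ z * LSeries a z) := by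
      have h10 : gi lam mu z * (gi lam mu z)⁻¹ = 1 := mul_inv_cancel₀ h1
      linear_combination (-f z) * h7 + gi lam mu z * h8 + ((Q : ℂ) ^ z * gi lam' mu' z * LSeries a z) * h10
    have h11 := mul_left_cancel₀ h2 h9
    rw [h11]
    field_simp
  refine ⟨hFd, ⟨η • a, fun n hn => by simp [haN n hn], fun s hs => hser s (by linarith)⟩, ?_, hFE⟩
  -- growth
  intro σ₁ σ₂
  set A : ℝ := 2 + |σ₁| + |σ₂| with hA
  have hA2 : 2 ≤ A := by have := abs_nonneg σ₁; have := abs_nonneg σ₂; linarith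
  have hlt : 1 - A < A := by linarith
  set F : ℂ → ℂ := fun s => η * ((Q : ℂ) ^ (-s) * (E s * f s)) with hF
  obtain ⟨T0, hT00, hT0⟩ := far_im mu hl
  obtain ⟨T0', hT00', hT0'⟩ := far_im mu' hl'
  -- nonvanishing of the gamma factor far from the real axis
  have hgne : ∀ s : ℂ, T0 ≤ |s.im| → T0' ≤ |s.im| → (Q : ℂ) ^ s * gfac lam mu lam' mu' s ≠ 0 := by
    intro s h1 h2
    rw [gfac_eq]
    refine mul_ne_zero (by rw [Complex.cpow_ne_zero_iff]; exact Or.inl hQ') (mul_ne_zero (inv_ne_zero ?_) ?_)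
    · exact (gi_ne_iff lam mu s).2 (NoP_of_im (hT0 _ h1))
    · exact (gi_ne_iff lam' mu' s).2 (NoP_of_im (hT0' _ h2))
  -- bound of F on compact rectangles
  have hrect : ∀ T : ℝ, ∃ B : ℝ, 0 ≤ B ∧ ∀ s : ℂ, 1 - A ≤ s.re → s.re ≤ A → |s.im| ≤ T → ‖F s‖ ≤ B := by
    intro T
    have hK : IsCompact (Icc (1 - A) A ×ℂ Icc (-T) T) := isCompact_Icc.reProdIm isCompact_Icc
    obtain ⟨B, hB⟩ := hK.exists_bound_of_continuousOn hFd.continuous.continuousOn
    refine ⟨|B|, abs_nonneg _, fun s h1 h2 h3 => (hB s ?_).trans (le_abs_self _)⟩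
    rw [mem_reProdIm]; exact ⟨⟨h1, h2⟩, abs_le.1 h3⟩
  -- right line
  set R := ∑' n : ℕ, ‖LSeries.term (η • a) (A : ℂ) n‖ with hR
  have hR0 : 0 ≤ R := tsum_nonneg fun n => norm_nonneg _
  have hright : ∀ s : ℂ, s.re = A → ‖F s‖ ≤ R := by
    intro s hs
    have h1 := (hser s (by rw [hs]; linarith))
    have h2 := (hser (A : ℂ) (by simp; linarith)).1
    rw [hF]
    simp only
    rw [h1.2]
    refine tsum_of_norm_bounded h2.norm.hasSum fun n => ?_
    rcases Nat.eq_zero_or_pos n with rfl | hn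
    · simp
    · rw [LSeries.term_of_ne_zero hn.ne', LSeries.term_of_ne_zero hn.ne', norm_div, norm_div,
        Complex.norm_natCast_cpow_of_pos hn, Complex.norm_natCast_cpow_of_pos hn, hs, Complex.ofReal_re]
  obtain ⟨C, M, h⟩ := pl_poly hFd hlt (by
    -- a priori growth
    obtain ⟨C1, M1, T1, hC1, hM1, h1⟩ := Qg_inv_UpB hQ mu mu' hl hl' (1 - A) A hlt.le
    obtain ⟨C2, h2⟩ := hΛb (1 - A) A
    obtain ⟨B, hB0, hB⟩ := hrect (max (max T0 T0') T1)
    have hC2 : 0 ≤ C2 := (norm_nonneg _).trans (h2 ((A:ℝ) : ℂ) (by simp; linarith) (by simp))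
    refine ⟨B + C1 * C2, Real.pi / 2 * (∑ j, lam j - ∑ j, lam' j) + M1, by positivity, by
      have := Real.pi_pos; positivity, fun s hs1 hs2 => ?_⟩
    set K := Real.pi / 2 * (∑ j, lam j - ∑ j, lam' j) with hK
    have hK0 : 0 ≤ K := by have := Real.pi_pos; positivity
    have h0 := abs_nonneg s.im
    rcases le_total |s.im| (max (max T0 T0') T1) with ht | ht
    · calc _ ≤ B := hB s hs1 hs2 ht
        _ ≤ B + C1 * C2 := by have := mul_nonneg hC1 hC2; linarith
        _ ≤ _ := by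
          apply le_mul_of_one_le_right (by positivity)
          apply Real.one_le_exp
          positivity
    · have ht0 := ((le_max_left _ _).trans (le_max_left _ _)).trans ht
      have ht0' := ((le_max_right _ _).trans (le_max_left _ _)).trans ht
      have hj := hT0 s.im ht0
      have hno := NoP_of_im hj
      have k1 := h1 s hs1 hs2 ((le_max_right _ _).trans ht)
      have k2 := h2 s hs1 hs2
      have k3 := dd_one_le N0 hj
      have k4 := cc_one_le N0 hj
      have k5 : ‖P.eval s * f s‖ ≤ C2 := by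
        refine le_trans ?_ k2
        rw [mul_assoc, mul_comm (dd lam mu N0 s * cc lam mu N0 s), ← mul_assoc, norm_mul _ (dd lam mu N0 s * cc lam mu N0 s)]
        apply le_mul_of_one_le_right (norm_nonneg _)
        rw [norm_mul]
        nlinarith
      have hg0 := hgne s ht0 ht0'
      have hgeq : (Q : ℂ) ^ s * gfac lam mu lam' mu' s * F s = η * (P.eval s * f s) := hPhi s hno
      have hFs : F s = ((Q : ℂ) ^ s * gfac lam mu lam' mu' s)⁻¹ * (η * (P.eval s * f s)) := by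
        rw [← hgeq, ← mul_assoc, inv_mul_cancel₀ hg0, one_mul]
      have k6 : st M1 (-(∑ j, lam j - ∑ j, lam' j)) s.im ≤ Real.exp ((K + M1) * |s.im|) := by
        unfold st
        have e1 : (1 + |s.im|) ^ M1 ≤ Real.exp (M1 * |s.im|) := by
          have e2 : 1 + |s.im| ≤ Real.exp |s.im| := by linarith [Real.add_one_le_exp |s.im|]
          calc (1 + |s.im|) ^ M1 ≤ (Real.exp |s.im|) ^ M1 := Real.rpow_le_rpow (by positivity) e2 hM1
            _ = Real.exp (M1 * |s.im|) := by rw [← Real.exp_mul]; congr 1; ring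
        have e3 : Real.exp (-(Real.pi / 2 * -(∑ j, lam j - ∑ j, lam' j)) * |s.im|) = Real.exp (K * |s.im|) := by
          congr 1; rw [hK]; ring
        rw [e3]
        calc _ ≤ Real.exp (M1 * |s.im|) * Real.exp (K * |s.im|) := by gcongr
          _ = _ := by rw [← Real.exp_add]; congr 1; ring
      rw [hFs, norm_mul, norm_mul, hη, one_mul]
      calc _ ≤ (C1 * st M1 (-(∑ j, lam j - ∑ j, lam' j)) s.im) * C2 :=
            mul_le_mul k1 k5 (norm_nonneg _) ((norm_nonneg _).trans k1)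
        _ ≤ (C1 * Real.exp ((K + M1) * |s.im|)) * C2 := by gcongr
        _ = C1 * C2 * Real.exp ((K + M1) * |s.im|) := by ring
        _ ≤ _ := by
          apply mul_le_mul_of_nonneg_right _ (Real.exp_pos _).le
          linarith) (by
    intro x hx
    rcases hx with rfl | hx
    · -- left line
      obtain ⟨e, c1, C1, T1, hc1, hC1, h1⟩ := Qg_Asy hQ mu mu' hl hl' A
      obtain ⟨e', c2, C2, T2, hc2, hC2, h2⟩ := Qg_Asy hQ mu mu' hl hl' (1 - A)
      obtain ⟨B, hB0, hB⟩ := hrect (max (max T0 T0') (max T1 T2))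
      refine ⟨B + C1 / c2 * R, |e - e'|, fun s hs => ?_⟩
      have h0 := abs_nonneg s.im
      have h01 : 1 ≤ 1 + |s.im| := by linarith
      have hCR : 0 ≤ C1 / c2 * R := by positivity
      rcases le_total |s.im| (max (max T0 T0') (max T1 T2)) with ht | ht
      · calc _ ≤ B := hB s hs.ge (by rw [hs]; exact hlt.le) ht
          _ ≤ B + C1 / c2 * R := by linarith
          _ ≤ _ := by
            apply le_mul_of_one_le_right (by positivity)
            exact Real.one_le_rpow h01 (abs_nonneg _)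
      · have ht0 := ((le_max_left _ _).trans (le_max_left _ _)).trans ht
        have ht0' := ((le_max_right _ _).trans (le_max_left _ _)).trans ht
        have ht1 := ((le_max_left _ _).trans (le_max_right _ _)).trans ht
        have ht2 := ((le_max_right _ _).trans (le_max_right _ _)).trans ht
        have hno := NoP_of_im (hT0 s.im ht0)
        set w : ℂ := 1 - conj s with hw
        have hwre : w.re = A := by simp [hw, hs]
        have hwim : w.im = s.im := by simp [hw]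
        have hnow : NoP lam mu w := NoP_of_im (by rw [hwim]; exact hT0 s.im ht0)
        have hg0 := hgne s ht0 ht0'
        have hfes := hFE s hno hnow
        have es : s = ((1 - A : ℝ) : ℂ) + s.im * I := by
          conv_lhs => rw [← Complex.re_add_im s, hs]
        have ew : w = ((A : ℝ) : ℂ) + s.im * I := by
          conv_lhs => rw [← Complex.re_add_im w, hwre, hwim]
        have k1 := (h1 s.im ht1).2
        have k2 := (h2 s.im ht2).1
        beta_reduce at k1 k2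
        rw [← ew] at k1
        rw [← es] at k2
        have k3 := hright w hwre
        have hnorm : ‖(Q : ℂ) ^ s * gfac lam mu lam' mu' s‖ * ‖F s‖ =
            ‖(Q : ℂ) ^ w * gfac lam mu lam' mu' w‖ * ‖F w‖ := by
          rw [← norm_mul, ← norm_mul]
          have hω : ‖ω‖ = 1 := by rw [← hηω, norm_pow, hη, one_pow]
          have := congrArg norm hfes
          rw [norm_mul ω, hω, one_mul, Complex.norm_conj] at this
          exact this
        have p1 := st_pos e (∑ j, lam j - ∑ j, lam' j) s.im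
        have p2 := st_pos e' (∑ j, lam j - ∑ j, lam' j) s.im
        have k4 : c2 * st e' (∑ j, lam j - ∑ j, lam' j) s.im * ‖F s‖ ≤ C1 * st e (∑ j, lam j - ∑ j, lam' j) s.im * R := by
          calc _ ≤ ‖(Q : ℂ) ^ s * gfac lam mu lam' mu' s‖ * ‖F s‖ := by gcongr
            _ = _ := hnorm
            _ ≤ _ := mul_le_mul k1 k3 (norm_nonneg _) (by positivity)
        have k5 : st e (∑ j, lam j - ∑ j, lam' j) s.im = st e' (∑ j, lam j - ∑ j, lam' j) s.im * (1 + |s.im|) ^ (e - e') := by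
          have := st_mul e' (∑ j, lam j - ∑ j, lam' j) (e - e') 0 s.im
          have e1 : st (e - e') 0 s.im = (1 + |s.im|) ^ (e - e') := by unfold st; simp
          rw [e1] at this
          rw [this]
          congr 1 <;> ring
        rw [k5] at k4
        have k6 : ‖F s‖ ≤ C1 / c2 * R * (1 + |s.im|) ^ (e - e') := by
          have : c2 * st e' (∑ j, lam j - ∑ j, lam' j) s.im * ‖F s‖ ≤
              c2 * st e' (∑ j, lam j - ∑ j, lam' j) s.im * (C1 / c2 * R * (1 + |s.im|) ^ (e - e')) := by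
            calc _ ≤ _ := k4
              _ = _ := by field_simp
          exact le_of_mul_le_mul_left this (by positivity)
        calc _ ≤ _ := k6
          _ ≤ C1 / c2 * R * (1 + |s.im|) ^ |e - e'| := by
              gcongr
              exact le_abs_self _
          _ ≤ _ := by
              apply mul_le_mul_of_nonneg_right _ (by positivity)
              linarith
    · rw [mem_singleton_iff] at hx
      subst hx
      refine ⟨R, 0, fun s hs => ?_⟩
      rw [Real.rpow_zero, mul_one]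
      exact hright s hs)
  refine ⟨C, M, fun s h1 h2 => h s ?_ ?_⟩
  · have := neg_abs_le σ₁; have := abs_nonneg σ₂; linarith
  · have := le_abs_self σ₂; have := abs_nonneg σ₁; linarith

/-- **Sufficiency**: the solutions are not contained in a finite-dimensional space. -/
theorem infinite_solutions {lam : Fin r → ℝ} {mu : Fin r → ℂ} {lam' : Fin r' → ℝ} {mu' : Fin r' → ℂ}
    (hl : ∀ j, 0 < lam j) (hl' : ∀ j, 0 < lam' j) {Q : ℝ} (hQ : 0 < Q) {ω : ℂ} (hω : ‖ω‖ = 1)
    (hS : 1 < ∑ j, lam j - ∑ j, lam' j)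
    (hfin : {s : ℂ | 0 < meromorphicOrderAt (gfac lam mu lam' mu') s}.Finite) {σ₀ : ℝ}
    (hσ₀ : 1 / 2 + 1 / (2 * (∑ j, lam j - ∑ j, lam' j)) < σ₀) (N : ℕ)
    (W : Submodule ℝ (ℂ → ℂ)) (hW : FiniteDimensional ℝ W) :
    ∃ F, IsSol Q ω lam mu lam' mu' σ₀ N F ∧ F ∉ W := by
  have hQ' : (Q : ℂ) ≠ 0 := by exact_mod_cast hQ.ne'
  set S := ∑ j, lam j - ∑ j, lam' j with hSdef
  have hS0 : 0 < S := by linarith
  -- choice of α
  obtain ⟨α, hα1, hα2⟩ : ∃ α : ℝ, α ∈ (bad lam mu lam' mu')ᶜ ∧ α ∈ Ioo (1 / (2 * S)) (min (1 / 2) (σ₀ - 1 / 2)) := by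
    have hd : Dense (bad lam mu lam' mu')ᶜ := (bad_countable mu mu' hl hl').dense_compl ℝ
    have hne : (Ioo (1 / (2 * S)) (min (1 / 2) (σ₀ - 1 / 2))).Nonempty := by
      apply nonempty_Ioo.2
      apply lt_min
      · rw [div_lt_div_iff₀ (by positivity) (by norm_num)]; linarith
      · linarith
    obtain ⟨α, h1, h2⟩ := hd.inter_open_nonempty _ isOpen_Ioo hne
    exact ⟨α, h2, h1⟩
  have hα0 : 0 < α := lt_trans (by positivity) hα2.1
  have hα3 : α < 1 / 2 := lt_of_lt_of_le hα2.2 (min_le_left _ _)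
  have hα4 : α < σ₀ - 1 / 2 := lt_of_lt_of_le hα2.2 (min_le_right _ _)
  have hα5 : 1 ≤ S * (2 * α) := by
    have := hα2.1
    rw [div_lt_iff₀ (by positivity)] at this
    linarith
  obtain ⟨N0, hN0⟩ : ∃ N0 : ℕ, ∀ j, -(mu j).re < N0 := by
    obtain ⟨n, hn⟩ := exists_nat_gt (∑ j, |(mu j).re|)
    refine ⟨n, fun j => ?_⟩
    have h1 := Finset.single_le_sum (s := Finset.univ) (fun j _ => abs_nonneg (mu j).re) (Finset.mem_univ j)
    have := neg_abs_le (mu j).re
    linarith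
  have A : Adm (gam Q lam mu lam' mu' N0) α := gam_Adm hQ hl hl' hN0 hα0 hα3 hα1 hS0 hα5
  obtain ⟨R, -, hR⟩ := gam_ne_far (Q := Q) (N0 := N0) hQ hl hl' hN0
  have hVinf := VV_inf A hR N
  obtain ⟨P, E, hP, hE, hPE⟩ := exists_quot (gi_diff lam mu) (gi_diff lam' mu') (gi_exists_ne mu hl) (gi_exists_ne mu' hl')
    (by rw [← gfac_eq]; exact hfin)
  -- nonzero polynomial
  have hdd : ddP lam mu N0 ≠ 0 := by
    obtain ⟨R1, -, hR1⟩ := far_right mu hl
    intro h
    have h1 := ddP_eval lam mu N0 ((R1 + 1 : ℝ) : ℂ)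
    rw [h, eval_zero] at h1
    exact dd_ne N0 (NoP_of_re_pos (hR1 ((R1 + 1 : ℝ) : ℂ) (by simp))) h1.symm
  have hcc : ccP lam mu N0 ≠ 0 := by
    obtain ⟨R1, -, hR1⟩ := far_right mu hl
    intro h
    have h1 := ccP_eval lam mu N0 ((-R1 : ℝ) : ℂ)
    rw [h, eval_zero] at h1
    exact cc_ne N0 (NoP_of_re_pos (hR1 (1 - conj ((-R1 : ℝ) : ℂ)) (by simp))) h1.symm
  have hD : P * (ddP lam mu N0 * ccP lam mu N0) ≠ 0 := mul_ne_zero hP (mul_ne_zero hdd hcc)
  have hQinf := quo_inf (V := VV (gam Q lam mu lam' mu' N0) α N) (fun f hf => hf.1) hVinf _ hD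
  obtain ⟨η, hηω⟩ : ∃ η : ℂ, η ^ 2 = ω := IsAlgClosed.exists_pow_nat_eq ω (by norm_num : 0 < 2)
  have hη : ‖η‖ = 1 := by
    have h1 : ‖η‖ ^ 2 = 1 := by rw [← norm_pow, hηω, hω]
    exact (pow_eq_one_iff_of_nonneg (norm_nonneg _) (by norm_num)).1 h1
  have hη0 : η ≠ 0 := by intro h; rw [h, norm_zero] at hη; exact zero_ne_one hη
  -- the linear map
  let φ : (ℂ → ℂ) →ₗ[ℝ] (ℂ → ℂ) :=
    { toFun := fun f s => η * ((Q : ℂ) ^ (-s) * (E s * f s))
      map_add' := fun f g => by funext s; simp only [Pi.add_apply]; ring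
      map_smul' := fun c f => by funext s; simp only [Pi.smul_apply, Complex.real_smul, RingHom.id_apply]; ring }
  by_contra hcon
  push Not at hcon
  have hsub : ∀ f ∈ Quo (VV (gam Q lam mu lam' mu' N0) α N) (P * (ddP lam mu N0 * ccP lam mu N0)), φ f ∈ W := by
    intro f hf
    exact hcon _ (solution_of_quo hl hl' hQ hη hηω hS0 hα0 hα3 (by linarith) hE hPE hf)
  apply hQinf
  let ψ : Quo (VV (gam Q lam mu lam' mu' N0) α N) (P * (ddP lam mu N0 * ccP lam mu N0)) →ₗ[ℝ] W :=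
    (φ.comp (Submodule.subtype _)).codRestrict W (fun f => hsub f f.2)
  have hinj : Function.Injective ψ := by
    rw [← LinearMap.ker_eq_bot, LinearMap.ker_eq_bot']
    intro f hf
    have h1 : ∀ s, E s * (f : ℂ → ℂ) s = 0 := by
      intro s
      have h2 : φ (f : ℂ → ℂ) = 0 := congrArg Subtype.val hf
      have h3 : η * ((Q : ℂ) ^ (-s) * (E s * (f : ℂ → ℂ) s)) = 0 := congrFun h2 s
      have hQs : (Q : ℂ) ^ (-s) ≠ 0 := by rw [Complex.cpow_ne_zero_iff]; exact Or.inl hQ'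
      simpa [hη0, hQs] using h3
    have hnz : ∀ {g : ℂ → ℂ}, Differentiable ℂ g → (∃ z, g z ≠ 0) → ∀ᶠ z in 𝓝[≠] (0:ℂ), g z ≠ 0 := by
      intro g hg hne
      obtain ⟨n, hn⟩ := entire_order hg hne 0
      rw [← meromorphicOrderAt_ne_top_iff_eventually_ne_zero (hg.analyticAt 0).meromorphicAt, hn]
      exact WithTop.coe_ne_top
    have hE0 : ∃ z, E z ≠ 0 := by
      by_contra h
      push Not at h
      have h4 := hnz (gi_diff lam mu) (gi_exists_ne mu hl)
      have h5 := hnz P.differentiable (by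
        by_contra h
        push Not at h
        exact hP (Polynomial.funext (by simpa using h)))
      obtain ⟨z, h6, h7⟩ := (h4.and h5).exists
      have h8 := hPE z
      rw [h z, mul_zero] at h8
      exact (mul_ne_zero h7 h6) h8
    by_contra hf0
    have hf1 : ∃ z, (f : ℂ → ℂ) z ≠ 0 := by
      by_contra h
      push Not at h
      exact hf0 (Subtype.ext (funext h))
    obtain ⟨z, h6, h7⟩ := ((hnz hE hE0).and (hnz f.2.1 hf1)).exists
    exact (mul_ne_zero h6 h7) (h1 z)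
  exact FiniteDimensional.of_injective ψ hinj

end Pool.Agent.H483.FE
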