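import Pool.Agent.H483.FE.Rel2

set_option autoImplicit false

/-!
# The theta series and the completed function
-/

namespace Pool.Agent.H483.FE

open MeasureTheory Set Filter Topology Complex FourierTransform
open Pool.Agent.H336R4.PF
open scoped ComplexConjugate

/-- the kernel, in the additive variable -/
noncomputable def KK (γ : ℂ → ℂ) (y : ℝ) : ℂ := cexp (-((1:ℝ) * y : ℝ)) * 𝓕 (fun t : ℝ => γ (ln 1 t)) y

lemma rep_eq_int (γ : ℂ → ℂ) (σ y : ℝ) : cexp (-(σ * y : ℝ)) * 𝓕 (fun t : ℝ => γ (ln σ t)) y =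
    |(2 * Real.pi)⁻¹| • ∫ t : ℝ, γ (σ + t * I) * cexp (-(σ + t * I) * y) := by
  rw [← MeasureTheory.Measure.integral_comp_mul_left (fun t : ℝ => γ (σ + t * I) * cexp (-(σ + t * I) * y)),
    Real.fourier_real_eq_integral_exp_smul, ← integral_const_mul]
  congr 1
  funext t
  simp only [smul_eq_mul, ln]
  have e : cexp (-((σ:ℂ) + ((2 * Real.pi * t : ℝ) : ℂ) * I) * y) =
      cexp (-((σ * y : ℝ) : ℂ)) * cexp (((-2 * Real.pi * t * y : ℝ) : ℂ) * I) := by
    rw [← Complex.exp_add]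
    congr 1
    push_cast
    ring
  rw [e]
  ring

lemma int_shift {γ : ℂ → ℂ} {α : ℝ} (A : Adm γ α) {a b : ℝ} (ha : 0 < a) (hab : a ≤ b) (y : ℝ) :
    ∫ t : ℝ, γ (a + t * I) * cexp (-(a + t * I) * y) = ∫ t : ℝ, γ (b + t * I) * cexp (-(b + t * I) * y) := by
  obtain ⟨C, δ, hδ, hC⟩ := A.decay a b ha hab
  refine vshift (g := fun z => γ z * cexp (-z * y)) (C := |C| * Real.exp ((|a| + |b|) * |y|)) hδ hab ?_ ?_
  · intro z hz1 hz2
    have h1 := A.diff z (by linarith)
    fun_prop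
  · intro z hz1 hz2
    rw [norm_mul, Complex.norm_exp]
    have e : (-z * (y:ℂ)).re = -z.re * y := by simp
    rw [e]
    have h1 : -z.re * y ≤ (|a| + |b|) * |y| := by
      have h2 : |z.re| ≤ |a| + |b| := by
        rw [abs_le]
        constructor
        · have := neg_abs_le a; have := abs_nonneg b; linarith
        · have := le_abs_self b; have := abs_nonneg a; linarith
      calc -z.re * y ≤ |-z.re * y| := le_abs_self _
        _ = |z.re| * |y| := by rw [abs_mul, abs_neg]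
        _ ≤ _ := by gcongr
    calc _ ≤ (|C| * Real.exp (-δ * |z.im|)) * Real.exp ((|a| + |b|) * |y|) := by
          apply mul_le_mul _ (Real.exp_le_exp.2 h1) (Real.exp_pos _).le (by positivity)
          exact (hC z hz1 hz2).trans (mul_le_mul_of_nonneg_right (le_abs_self _) (Real.exp_pos _).le)
      _ = _ := by ring

lemma KK_rep {γ : ℂ → ℂ} {α : ℝ} (A : Adm γ α) {σ : ℝ} (hσ : 0 < σ) (y : ℝ) :
    KK γ y = cexp (-(σ * y : ℝ)) * 𝓕 (fun t : ℝ => γ (ln σ t)) y := by
  unfold KK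
  rw [rep_eq_int γ 1 y, rep_eq_int γ σ y]
  congr 1
  rcases le_total 1 σ with h | h
  · exact_mod_cast int_shift A one_pos h y
  · exact_mod_cast (int_shift A hσ h y).symm

lemma KK_dec {γ : ℂ → ℂ} {α : ℝ} (A : Adm γ α) : Dec (KK γ) :=
  dec_of_rep (G := fun σ t => γ (ln σ t)) (fun _ hσ y => KK_rep A hσ y)

lemma ED_gamma {γ : ℂ → ℂ} {α : ℝ} (A : Adm γ α) {σ : ℝ} (hσ : 0 < σ) : ED (fun t : ℝ => γ (ln σ t)) := by
  have := GG_ED A (p := fun _ => 1) continuous_const (fun σ => ⟨1, fun t => by simp⟩) hσ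
  simpa using this

lemma KK_cont {γ : ℂ → ℂ} {α : ℝ} (A : Adm γ α) : Continuous (KK γ) := by
  have : Continuous (𝓕 (fun t : ℝ => γ (ln 1 t))) :=
    VectorFourier.fourierIntegral_continuous Real.continuous_fourierChar continuous_inner (ED_gamma A one_pos).int
  unfold KK
  fun_prop

lemma KK_bil {γ : ℂ → ℂ} {α : ℝ} (A : Adm γ α) {s : ℂ} (hs : 0 < s.re) :
    Integrable (fun y : ℝ => cexp (s * y) * KK γ y) ∧ ∫ y : ℝ, cexp (s * y) * KK γ y = γ s := by
  have hE := ED_gamma A hs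
  set G : ℝ → ℂ := fun t : ℝ => γ (ln s.re t) with hG
  have h1 : 𝓕 G = fun y : ℝ => cexp ((s.re * y : ℝ)) * KK γ y := by
    funext y
    rw [KK_rep A hs y, ← mul_assoc, ← Complex.exp_add]
    simp [hG]
  have hF : Integrable (𝓕 G) := by rw [h1]; exact (KK_dec A).int (KK_cont A) hs
  have h2 : ∀ y : ℝ, cexp (s * y) * KK γ y = Real.fourierChar (y * (s.im / (2 * Real.pi))) • 𝓕 G y := by
    intro y
    rw [h1, Circle.smul_def, Real.fourierChar_apply, smul_eq_mul, ← mul_assoc, ← Complex.exp_add]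
    congr 2
    have hpi : (Real.pi : ℂ) ≠ 0 := by exact_mod_cast Real.pi_ne_zero
    conv_lhs => rw [← Complex.re_add_im s]
    push_cast
    field_simp
    ring
  have h3 : 𝓕⁻ (𝓕 G) (s.im / (2 * Real.pi)) = γ s := by
    rw [hE.1.fourierInv_fourier_eq hE.int hF]
    simp only [hG, ln]
    congr 1
    have hpi : (Real.pi : ℂ) ≠ 0 := by exact_mod_cast Real.pi_ne_zero
    conv_rhs => rw [← Complex.re_add_im s]
    push_cast
    field_simp
  constructor
  · simp_rw [h2]
    have := (Real.fourierIntegral_convergent_iff (μ := volume) (f := 𝓕 G) (-(s.im / (2 * Real.pi)))).2 hF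
    simpa [mul_comm] using this
  · simp_rw [h2]
    rw [← h3, Real.fourierInv_eq]
    congr 1
    funext y
    congr 2
    simp [mul_comm]

lemma KK_good {γ : ℂ → ℂ} {α : ℝ} (A : Adm γ α) (κ : ℂ) (v : ℝ) :
    Good γ (fun y => κ * KK γ (y + v) - conj κ * Real.exp (-v) * KK γ (y - v)) := by
  refine ⟨fun s => κ * cexp (-s * v) - conj κ * cexp ((s - 1) * v), by fun_prop, fun σ => ?_, fun s => ?_,
    fun σ hσ y => ?_⟩
  · refine ⟨‖κ‖ * Real.exp (-σ * v) + ‖κ‖ * Real.exp ((σ - 1) * v), fun t => ?_⟩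
    refine (norm_sub_le _ _).trans (le_of_eq ?_)
    rw [norm_mul, norm_mul, Complex.norm_conj, Complex.norm_exp, Complex.norm_exp]
    congr 3
    · simp
    · simp
  · simp only [map_sub, map_mul, ← Complex.exp_conj, Complex.conj_conj, Complex.conj_ofReal, map_neg, map_one]
    have e1 : -(1 - conj s) * (v:ℂ) = (conj s - 1) * v := by ring
    have e2 : (1 - conj s - 1) * (v:ℂ) = -conj s * v := by ring
    rw [e1, e2]
    ring
  · have e1 : ∀ w : ℝ, cexp (-(σ * (y + w) : ℝ)) * 𝓕 (fun t : ℝ => γ (ln σ t)) (y + w) =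
        cexp (-(σ * y : ℝ)) * (cexp (-(σ * w : ℝ)) * ∫ t : ℝ, cexp (((-2 * Real.pi * t * y : ℝ) : ℂ) * I) •
          (cexp (((-2 * Real.pi * t * w : ℝ) : ℂ) * I) * γ (ln σ t))) := by
      intro w
      rw [Real.fourier_real_eq_integral_exp_smul, ← mul_assoc, ← Complex.exp_add]
      congr 1
      · congr 1; push_cast; ring
      · congr 1
        funext t
        rw [smul_eq_mul, smul_eq_mul, ← mul_assoc, ← Complex.exp_add]
        congr 2
        push_cast
        ring
    have i1 : ∀ w : ℝ, Integrable (fun t : ℝ => cexp (((-2 * Real.pi * t * y : ℝ) : ℂ) * I) •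
          (cexp (((-2 * Real.pi * t * w : ℝ) : ℂ) * I) * γ (ln σ t))) := by
      intro w
      have hE := (ED_gamma A hσ)
      refine hE.int.norm.mono' ?_ (Eventually.of_forall fun t => ?_)
      · have h1 : Continuous (fun t : ℝ => cexp (((-2 * Real.pi * t * y : ℝ) : ℂ) * I)) := by fun_prop
        have h2 : Continuous (fun t : ℝ => cexp (((-2 * Real.pi * t * w : ℝ) : ℂ) * I)) := by fun_prop
        exact (h1.smul (h2.mul hE.1)).aestronglyMeasurable
      · rw [smul_eq_mul, norm_mul, norm_mul, Complex.norm_exp_ofReal_mul_I, Complex.norm_exp_ofReal_mul_I,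
          one_mul, one_mul]
    have e2 := e1 v
    have e3 := e1 (-v)
    rw [← sub_eq_add_neg] at e3
    beta_reduce
    rw [KK_rep A hσ (y + v), KK_rep A hσ (y - v), e2, e3, Real.fourier_real_eq_integral_exp_smul]
    have e4 : ∀ t : ℝ, cexp (((-2 * Real.pi * t * y : ℝ) : ℂ) * I) • (γ (ln σ t) *
        (κ * cexp (-(ln σ t) * v) - conj κ * cexp ((ln σ t - 1) * v))) =
        κ * cexp (-(σ * v : ℝ)) * (cexp (((-2 * Real.pi * t * y : ℝ) : ℂ) * I) •
          (cexp (((-2 * Real.pi * t * v : ℝ) : ℂ) * I) * γ (ln σ t))) -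
        conj κ * Real.exp (-v) * cexp (-(σ * (-v) : ℝ)) * (cexp (((-2 * Real.pi * t * y : ℝ) : ℂ) * I) •
          (cexp (((-2 * Real.pi * t * (-v) : ℝ) : ℂ) * I) * γ (ln σ t))) := by
      intro t
      have f1 : cexp (-(ln σ t) * v) = cexp (-(σ * v : ℝ)) * cexp (((-2 * Real.pi * t * v : ℝ) : ℂ) * I) := by
        rw [← Complex.exp_add]; congr 1; unfold ln; push_cast; ring
      have f2 : cexp ((ln σ t - 1) * v) = Real.exp (-v) * cexp (-(σ * (-v) : ℝ)) *
          cexp (((-2 * Real.pi * t * (-v) : ℝ) : ℂ) * I) := by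
        rw [Complex.ofReal_exp, ← Complex.exp_add, ← Complex.exp_add]; congr 1; unfold ln; push_cast; ring
      rw [f1, f2, smul_eq_mul, smul_eq_mul, smul_eq_mul]
      ring
    simp_rw [e4]
    rw [integral_sub ((i1 v).const_mul _) ((i1 (-v)).const_mul _), integral_const_mul, integral_const_mul]
    ring

lemma abs_sum {a : ℕ → ℂ} {α : ℝ} (ha : Summable fun n : ℕ => ‖a n‖ ^ 2 * (n : ℝ) ^ (-(2 * α))) {σ : ℝ}
    (hα : 0 < α) (hσ : 1 / 2 + α < σ) : Summable fun n : ℕ => ‖a n‖ * (n : ℝ) ^ (-σ) := by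
  have h1 : Summable fun n : ℕ => (n : ℝ) ^ (-(2 * (σ - α))) := Real.summable_nat_rpow.2 (by linarith)
  refine Summable.of_nonneg_of_le (fun n => by positivity) (fun n => ?_) ((ha.add h1).mul_left (1 / 2))
  rcases Nat.eq_zero_or_pos n with rfl | hn
  · rw [Nat.cast_zero, Real.zero_rpow (by linarith), mul_zero]
    positivity
  · have hn0 : (0:ℝ) < n := by exact_mod_cast hn
    have e1 : (n:ℝ) ^ (-σ) = (n:ℝ) ^ (-α) * (n:ℝ) ^ (-(σ - α)) := by
      rw [← Real.rpow_add hn0]; congr 1; ring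
    have e2 : (n:ℝ) ^ (-(2 * α)) = ((n:ℝ) ^ (-α)) ^ 2 := by
      rw [← Real.rpow_natCast, ← Real.rpow_mul hn0.le]; congr 1; push_cast; ring
    have e3 : (n:ℝ) ^ (-(2 * (σ - α))) = ((n:ℝ) ^ (-(σ - α))) ^ 2 := by
      rw [← Real.rpow_natCast, ← Real.rpow_mul hn0.le]; congr 1; push_cast; ring
    rw [e1, e2, e3]
    nlinarith [sq_nonneg (‖a n‖ * (n:ℝ) ^ (-α) - (n:ℝ) ^ (-(σ - α)))]

/-- the theta series -/
noncomputable def Th (γ : ℂ → ℂ) (a : ℕ → ℂ) (v : ℝ) : ℂ := ∑' n : ℕ, a n * KK γ (Real.log n + v)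

lemma KK_log {γ : ℂ → ℂ} {α : ℝ} (A : Adm γ α) {σ : ℝ} (hσ : 0 < σ) : ∃ C : ℝ, 0 ≤ C ∧ ∀ (n : ℕ) (v : ℝ), 1 ≤ n →
    ‖KK γ (Real.log n + v)‖ ≤ C * (n : ℝ) ^ (-σ) * Real.exp (-σ * v) := by
  obtain ⟨C, hC⟩ := KK_dec A σ hσ
  refine ⟨|C|, abs_nonneg _, fun n v hn => ?_⟩
  have hn0 : (0:ℝ) < n := by exact_mod_cast hn
  refine (hC _).trans ?_
  have e : Real.exp (-σ * (Real.log n + v)) = (n:ℝ) ^ (-σ) * Real.exp (-σ * v) := by
    rw [Real.rpow_def_of_pos hn0, ← Real.exp_add]; congr 1; ring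
  rw [e, ← mul_assoc]
  gcongr
  exact le_abs_self _

section

variable {γ : ℂ → ℂ} {α : ℝ} (A : Adm γ α) {a : ℕ → ℂ} (h0 : a 0 = 0)
  (ha : Summable fun n : ℕ => ‖a n‖ ^ 2 * (n : ℝ) ^ (-(2 * α)))

include A h0 ha

lemma Th_terms {σ : ℝ} (hσ : 1 / 2 + α < σ) : ∃ C : ℝ, 0 ≤ C ∧ (∀ (n : ℕ) (v : ℝ),
    ‖a n * KK γ (Real.log n + v)‖ ≤ C * (‖a n‖ * (n : ℝ) ^ (-σ)) * Real.exp (-σ * v)) := by
  obtain ⟨C, hC0, hC⟩ := KK_log A (σ := σ) (by have := A.pos; linarith)
  refine ⟨C, hC0, fun n v => ?_⟩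
  rcases Nat.eq_zero_or_pos n with rfl | hn
  · simp [h0]
  · rw [norm_mul]
    calc _ ≤ ‖a n‖ * (C * (n : ℝ) ^ (-σ) * Real.exp (-σ * v)) := by gcongr; exact hC n v hn
      _ = _ := by ring

lemma Th_summable (v : ℝ) : Summable fun n : ℕ => a n * KK γ (Real.log n + v) := by
  obtain ⟨C, hC0, hC⟩ := Th_terms A h0 ha (σ := 2) (by have := A.lt; linarith)
  have h1 := abs_sum ha A.pos (σ := 2) (by have := A.lt; linarith)
  exact Summable.of_norm_bounded ((h1.mul_left C).mul_right _) (fun n => hC n v)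

lemma Th_bound {σ : ℝ} (hσ : 1 / 2 + α < σ) : ∃ C : ℝ, ∀ v : ℝ, ‖Th γ a v‖ ≤ C * Real.exp (-σ * v) := by
  obtain ⟨C, hC0, hC⟩ := Th_terms A h0 ha hσ
  have h1 := abs_sum ha A.pos hσ
  refine ⟨∑' n : ℕ, C * (‖a n‖ * (n : ℝ) ^ (-σ)), fun v => ?_⟩
  unfold Th
  rw [← tsum_mul_right]
  exact tsum_of_norm_bounded ((h1.mul_left C).mul_right _).hasSum (fun n => hC n v)

lemma Th_cont : Continuous (Th γ a) := by
  obtain ⟨C, hC0, hC⟩ := Th_terms A h0 ha (σ := 2) (by have := A.lt; linarith)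
  have h1 := abs_sum ha A.pos (σ := 2) (by have := A.lt; linarith)
  have hK := KK_cont A
  have h2 : Continuous (fun v : ℝ => ∑' n : ℕ, (Real.exp (2 * v) : ℂ) * (a n * KK γ (Real.log n + v))) := by
    refine continuous_tsum (fun n => by fun_prop) (h1.mul_left C) (fun n v => ?_)
    rw [norm_mul, Complex.norm_real, Real.norm_eq_abs, Real.abs_exp]
    calc _ ≤ Real.exp (2 * v) * (C * (‖a n‖ * (n : ℝ) ^ (-(2:ℝ))) * Real.exp (-2 * v)) := by
          gcongr; exact hC n v
      _ = C * (‖a n‖ * (n : ℝ) ^ (-(2:ℝ))) * (Real.exp (2 * v) * Real.exp (-2 * v)) := by ring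
      _ = _ := by rw [← Real.exp_add]; simp
  have h3 : Th γ a = fun v : ℝ => (Real.exp (-(2 * v)) : ℂ) *
      ∑' n : ℕ, (Real.exp (2 * v) : ℂ) * (a n * KK γ (Real.log n + v)) := by
    funext v
    rw [tsum_mul_left, ← mul_assoc, ← Complex.ofReal_mul, ← Real.exp_add]
    simp [Th]
  rw [h3]
  fun_prop

/-- the functional equation of the theta series -/
lemma Th_feq (hr : ∀ h, Good γ h → HasSum (fun n : ℕ => (a n * h (Real.log n)).re) 0) (v : ℝ) :
    Th γ a v = Real.exp (-v) * conj (Th γ a (-v)) := by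
  have key : ∀ κ : ℂ, (κ * (Th γ a v - Real.exp (-v) * conj (Th γ a (-v)))).re = 0 := by
    intro κ
    have h1 := hr _ (KK_good A κ v)
    have s1 := (Th_summable A h0 ha v).hasSum.mul_left κ
    have s2 := (Th_summable A h0 ha (-v)).hasSum.mul_left (conj κ * Real.exp (-v))
    have s3 := Complex.hasSum_re (s1.sub s2)
    have h2 : (κ * Th γ a v - conj κ * Real.exp (-v) * Th γ a (-v)).re = 0 := by
      refine s3.unique ?_
      refine h1.congr_fun fun n => ?_
      congr 1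
      simp only [sub_eq_add_neg]
      ring
    have h3 : (conj κ * Real.exp (-v) * Th γ a (-v)).re = (κ * (Real.exp (-v) * conj (Th γ a (-v)))).re := by
      rw [← Complex.conj_re]
      congr 1
      simp only [map_mul, Complex.conj_conj, Complex.conj_ofReal]
      ring
    rw [mul_sub, Complex.sub_re, ← h3, ← Complex.sub_re]
    exact h2
  set D := Th γ a v - Real.exp (-v) * conj (Th γ a (-v)) with hD
  have h1 := key (conj D)
  have h2 : conj D * D = ((Complex.normSq D : ℝ) : ℂ) := by rw [mul_comm, Complex.mul_conj]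
  rw [h2, Complex.ofReal_re, Complex.normSq_eq_zero] at h1
  exact sub_eq_zero.1 h1

end

/-- decay of all exponential orders in both directions -/
def Dec2 (f : ℝ → ℂ) : Prop := ∀ σ : ℝ, ∃ C : ℝ, ∀ y : ℝ, ‖f y‖ ≤ C * Real.exp (-σ * y)

lemma Th_dec2 {γ : ℂ → ℂ} {α : ℝ} (A : Adm γ α) {a : ℕ → ℂ} (h0 : a 0 = 0)
    (ha : Summable fun n : ℕ => ‖a n‖ ^ 2 * (n : ℝ) ^ (-(2 * α)))
    (hr : ∀ h, Good γ h → HasSum (fun n : ℕ => (a n * h (Real.log n)).re) 0) : Dec2 (Th γ a) := by
  intro σ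
  obtain ⟨C1, h1⟩ := Th_bound A h0 ha (σ := max 2 σ) (by
    have := A.lt
    have := le_max_left 2 σ
    linarith)
  obtain ⟨C2, h2⟩ := Th_bound A h0 ha (σ := max 2 (1 - σ)) (by
    have := A.lt
    have := le_max_left 2 (1 - σ)
    linarith)
  refine ⟨|C1| + |C2|, fun y => ?_⟩
  rcases le_total 0 y with hy | hy
  · calc _ ≤ C1 * Real.exp (-(max 2 σ) * y) := h1 y
      _ ≤ (|C1| + |C2|) * Real.exp (-σ * y) := by
          apply mul_le_mul
          · linarith [le_abs_self C1, abs_nonneg C2]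
          · apply Real.exp_le_exp.2
            have := le_max_right 2 σ
            nlinarith
          · positivity
          · positivity
  · rw [Th_feq A h0 ha hr y, norm_mul, Complex.norm_conj, Complex.norm_real, Real.norm_eq_abs, Real.abs_exp]
    calc _ ≤ Real.exp (-y) * (C2 * Real.exp (-(max 2 (1 - σ)) * -y)) := by gcongr; exact h2 (-y)
      _ = C2 * Real.exp ((max 2 (1 - σ) - 1) * y) := by
          rw [mul_left_comm, ← Real.exp_add]; congr 2; ring
      _ ≤ (|C1| + |C2|) * Real.exp (-σ * y) := by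
          apply mul_le_mul
          · linarith [le_abs_self C2, abs_nonneg C1]
          · apply Real.exp_le_exp.2
            have := le_max_right 2 (1 - σ)
            nlinarith
          · positivity
          · positivity

lemma Dec2.bound {f : ℝ → ℂ} (h : Dec2 f) (a b : ℝ) : ∃ C : ℝ, 0 ≤ C ∧ ∀ (x y : ℝ), a ≤ x → x ≤ b →
    Real.exp (x * y) * ‖f y‖ ≤ C * Real.exp (-2 * |y|) := by
  obtain ⟨C1, h1⟩ := h (b + 2)
  obtain ⟨C2, h2⟩ := h (a - 2)
  refine ⟨|C1| + |C2|, by positivity, fun x y hx1 hx2 => ?_⟩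
  rcases le_total 0 y with hy | hy
  · rw [abs_of_nonneg hy]
    calc _ ≤ Real.exp (x * y) * (C1 * Real.exp (-(b + 2) * y)) := by gcongr; exact h1 y
      _ = C1 * Real.exp ((x - b - 2) * y) := by rw [mul_left_comm, ← Real.exp_add]; congr 2; ring
      _ ≤ _ := by
          apply mul_le_mul
          · linarith [le_abs_self C1, abs_nonneg C2]
          · apply Real.exp_le_exp.2; nlinarith
          · positivity
          · positivity
  · rw [abs_of_nonpos hy]
    calc _ ≤ Real.exp (x * y) * (C2 * Real.exp (-(a - 2) * y)) := by gcongr; exact h2 y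
      _ = C2 * Real.exp ((x - a + 2) * y) := by rw [mul_left_comm, ← Real.exp_add]; congr 2; ring
      _ ≤ _ := by
          apply mul_le_mul
          · linarith [le_abs_self C2, abs_nonneg C1]
          · apply Real.exp_le_exp.2; nlinarith
          · positivity
          · positivity

lemma norm_cexp_mul (s : ℂ) (y : ℝ) : ‖cexp (s * y)‖ = Real.exp (s.re * y) := by
  rw [Complex.norm_exp]; congr 1; simp

lemma Dec2.int {f : ℝ → ℂ} (h : Dec2 f) (hc : Continuous f) (s : ℂ) :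
    Integrable (fun y : ℝ => cexp (s * y) * f y) := by
  obtain ⟨C, hC0, hC⟩ := h.bound s.re s.re
  refine Integrable.mono' ((integrable_exp_abs (δ := 2) (by norm_num)).const_mul C) (by fun_prop)
    (Eventually.of_forall fun y => ?_)
  rw [norm_mul, norm_cexp_mul]
  exact hC s.re y le_rfl le_rfl

lemma Dec2.entire {f : ℝ → ℂ} (h : Dec2 f) (hc : Continuous f) :
    Differentiable ℂ (fun s : ℂ => ∫ y : ℝ, cexp (s * y) * f y) := by
  intro s0
  obtain ⟨C, hC0, hC⟩ := h.bound (s0.re - 1) (s0.re + 1)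
  have key := hasDerivAt_integral_of_dominated_loc_of_deriv_le (μ := volume) (𝕜 := ℂ)
    (F := fun (s : ℂ) (y : ℝ) => cexp (s * y) * f y) (F' := fun (s : ℂ) (y : ℝ) => y * cexp (s * y) * f y)
    (x₀ := s0) (s := Metric.ball s0 1) (bound := fun y => C * Real.exp (-1 * |y|)) (Metric.ball_mem_nhds s0 one_pos)
    (Eventually.of_forall fun s => (by fun_prop : Continuous (fun y : ℝ => cexp (s * y) * f y)).aestronglyMeasurable)
    (h.int hc s0) (by
      exact (by fun_prop : Continuous (fun y : ℝ => y * cexp (s0 * y) * f y)).aestronglyMeasurable)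
    (Eventually.of_forall fun y s hs => by
      rw [norm_mul, norm_mul, norm_cexp_mul, Complex.norm_real, Real.norm_eq_abs]
      have hs' : |s.re - s0.re| < 1 := by
        have h1 := Complex.abs_re_le_norm (s - s0)
        rw [Complex.sub_re] at h1
        rw [Metric.mem_ball, dist_eq_norm] at hs
        linarith
      rw [abs_lt] at hs'
      have h2 := hC s.re y (by linarith) (by linarith)
      have h3 : |y| ≤ Real.exp (|y|) := (by linarith [Real.add_one_le_exp |y|] : |y| ≤ Real.exp |y|)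
      calc _ = |y| * (Real.exp (s.re * y) * ‖f y‖) := by ring
        _ ≤ Real.exp |y| * (C * Real.exp (-2 * |y|)) := by gcongr
        _ = C * Real.exp (-1 * |y|) := by rw [mul_left_comm, ← Real.exp_add]; congr 2; ring)
    ((integrable_exp_abs (δ := 1) one_pos).const_mul C)
    (Eventually.of_forall fun y s _ => by
      have h1 : HasDerivAt (fun s : ℂ => s * (y:ℂ)) (y:ℂ) s := by simpa using! (hasDerivAt_id s).mul_const (y:ℂ)
      have h2 := (h1.cexp).mul_const (f y)
      refine h2.congr_deriv ?_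
      ring)
  exact key.2.differentiableAt

lemma Dec2.strip {f : ℝ → ℂ} (h : Dec2 f) (a b : ℝ) : ∃ C : ℝ, ∀ s : ℂ, a ≤ s.re → s.re ≤ b →
    ‖∫ y : ℝ, cexp (s * y) * f y‖ ≤ C := by
  obtain ⟨C, hC0, hC⟩ := h.bound a b
  refine ⟨∫ y : ℝ, C * Real.exp (-2 * |y|), fun s h1 h2 => ?_⟩
  apply norm_integral_le_of_norm_le ((integrable_exp_abs (δ := 2) (by norm_num)).const_mul C)
  refine Eventually.of_forall fun y => ?_
  rw [norm_mul, norm_cexp_mul]
  exact hC s.re y h1 h2

/-- **Core theorem.** -/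
theorem core {γ : ℂ → ℂ} {α : ℝ} (A : Adm γ α) (n0 : ℕ) : ∃ (a : ℕ → ℂ) (Λ : ℂ → ℂ),
    (∀ n, n ≤ n0 → a n = 0) ∧ (∃ n, a n ≠ 0) ∧ Differentiable ℂ Λ ∧
    (∀ s, Λ s = conj (Λ (1 - conj s))) ∧
    (∀ σ₁ σ₂ : ℝ, ∃ C : ℝ, ∀ s : ℂ, σ₁ ≤ s.re → s.re ≤ σ₂ → ‖Λ s‖ ≤ C) ∧
    ∀ s : ℂ, 1 / 2 + α < s.re → LSeriesSummable a s ∧ Λ s = γ s * LSeries a s := by
  obtain ⟨a, hn, hne, ha, hr⟩ := relation A n0
  have h0 : a 0 = 0 := hn 0 (Nat.zero_le _)
  have hD := Th_dec2 A h0 ha hr
  have hc := Th_cont A h0 ha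
  refine ⟨a, fun s => ∫ y : ℝ, cexp (s * y) * Th γ a y, hn, hne, hD.entire hc, ?_, fun a b => hD.strip a b, ?_⟩
  · intro s
    simp only
    rw [← integral_conj, ← integral_neg_eq_self]
    congr 1
    funext y
    rw [Th_feq A h0 ha hr (-y)]
    simp only [map_mul, ← Complex.exp_conj, Complex.conj_ofReal, map_sub, map_one, Complex.conj_conj, neg_neg]
    rw [← mul_assoc, Complex.ofReal_exp, ← Complex.exp_add]
    congr 2
    push_cast
    ring
  · intro s hs
    have hs0 : 0 < s.re := by have := A.pos; linarith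
    have hsum := abs_sum ha A.pos hs
    have hterm : ∀ n : ℕ, LSeries.term a s n = a n * (n : ℂ) ^ (-s) := by
      intro n
      rcases Nat.eq_zero_or_pos n with rfl | hn
      · simp [h0]
      · rw [LSeries.term_of_ne_zero hn.ne', Complex.cpow_neg, div_eq_mul_inv]
    constructor
    · refine Summable.of_norm_bounded hsum (fun n => ?_)
      rw [hterm]
      rcases Nat.eq_zero_or_pos n with rfl | hn
      · simp [h0]
      · rw [norm_mul, Complex.norm_natCast_cpow_of_pos hn]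
        simp
    · obtain ⟨hKi, hKe⟩ := KK_bil A hs0
      -- interchange
      set F : ℕ → ℝ → ℂ := fun n y => cexp (s * y) * (a n * KK γ (Real.log n + y)) with hF
      have hF1 : ∀ n : ℕ, 1 ≤ n → ∀ y : ℝ, F n y = (a n * (n:ℂ) ^ (-s)) *
          (cexp (s * ((Real.log n + y : ℝ) : ℂ)) * KK γ (Real.log n + y)) := by
        intro n hn y
        have hn0 : (n:ℂ) ≠ 0 := by exact_mod_cast (by omega : n ≠ 0)
        have e : (n:ℂ) ^ (-s) * cexp (s * ((Real.log n + y : ℝ) : ℂ)) = cexp (s * y) := by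
          rw [Complex.cpow_def_of_ne_zero hn0, ← Complex.exp_add]
          congr 1
          rw [show Complex.log (n:ℂ) = ((Real.log n : ℝ) : ℂ) from by
            rw [Complex.ofReal_log (Nat.cast_nonneg n)]; simp]
          push_cast
          ring
        simp only [hF]
        rw [← e]
        ring
      have hFi : ∀ n, Integrable (F n) := by
        intro n
        rcases Nat.eq_zero_or_pos n with rfl | hn
        · simp [hF, h0]
        · have := (hKi.comp_add_left (Real.log n)).const_mul (a n * (n:ℂ) ^ (-s))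
          refine this.congr (Eventually.of_forall fun y => ?_)
          simp only
          rw [hF1 n hn]
      have hFn : ∀ n, ∫ y, ‖F n y‖ = (‖a n‖ * (n:ℝ) ^ (-s.re)) * ∫ y : ℝ, ‖cexp (s * y) * KK γ y‖ := by
        intro n
        rcases Nat.eq_zero_or_pos n with rfl | hn
        · simp [hF, h0]
        · simp_rw [hF1 n hn, norm_mul (a n * (n:ℂ) ^ (-s))]
          rw [integral_const_mul, norm_mul, Complex.norm_natCast_cpow_of_pos hn, Complex.neg_re]
          congr 1
          exact integral_add_left_eq_self (fun y : ℝ => ‖cexp (s * y) * KK γ y‖) (Real.log n)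
      have hFe : ∀ n, ∫ y, F n y = a n * (n:ℂ) ^ (-s) * γ s := by
        intro n
        rcases Nat.eq_zero_or_pos n with rfl | hn
        · simp [hF, h0]
        · simp_rw [hF1 n hn]
          rw [integral_const_mul, ← hKe]
          congr 1
          exact integral_add_left_eq_self (fun y : ℝ => cexp (s * y) * KK γ y) (Real.log n)
      have H := hasSum_integral_of_summable_integral_norm hFi (by
        simp_rw [hFn]; exact hsum.mul_right _)
      simp_rw [hFe] at H
      have e1 : ∀ y : ℝ, ∑' n, F n y = cexp (s * y) * Th γ a y := by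
        intro y; simp only [hF]; rw [tsum_mul_left]; rfl
      simp_rw [e1] at H
      beta_reduce
      rw [← H.tsum_eq, tsum_mul_right, mul_comm]
      congr 1
      unfold LSeries
      congr 1
      funext n
      rw [hterm]

end Pool.Agent.H483.FE
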