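import Pool.Agent.H483.FE.Gfac

set_option autoImplicit false

/-!
# Gamma factors with finitely many zeros
-/

namespace Pool.Agent.H483.FE

open Set Filter Topology Complex Polynomial
open scoped ComplexConjugate

lemma entire_order {g : ℂ → ℂ} (hg : Differentiable ℂ g) (hne : ∃ s, g s ≠ 0) (s : ℂ) :
    ∃ n : ℕ, meromorphicOrderAt g s = ((n : ℤ) : WithTop ℤ) := by
  have ha : AnalyticAt ℂ g s := hg.analyticAt s
  have h1 : analyticOrderAt g s ≠ ⊤ := by
    intro h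
    rw [analyticOrderAt_eq_top] at h
    have h2 : AnalyticOnNhd ℂ g univ := fun s _ => hg.analyticAt s
    have h3 : AnalyticOnNhd ℂ (0 : ℂ → ℂ) univ := fun s _ => analyticAt_const
    have := h2.eq_of_eventuallyEq h3 (z₀ := s) (by filter_upwards [h] with z hz; simpa using hz)
    obtain ⟨z, hz⟩ := hne
    exact hz (by rw [this]; rfl)
  obtain ⟨n, hn⟩ := ENat.ne_top_iff_exists.1 h1
  refine ⟨n, ?_⟩
  rw [ha.meromorphicOrderAt_eq, ← hn]
  rfl

/-- If the quotient `g2 / g1` of entire functions has finitely many zeros then `P / (g2 / g1)` is entire for a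
polynomial `P`. -/
theorem exists_quot {g1 g2 : ℂ → ℂ} (h1 : Differentiable ℂ g1) (h2 : Differentiable ℂ g2)
    (hne1 : ∃ s, g1 s ≠ 0) (hne2 : ∃ s, g2 s ≠ 0)
    (hfin : {s : ℂ | 0 < meromorphicOrderAt (fun z => (g1 z)⁻¹ * g2 z) s}.Finite) :
    ∃ (P : ℂ[X]) (E : ℂ → ℂ), P ≠ 0 ∧ Differentiable ℂ E ∧ ∀ s, P.eval s * g1 s = g2 s * E s := by
  classical
  choose n1 hn1 using entire_order h1 hne1
  choose n2 hn2 using entire_order h2 hne2
  have m1 : ∀ s, MeromorphicAt g1 s := fun s => (h1.analyticAt s).meromorphicAt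
  have m2 : ∀ s, MeromorphicAt g2 s := fun s => (h2.analyticAt s).meromorphicAt
  have hord : ∀ s, meromorphicOrderAt (fun z => (g1 z)⁻¹ * g2 z) s = ((-(n1 s : ℤ) + n2 s : ℤ) : WithTop ℤ) := by
    intro s
    have e1 : meromorphicOrderAt (fun z => (g1 z)⁻¹) s = ((-(n1 s : ℤ) : ℤ) : WithTop ℤ) := by
      rw [fun_meromorphicOrderAt_inv, hn1]; rfl
    rw [fun_meromorphicOrderAt_mul (m1 s).fun_inv (m2 s), e1, hn2]
    rfl
  set Z := hfin.toFinset with hZ
  have hnotZ : ∀ s, s ∉ Z → n2 s ≤ n1 s := by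
    intro s hs
    rw [hZ, Set.Finite.mem_toFinset, mem_ofPred_eq, hord] at hs
    have : ¬ (0 : ℤ) < -(n1 s : ℤ) + n2 s := by
      intro h; exact hs (by exact_mod_cast h)
    omega
  set P : ℂ[X] := ∏ z ∈ Z, (X - C z) ^ (n2 z) with hP
  have hP0 : P ≠ 0 := by
    rw [hP]
    exact Finset.prod_ne_zero_iff.2 fun z _ => pow_ne_zero _ (X_sub_C_ne_zero z)
  have hPd : Differentiable ℂ (fun s => P.eval s) := P.differentiable
  have hPe : ∃ s, P.eval s ≠ 0 := by
    by_contra h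
    push Not at h
    exact hP0 (Polynomial.funext (by simpa using h))
  choose nP hnP using entire_order hPd hPe
  have hPZ : ∀ s ∈ Z, n2 s ≤ nP s := by
    intro s hs
    have e : (fun z => P.eval z) = fun z => (z - s) ^ (n2 s) * (∏ w ∈ Z.erase s, (X - C w) ^ (n2 w)).eval z := by
      funext z
      rw [hP, ← Finset.mul_prod_erase Z _ hs]
      simp
    have h3 : Differentiable ℂ (fun z => (∏ w ∈ Z.erase s, (X - C w) ^ (n2 w)).eval z) := Polynomial.differentiable _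
    have h4 : meromorphicOrderAt (fun z : ℂ => (z - s) ^ (n2 s)) s = ((n2 s : ℤ) : WithTop ℤ) :=
      fun_meromorphicOrderAt_pow_id_sub_const
    have h5 := hnP s
    rw [e, fun_meromorphicOrderAt_mul (by fun_prop) (h3.analyticAt s).meromorphicAt, h4] at h5
    have h6 := (h3.analyticAt s).meromorphicOrderAt_nonneg
    have h7 : ((n2 s : ℤ) : WithTop ℤ) ≤ ((nP s : ℤ) : WithTop ℤ) := by
      rw [← h5]; exact le_add_of_nonneg_right h6
    exact_mod_cast h7
  set f : ℂ → ℂ := fun s => (P.eval s * g1 s) * (g2 s)⁻¹ with hf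
  have mf : ∀ s, MeromorphicAt f s := fun s =>
    ((hPd.analyticAt s).meromorphicAt.mul (m1 s)).mul (m2 s).inv
  have hfo : ∀ s, 0 ≤ meromorphicOrderAt f s := by
    intro s
    have e1 : meromorphicOrderAt (fun z => (g2 z)⁻¹) s = ((-(n2 s : ℤ) : ℤ) : WithTop ℤ) := by
      rw [fun_meromorphicOrderAt_inv, hn2]; rfl
    have e2 : meromorphicOrderAt f s = (((nP s : ℤ) + n1 s + -(n2 s : ℤ) : ℤ) : WithTop ℤ) := by
      have m3 : MeromorphicAt (fun z => P.eval z * g1 z) s := (hPd.analyticAt s).meromorphicAt.mul (m1 s)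
      have m4 : MeromorphicAt (fun z => (g2 z)⁻¹) s := (m2 s).inv
      rw [hf, fun_meromorphicOrderAt_mul m3 m4,
        fun_meromorphicOrderAt_mul (hPd.analyticAt s).meromorphicAt (m1 s), e1, hnP, hn1]
      rfl
    rw [e2]
    have : (0 : ℤ) ≤ (nP s : ℤ) + n1 s + -(n2 s : ℤ) := by
      by_cases hs : s ∈ Z
      · have := hPZ s hs; omega
      · have := hnotZ s hs; omega
    exact_mod_cast this
  have mfo : MeromorphicOn f univ := fun s _ => mf s
  set E := toMeromorphicNFOn f univ with hE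
  have hEa : ∀ s, AnalyticAt ℂ E s := by
    intro s
    have h3 := meromorphicNFOn_toMeromorphicNFOn f univ (mem_univ s)
    rw [← h3.meromorphicOrderAt_nonneg_iff_analyticAt, meromorphicOrderAt_toMeromorphicNFOn mfo (mem_univ s)]
    exact hfo s
  refine ⟨P, E, hP0, fun s => (hEa s).differentiableAt, fun s => ?_⟩
  have hEf := mfo.toMeromorphicNFOn_eq_self_on_nhdsNE (mem_univ s)
  have hg2 : ∀ᶠ z in 𝓝[≠] s, g2 z ≠ 0 := by
    rw [← meromorphicOrderAt_ne_top_iff_eventually_ne_zero (m2 s), hn2]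
    exact WithTop.coe_ne_top
  have hev : (fun z => P.eval z * g1 z) =ᶠ[𝓝[≠] s] fun z => g2 z * E z := by
    filter_upwards [hEf, hg2] with z hz1 hz2
    rw [hE, hz1, hf]
    simp only
    field_simp
  have c1 : ContinuousAt (fun z => P.eval z * g1 z) s := (hPd s).continuousAt.mul (h1 s).continuousAt
  have c2 : ContinuousAt (fun z => g2 z * E z) s := (h2 s).continuousAt.mul (hEa s).continuousAt
  exact ((c1.eventuallyEq_nhds_iff_eventuallyEq_nhdsNE c2).1 hev).eq_of_nhds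

/-- Dirichlet series do not vanish far to the right. -/
lemma series_ne_zero {a : ℕ → ℂ} {σ : ℝ} (hs : LSeriesSummable a σ) {n0 : ℕ} (h0 : n0 ≠ 0) (hn : a n0 ≠ 0)
    (hmin : ∀ n, n ≠ 0 → n < n0 → a n = 0) : ∃ R : ℝ, σ < R ∧ ∀ s : ℂ, R ≤ s.re → LSeries a s ≠ 0 := by
  have hn0 : (0:ℝ) < n0 := by exact_mod_cast Nat.pos_of_ne_zero h0
  -- the tail
  set M := ∑' n : ℕ, ‖LSeries.term a σ n‖ with hM
  have hsum : Summable fun n : ℕ => ‖LSeries.term a σ n‖ := hs.norm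
  have hM0 : 0 ≤ M := tsum_nonneg fun n => norm_nonneg _
  -- choose R
  obtain ⟨R, hR1, hR2⟩ : ∃ R : ℝ, σ < R ∧ ∀ x : ℝ, R ≤ x →
      M * ((n0 : ℝ) / (n0 + 1)) ^ x < ‖a n0‖ * ((n0 : ℝ) + 1) ^ (-σ) := by
    have hq : (n0 : ℝ) / (n0 + 1) < 1 := by rw [div_lt_one (by positivity)]; linarith
    have t1 := (tendsto_rpow_atTop_of_base_lt_one ((n0 : ℝ) / (n0 + 1)) (by
      have : 0 < (n0 : ℝ) / (n0 + 1) := by positivity
      linarith) hq).const_mul M
    rw [mul_zero] at t1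
    have hpos : 0 < ‖a n0‖ * ((n0 : ℝ) + 1) ^ (-σ) := by
      have := norm_pos_iff.2 hn
      positivity
    obtain ⟨R, hR⟩ := eventually_atTop.1 (t1.eventually_lt_const hpos)
    exact ⟨max R (σ + 1), by have := le_max_right R (σ + 1); linarith, fun x hx => hR x ((le_max_left _ _).trans hx)⟩
  refine ⟨R, hR1, fun s hs' hzero => ?_⟩
  have hss : σ ≤ s.re := by linarith
  have hsum2 : LSeriesSummable a s := LSeriesSummable.of_re_le_re (by simpa using hss) hs
  have h1 : LSeries a s = LSeries.term a s n0 + ∑' n, if n = n0 then 0 else LSeries.term a s n :=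
    hsum2.tsum_eq_add_tsum_ite n0
  have h2 : ‖∑' n, if n = n0 then 0 else LSeries.term a s n‖ ≤ M * ((n0 : ℝ) + 1) ^ (-(s.re - σ)) := by
    rw [hM, ← tsum_mul_right]
    refine tsum_of_norm_bounded (hsum.mul_right _).hasSum fun n => ?_
    split_ifs with h
    · rw [norm_zero]; positivity
    · rcases Nat.eq_zero_or_pos n with rfl | hpos
      · simp
      rcases lt_or_gt_of_ne h with hlt | hgt
      · rw [LSeries.term_of_ne_zero hpos.ne', hmin n hpos.ne' hlt]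
        simp
        positivity
      · rw [LSeries.term_of_ne_zero hpos.ne', LSeries.term_of_ne_zero hpos.ne', norm_div, norm_div,
          Complex.norm_natCast_cpow_of_pos hpos, Complex.norm_natCast_cpow_of_pos hpos, Complex.ofReal_re]
        have hnr : (0:ℝ) < n := by exact_mod_cast hpos
        have hn1 : (n0:ℝ) + 1 ≤ n := by exact_mod_cast hgt
        have e1 : ((n:ℝ) ^ s.re)⁻¹ = ((n:ℝ) ^ σ)⁻¹ * (n:ℝ) ^ (-(s.re - σ)) := by
          rw [← Real.rpow_neg hnr.le, ← Real.rpow_neg hnr.le, ← Real.rpow_add hnr]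
          congr 1; ring
        have e2 : (n:ℝ) ^ (-(s.re - σ)) ≤ ((n0:ℝ) + 1) ^ (-(s.re - σ)) :=
          Real.rpow_le_rpow_of_nonpos (by positivity) hn1 (by linarith)
        rw [div_eq_mul_inv, e1, div_eq_mul_inv, ← mul_assoc]
        gcongr
  have h3 : LSeries.term a s n0 = -∑' n, if n = n0 then 0 else LSeries.term a s n := by
    rw [hzero] at h1
    exact eq_neg_of_add_eq_zero_left h1.symm
  have h4 : ‖LSeries.term a s n0‖ = ‖a n0‖ * (n0:ℝ) ^ (-s.re) := by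
    rw [LSeries.term_of_ne_zero h0, norm_div, Complex.norm_natCast_cpow_of_pos (Nat.pos_of_ne_zero h0),
      Real.rpow_neg hn0.le, div_eq_mul_inv]
  have h5 : ‖a n0‖ * (n0:ℝ) ^ (-s.re) ≤ M * ((n0 : ℝ) + 1) ^ (-(s.re - σ)) := by
    rw [← h4, h3, norm_neg]; exact h2
  have h6 := hR2 s.re hs'
  have hp : 0 < (n0:ℝ) ^ s.re := by positivity
  have h7 : ‖a n0‖ ≤ M * ((n0 : ℝ) + 1) ^ (-(s.re - σ)) * (n0:ℝ) ^ s.re := by
    have := mul_le_mul_of_nonneg_right h5 hp.le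
    rw [mul_assoc, ← Real.rpow_add hn0, neg_add_cancel, Real.rpow_zero, mul_one] at this
    exact this
  have h8 : ((n0 : ℝ) + 1) ^ (-(s.re - σ)) * (n0:ℝ) ^ s.re = ((n0:ℝ) + 1) ^ σ * ((n0 : ℝ) / (n0 + 1)) ^ s.re := by
    rw [Real.div_rpow hn0.le (by positivity), neg_sub, Real.rpow_sub (by positivity)]
    field_simp
  have h9 : ((n0:ℝ) + 1) ^ σ * ((n0 : ℝ) + 1) ^ (-σ) = 1 := by
    rw [← Real.rpow_add (by positivity)]; simp
  have hq : 0 < ((n0:ℝ) + 1) ^ σ := by positivity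
  have h10 : ‖a n0‖ ≤ ((n0:ℝ) + 1) ^ σ * (M * ((n0 : ℝ) / (n0 + 1)) ^ s.re) := by
    calc _ ≤ _ := h7
      _ = M * (((n0 : ℝ) + 1) ^ (-(s.re - σ)) * (n0:ℝ) ^ s.re) := by ring
      _ = _ := by rw [h8]; ring
  have h11 : ((n0:ℝ) + 1) ^ σ * (M * ((n0 : ℝ) / (n0 + 1)) ^ s.re) < ((n0:ℝ) + 1) ^ σ * (‖a n0‖ * ((n0 : ℝ) + 1) ^ (-σ)) :=
    mul_lt_mul_of_pos_left h6 hq
  have h12 : ((n0:ℝ) + 1) ^ σ * (‖a n0‖ * ((n0 : ℝ) + 1) ^ (-σ)) = ‖a n0‖ := by
    calc _ = ‖a n0‖ * (((n0:ℝ) + 1) ^ σ * ((n0 : ℝ) + 1) ^ (-σ)) := by ring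
      _ = _ := by rw [h9, mul_one]
  linarith

end Pool.Agent.H483.FE
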